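import Mathlib

/-!
# Characters of finite groups
-/

set_option autoImplicit false
set_option linter.unusedSectionVars false

namespace Pool.Agent.Q20.ZG

open Polynomial

theorem finite_chr (G : Type) [Group G] [Finite G] : Finite (G →* ℂˣ) := by
  have := Fintype.ofFinite G
  let f : (G →* ℂˣ) → (G → rootsOfUnity (Fintype.card G) ℂ) := fun χ g =>
    ⟨χ g, by rw [mem_rootsOfUnity, ← map_pow, pow_card_eq_one, map_one]⟩
  refine Finite.of_injective f fun χ χ' h => ?_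
  ext g
  have h1 := congrFun h g
  exact congrArg (fun z : rootsOfUnity (Fintype.card G) ℂ => ((z : ℂˣ) : ℂ)) h1

theorem orth2 {G : Type} [Group G] [Fintype G] [Fintype (G →* ℂˣ)] [DecidableEq G]
    (hc : ∀ a b : G, a * b = b * a) (g h : G) :
    ∑ χ : G →* ℂˣ, (((χ g : ℂˣ) : ℂ))⁻¹ * ((χ h : ℂˣ) : ℂ) =
      if g = h then (Fintype.card G : ℂ) else 0 := by
  let _ : CommGroup G := { mul_comm := hc }
  have : NeZero (Monoid.exponent G) := ⟨Monoid.exponent_ne_zero_of_finite⟩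
  by_cases hgh : g = h
  · subst hgh
    rw [if_pos rfl]
    have h1 : ∀ χ : G →* ℂˣ, (((χ g : ℂˣ) : ℂ))⁻¹ * ((χ g : ℂˣ) : ℂ) = 1 := fun χ =>
      inv_mul_cancel₀ (Units.ne_zero _)
    rw [Finset.sum_congr rfl fun χ _ => h1 χ, Finset.sum_const, nsmul_eq_mul, mul_one,
      Finset.card_univ, ← Nat.card_eq_fintype_card,
      CommGroup.card_monoidHom_of_hasEnoughRootsOfUnity G ℂ, Nat.card_eq_fintype_card]
  · rw [if_neg hgh]
    obtain ⟨φ, hφ⟩ := CommGroup.exists_apply_ne_one_of_hasEnoughRootsOfUnity G ℂ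
      (a := g⁻¹ * h) (fun h1 => hgh (inv_mul_eq_one.1 h1))
    let s : ℂ := ∑ χ : G →* ℂˣ, (((χ g : ℂˣ) : ℂ))⁻¹ * ((χ h : ℂˣ) : ℂ)
    have h2 : ((φ (g⁻¹ * h) : ℂˣ) : ℂ) * s = s := by
      change _ * ∑ χ : G →* ℂˣ, _ = _
      rw [Finset.mul_sum]
      refine Finset.sum_equiv (Equiv.mulLeft φ) (fun _ => by simp) fun χ _ => ?_
      rw [Equiv.coe_mulLeft, MonoidHom.mul_apply, MonoidHom.mul_apply, map_mul, map_inv,
        Units.val_mul, Units.val_mul, Units.val_mul, Units.val_inv_eq_inv_val, mul_inv]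
      ring
    have h3 : (((φ (g⁻¹ * h) : ℂˣ) : ℂ) - 1) * s = 0 := by rw [sub_mul, one_mul, h2, sub_self]
    refine (mul_eq_zero.1 h3).resolve_left fun h4 => hφ (Units.ext ?_)
    rw [Units.val_one]
    exact sub_eq_zero.1 h4

/-- the primitive roots of unity of one order satisfy the same rational equations -/
theorem root_trans {m : ℕ} (hm : 0 < m) {z z' : ℂ} (hz : IsPrimitiveRoot z m)
    (hz' : IsPrimitiveRoot z' m) {p : ℚ[X]} (hp : aeval z p = 0) : aeval z' p = 0 := by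
  have h1 := minpoly.dvd ℚ z hp
  rw [← cyclotomic_eq_minpoly_rat hz hm, cyclotomic_eq_minpoly_rat hz' hm] at h1
  obtain ⟨q, rfl⟩ := h1
  rw [map_mul, minpoly.aeval, zero_mul]

/-- characters with the same kernel satisfy the same rational relations -/
theorem rel_trans {G : Type} [Group G] [Fintype G] {χ χ' : G →* ℂˣ} (h : χ.ker = χ'.ker)
    (x : G → ℚ) (h0 : ∑ g, (x g : ℂ) * ((χ g : ℂˣ) : ℂ) = 0) :
    ∑ g, (x g : ℂ) * ((χ' g : ℂˣ) : ℂ) = 0 := by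
  classical
  have hfin : Finite χ.range := Finite.of_surjective χ.rangeRestrict χ.rangeRestrict_surjective
  obtain ⟨⟨z, g₀, rfl⟩, hz⟩ := (inferInstance : IsCyclic χ.range)
  have hk : ∀ g : G, ∃ k : ℕ, χ g = χ g₀ ^ k := by
    intro g
    obtain ⟨k, hk⟩ := (mem_powers_iff_mem_zpowers (G := χ.range)).2 (hz ⟨χ g, g, rfl⟩)
    exact ⟨k, (congrArg Subtype.val hk).symm⟩
  choose k hk using hk
  have hker : ∀ g : G, ∀ j : ℕ, χ g = χ g₀ ^ j ↔ χ' g = χ' g₀ ^ j := by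
    intro g j
    have h1 : ∀ ψ : G →* ℂˣ, ψ g = ψ g₀ ^ j ↔ g * (g₀ ^ j)⁻¹ ∈ ψ.ker := by
      intro ψ
      rw [MonoidHom.mem_ker, map_mul, map_inv, map_pow, mul_inv_eq_one]
    rw [h1, h1, h]
  have hord : orderOf (χ g₀) = orderOf (χ' g₀) := by
    refine orderOf_eq_orderOf_iff.2 fun j => ?_
    have h1 := hker 1 j
    rw [map_one, map_one] at h1
    constructor
    · intro h2
      exact (h1.1 h2.symm).symm
    · intro h2
      exact (h1.2 h2.symm).symm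
  have hpos : 0 < orderOf (χ g₀) := by
    have : IsOfFinOrder (χ g₀) := χ.isOfFinOrder (isOfFinOrder_of_finite g₀)
    exact this.orderOf_pos
  let p : ℚ[X] := ∑ g, C (x g) * X ^ (k g)
  have hp : ∀ ψ : G →* ℂˣ, (∀ g, ψ g = ψ g₀ ^ (k g)) →
      aeval ((ψ g₀ : ℂˣ) : ℂ) p = ∑ g, (x g : ℂ) * ((ψ g : ℂˣ) : ℂ) := by
    intro ψ hψ
    rw [map_sum]
    refine Finset.sum_congr rfl fun g _ => ?_
    rw [map_mul, aeval_C, map_pow, aeval_X, hψ g, Units.val_pow_eq_pow_val]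
    rfl
  have h1 : IsPrimitiveRoot ((χ g₀ : ℂˣ) : ℂ) (orderOf (χ g₀)) := by
    rw [← orderOf_units]
    exact IsPrimitiveRoot.orderOf _
  have h2 : IsPrimitiveRoot ((χ' g₀ : ℂˣ) : ℂ) (orderOf (χ g₀)) := by
    rw [hord, ← orderOf_units]
    exact IsPrimitiveRoot.orderOf _
  rw [← hp χ' fun g => (hker g _).1 (hk g)]
  rw [← hp χ hk] at h0
  exact root_trans hpos h1 h2 h0

/-- the inverse characters -/
theorem rel_trans_inv {G : Type} [Group G] [Fintype G] {χ χ' : G →* ℂˣ} (h : χ.ker = χ'.ker)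
    (x : G → ℚ) (h0 : ∑ g, (x g : ℂ) * (((χ g : ℂˣ) : ℂ))⁻¹ = 0) :
    ∑ g, (x g : ℂ) * (((χ' g : ℂˣ) : ℂ))⁻¹ = 0 := by
  have h1 : (χ⁻¹).ker = (χ'⁻¹).ker := by
    ext g
    rw [MonoidHom.mem_ker, MonoidHom.mem_ker, MonoidHom.inv_apply, MonoidHom.inv_apply,
      inv_eq_one, inv_eq_one, ← MonoidHom.mem_ker, ← MonoidHom.mem_ker, h]
  have h2 : ∀ ψ : G →* ℂˣ, ∀ g, (((ψ g : ℂˣ) : ℂ))⁻¹ = ((ψ⁻¹ g : ℂˣ) : ℂ) := by
    intro ψ g
    rw [MonoidHom.inv_apply, Units.val_inv_eq_inv_val]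
  simp only [h2] at h0 ⊢
  exact rel_trans h1 x h0

end Pool.Agent.Q20.ZG
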