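import Pool.Agent.Q20.ZG.Core
import Pool.Agent.Q20.ZG.Chr

/-!
# Abelian number fields: the Fourier transform
-/

set_option autoImplicit false
set_option linter.unusedSectionVars false

namespace Pool.Agent.Q20.ZG

open NumberField H39Gon

/-- the sum `∑_g χ(g) f(ι ∘ g)` -/
noncomputable def S {F : Type} [Field F] [NumberField F] (ι : F →+* ℂ)
    (χ : (F ≃ₐ[ℚ] F) →* ℂˣ) (f : (F →+* ℂ) → ℝ) : ℂ :=
  ∑ g : F ≃ₐ[ℚ] F, ((χ g : ℂˣ) : ℂ) * ((f (ι.comp (g : F →+* F)) : ℝ) : ℂ)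

/-- the value of `χ` at complex conjugation is `(-1)^(n-1)` -/
def Right (n : ℕ) {F : Type} [Field F] [NumberField F] (ι : F →+* ℂ)
    (χ : (F ≃ₐ[ℚ] F) →* ℂˣ) : Prop :=
  ∀ c : F ≃ₐ[ℚ] F, ComplexEmbedding.conjugate ι = ι.comp (c : F →+* F) →
    ((χ c : ℂˣ) : ℂ) = (-1) ^ (n - 1)

section
variable {n : ℕ} {F : Type} [Field F] [NumberField F] (ι : F →+* ℂ)

theorem comp_mul (g h : F ≃ₐ[ℚ] F) :
    ι.comp ((g * h : F ≃ₐ[ℚ] F) : F →+* F) = (ι.comp (g : F →+* F)).comp (h : F →+* F) := rfl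

theorem comp_inj {g h : F ≃ₐ[ℚ] F}
    (e : ι.comp (g : F →+* F) = ι.comp (h : F →+* F)) : g = h := by
  ext x
  exact ι.injective (congrArg (fun s : F →+* ℂ => s x) e)

theorem exists_comp [IsGalois ℚ F] (σ : F →+* ℂ) :
    ∃ g : F ≃ₐ[ℚ] F, ι.comp (g : F →+* F) = σ := by
  obtain ⟨g, hg⟩ := NumberField.ComplexEmbedding.exists_comp_symm_eq_of_comp_eq (k := ℚ) ι σ
    (Subsingleton.elim _ _)
  exact ⟨g.symm, hg⟩

theorem exists_cc [IsGalois ℚ F] :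
    ∃ c : F ≃ₐ[ℚ] F, ComplexEmbedding.conjugate ι = ι.comp (c : F →+* F) := by
  obtain ⟨c, hc⟩ := exists_comp ι (ComplexEmbedding.conjugate ι)
  exact ⟨c, hc.symm⟩

theorem conj_comp {c : F ≃ₐ[ℚ] F}
    (hc : ComplexEmbedding.conjugate ι = ι.comp (c : F →+* F)) (g : F ≃ₐ[ℚ] F) :
    ComplexEmbedding.conjugate (ι.comp (g : F →+* F)) = ι.comp ((c * g : F ≃ₐ[ℚ] F) : F →+* F) := by
  rw [comp_mul, ← hc]
  rfl

theorem cc_sq {c : F ≃ₐ[ℚ] F}
    (hc : ComplexEmbedding.conjugate ι = ι.comp (c : F →+* F)) : c * c = 1 := by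
  apply comp_inj ι
  rw [← conj_comp ι hc, ← hc]
  ext x
  simp

theorem chr_cc {c : F ≃ₐ[ℚ] F}
    (hc : ComplexEmbedding.conjugate ι = ι.comp (c : F →+* F)) (χ : (F ≃ₐ[ℚ] F) →* ℂˣ) :
    ((χ c : ℂˣ) : ℂ) = 1 ∨ ((χ c : ℂˣ) : ℂ) = -1 := by
  have h1 : ((χ c : ℂˣ) : ℂ) * ((χ c : ℂˣ) : ℂ) = 1 := by
    rw [← Units.val_mul, ← map_mul, cc_sq ι hc, map_one, Units.val_one]
  exact mul_self_eq_one_iff.1 h1

theorem S_translate (χ : (F ≃ₐ[ℚ] F) →* ℂˣ) (f : (F →+* ℂ) → ℝ) (k : F ≃ₐ[ℚ] F) :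
    ∑ g : F ≃ₐ[ℚ] F, ((χ g : ℂˣ) : ℂ) * ((f (ι.comp ((k * g : F ≃ₐ[ℚ] F) : F →+* F)) : ℝ) : ℂ) =
      (((χ k : ℂˣ) : ℂ))⁻¹ * S ι χ f := by
  rw [S, Finset.mul_sum]
  refine Finset.sum_equiv (Equiv.mulLeft k) (fun _ => by simp) fun g _ => ?_
  rw [Equiv.coe_mulLeft, map_mul, Units.val_mul, ← mul_assoc, ← mul_assoc,
    inv_mul_cancel₀ (Units.ne_zero _), one_mul]

/-- **the Fourier lemma**: a translation stable set of functions without vanishing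
transforms is full -/
theorem full_of_S [IsGalois ℚ F] (hc : ∀ a b : F ≃ₐ[ℚ] F, a * b = b * a) (hn : 0 < n)
    (A : Set ((F →+* ℂ) → ℝ))
    (hA : ∀ f ∈ A, ∀ g : F ≃ₐ[ℚ] F, (fun σ : F →+* ℂ => f (σ.comp (g : F →+* F))) ∈ A)
    (hχ : ∀ χ, Right n ι χ → ∃ f ∈ A, S ι χ f ≠ 0) : Full n F A := by
  classical
  have := finite_chr (F ≃ₐ[ℚ] F)
  have := Fintype.ofFinite ((F ≃ₐ[ℚ] F) →* ℂˣ)
  intro l hl
  choose s hs using fun w : Idx n F => exists_comp ι w.1.embedding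
  obtain ⟨c, hcc⟩ := exists_cc ι
  -- the transforms at the characters of the right parity
  have h1 : ∀ χ : (F ≃ₐ[ℚ] F) →* ℂˣ, Right n ι χ →
      ∑ w, (l w : ℂ) * (((χ (s w) : ℂˣ) : ℂ))⁻¹ = 0 := by
    intro χ hr
    obtain ⟨f, hf, hne⟩ := hχ χ hr
    have h2 : ∑ g : F ≃ₐ[ℚ] F, ((χ g : ℂˣ) : ℂ) *
        ∑ w, (l w : ℂ) * ((f (w.1.embedding.comp (g : F →+* F)) : ℝ) : ℂ) = 0 := by
      refine Finset.sum_eq_zero fun g _ => ?_
      have h3 := hl _ (hA f hf g)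
      have h4 : ∑ w, (l w : ℂ) * ((f (w.1.embedding.comp (g : F →+* F)) : ℝ) : ℂ) = 0 := by
        exact_mod_cast h3
      rw [h4, mul_zero]
    simp only [Finset.mul_sum] at h2
    rw [Finset.sum_comm] at h2
    have h5 : ∀ w : Idx n F, ∑ g : F ≃ₐ[ℚ] F, ((χ g : ℂˣ) : ℂ) *
        ((l w : ℂ) * ((f (w.1.embedding.comp (g : F →+* F)) : ℝ) : ℂ)) =
        (l w : ℂ) * (((χ (s w) : ℂˣ) : ℂ))⁻¹ * S ι χ f := by
      intro w
      rw [mul_assoc, ← S_translate, Finset.mul_sum]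
      refine Finset.sum_congr rfl fun g _ => ?_
      rw [comp_mul, hs w]
      ring
    rw [Finset.sum_congr rfl fun w _ => h5 w, ← Finset.sum_mul] at h2
    exact (mul_eq_zero.1 h2).resolve_right hne
  -- all characters
  have h2 : ∀ χ : (F ≃ₐ[ℚ] F) →* ℂˣ, ∑ w, (l w : ℂ) * ((((χ (s w) : ℂˣ) : ℂ))⁻¹ +
      (-1) ^ (n - 1) * (((χ (c * s w) : ℂˣ) : ℂ))⁻¹) = 0 := by
    intro χ
    by_cases hr : Right n ι χ
    · have h3 := h1 χ hr
      have h4 : ∀ w : Idx n F, (l w : ℂ) * ((((χ (s w) : ℂˣ) : ℂ))⁻¹ +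
          (-1) ^ (n - 1) * (((χ (c * s w) : ℂˣ) : ℂ))⁻¹) =
          (1 + (-1) ^ (n - 1) * (((χ c : ℂˣ) : ℂ))⁻¹) *
          ((l w : ℂ) * (((χ (s w) : ℂˣ) : ℂ))⁻¹) := by
        intro w
        rw [map_mul, Units.val_mul, mul_inv]
        ring
      rw [Finset.sum_congr rfl fun w _ => h4 w, ← Finset.mul_sum, h3, mul_zero]
    · have h3 : (-1 : ℂ) ^ (n - 1) * (((χ c : ℂˣ) : ℂ))⁻¹ = -1 := by
        have h4 : ((χ c : ℂˣ) : ℂ) ≠ (-1) ^ (n - 1) := by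
          intro h5
          refine hr fun c' hc' => ?_
          have h6 : c' = c := comp_inj ι (hc'.symm.trans hcc)
          rw [h6, h5]
        rcases neg_one_pow_eq_or ℂ (n - 1) with h5 | h5 <;>
          rcases chr_cc ι hcc χ with h6 | h6
        · exact absurd (h6.trans h5.symm) h4
        · rw [h5, h6]
          norm_num
        · rw [h5, h6]
          norm_num
        · exact absurd (h6.trans h5.symm) h4
      refine Finset.sum_eq_zero fun w _ => ?_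
      rw [map_mul, Units.val_mul, mul_inv, ← mul_assoc, h3]
      ring
  funext v
  have h3 : ∑ χ : (F ≃ₐ[ℚ] F) →* ℂˣ, ((χ (s v) : ℂˣ) : ℂ) *
      ∑ w, (l w : ℂ) * ((((χ (s w) : ℂˣ) : ℂ))⁻¹ +
      (-1) ^ (n - 1) * (((χ (c * s w) : ℂˣ) : ℂ))⁻¹) = 0 :=
    Finset.sum_eq_zero fun χ _ => by rw [h2, mul_zero]
  simp only [Finset.mul_sum] at h3
  rw [Finset.sum_comm] at h3
  have h4 : ∀ w : Idx n F, ∑ χ : (F ≃ₐ[ℚ] F) →* ℂˣ, ((χ (s v) : ℂˣ) : ℂ) *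
      ((l w : ℂ) * ((((χ (s w) : ℂˣ) : ℂ))⁻¹ +
      (-1) ^ (n - 1) * (((χ (c * s w) : ℂˣ) : ℂ))⁻¹)) =
      (l w : ℂ) * ((if s w = s v then (Fintype.card (F ≃ₐ[ℚ] F) : ℂ) else 0) +
      (-1) ^ (n - 1) * (if c * s w = s v then (Fintype.card (F ≃ₐ[ℚ] F) : ℂ) else 0)) := by
    intro w
    rw [← orth2 hc (s w) (s v), ← orth2 hc (c * s w) (s v), Finset.mul_sum,
      ← Finset.sum_add_distrib, Finset.mul_sum]
    refine Finset.sum_congr rfl fun χ _ => ?_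
    ring
  rw [Finset.sum_congr rfl fun w _ => h4 w] at h3
  have hsinj : ∀ w, s w = s v ↔ w = v := by
    intro w
    constructor
    · intro h
      have h5 : w.1.embedding = v.1.embedding := by rw [← hs w, ← hs v, h]
      apply Subtype.ext
      rw [← InfinitePlace.mk_embedding w.1, ← InfinitePlace.mk_embedding v.1, h5]
    · rintro rfl
      rfl
  have hcard : (Fintype.card (F ≃ₐ[ℚ] F) : ℂ) ≠ 0 := by exact_mod_cast Fintype.card_ne_zero
  have hcs : ∀ w, c * s w = s v → w = v := by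
    intro w h
    have h5 : ComplexEmbedding.conjugate w.1.embedding = v.1.embedding := by
      rw [← hs w, ← hs v, conj_comp ι hcc, h]
    apply Subtype.ext
    rw [← InfinitePlace.mk_embedding w.1, ← InfinitePlace.mk_embedding v.1, ← h5,
      InfinitePlace.mk_conjugate_eq]
  rw [Finset.sum_eq_single v] at h3
  · rw [if_pos rfl] at h3
    by_cases h1c : c = 1
    · -- all embeddings are real
      have hreal : InfinitePlace.IsReal v.1 := by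
        rw [← InfinitePlace.mk_embedding v.1, InfinitePlace.isReal_mk_iff]
        change ComplexEmbedding.conjugate _ = _
        rw [← hs v, conj_comp ι hcc, h1c, one_mul]
      have hodd : n % 2 = 1 := by
        rcases v.2 with h | h
        · exact h
        · exact absurd h (InfinitePlace.not_isComplex_iff_isReal.2 hreal)
      have heven : Even (n - 1) := ⟨(n - 1) / 2, by omega⟩
      rw [h1c, one_mul, if_pos rfl, heven.neg_one_pow, one_mul, ← two_mul] at h3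
      have h5 : (l v : ℂ) = 0 := by
        refine (mul_eq_zero.1 h3).resolve_right (mul_ne_zero two_ne_zero hcard)
      exact_mod_cast h5
    · have h5 : c * s v ≠ s v := fun h => h1c (mul_eq_right.1 h)
      rw [if_neg h5, mul_zero, add_zero] at h3
      have h6 : (l v : ℂ) = 0 := (mul_eq_zero.1 h3).resolve_right hcard
      exact_mod_cast h6
  · intro w _ hw
    rw [if_neg fun h => hw ((hsinj w).1 h), if_neg fun h => hw (hcs w h)]
    ring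
  · intro h
    exact absurd (Finset.mem_univ v) h

/-- the transforms as linear maps -/
theorem S_zero_of_span {A : Set ((F →+* ℂ) → ℝ)} {χ : (F ≃ₐ[ℚ] F) →* ℂˣ}
    (h : ∀ f ∈ A, S ι χ f = 0) {f : (F →+* ℂ) → ℝ} (hf : f ∈ Submodule.span ℝ A) :
    S ι χ f = 0 := by
  refine Submodule.span_induction (p := fun f _ => S ι χ f = 0) h ?_ ?_ ?_ hf
  · simp [S]
  · intro x y _ _ hx hy
    have h1 : S ι χ (x + y) = S ι χ x + S ι χ y := by
      rw [S, S, S, ← Finset.sum_add_distrib]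
      refine Finset.sum_congr rfl fun g _ => ?_
      rw [Pi.add_apply, Complex.ofReal_add]
      ring
    rw [h1, hx, hy, add_zero]
  · intro r x _ hx
    have h1 : S ι χ (r • x) = r * S ι χ x := by
      rw [S, S, Finset.mul_sum]
      refine Finset.sum_congr rfl fun g _ => ?_
      rw [Pi.smul_apply, smul_eq_mul, Complex.ofReal_mul]
      ring
    rw [h1, hx, mul_zero]

/-- a full set of functions has no vanishing transform -/
theorem S_of_full [IsGalois ℚ F] (hn : 0 < n)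
    {A : Set ((F →+* ℂ) → ℝ)} (hA : Full n F A) (hp : ∀ f ∈ A, IsPar n f)
    {χ : (F ≃ₐ[ℚ] F) →* ℂˣ} (hr : Right n ι χ) : ∃ f ∈ A, S ι χ f ≠ 0 := by
  by_contra hcon
  push Not at hcon
  choose s hs using fun σ : F →+* ℂ => exists_comp ι σ
  obtain ⟨c, hcc⟩ := exists_cc ι
  have hs' : ∀ g : F ≃ₐ[ℚ] F, s (ι.comp (g : F →+* F)) = g := fun g => comp_inj ι (hs _)
  have hval : ∀ σ, ((χ (s (ComplexEmbedding.conjugate σ)) : ℂˣ) : ℂ)⁻¹ =
      (-1) ^ (n - 1) * ((χ (s σ) : ℂˣ) : ℂ)⁻¹ := by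
    intro σ
    have h1 : s (ComplexEmbedding.conjugate σ) = c * s σ := by
      apply comp_inj ι
      rw [hs, ← conj_comp ι hcc, hs]
    rw [h1, map_mul, Units.val_mul, mul_inv, hr c hcc]
    congr 1
    rcases neg_one_pow_eq_or ℂ (n - 1) with h5 | h5 <;> rw [h5] <;> norm_num
  have hre : ((-1 : ℂ) ^ (n - 1)) = (((-1 : ℝ) ^ (n - 1) : ℝ) : ℂ) := by
    rw [Complex.ofReal_pow, Complex.ofReal_neg, Complex.ofReal_one]
  have h0 : S ι χ (fun σ => (((χ (s σ) : ℂˣ) : ℂ)⁻¹).re) = 0 := by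
    refine S_zero_of_span ι hcon (mem_span_of_full hn hA hp fun σ => ?_)
    rw [hval, hre, Complex.re_ofReal_mul]
  have h1 : S ι χ (fun σ => (((χ (s σ) : ℂˣ) : ℂ)⁻¹).im) = 0 := by
    refine S_zero_of_span ι hcon (mem_span_of_full hn hA hp fun σ => ?_)
    rw [hval, hre, Complex.im_ofReal_mul]
  have h2 : S ι χ (fun σ => (((χ (s σ) : ℂˣ) : ℂ)⁻¹).re) +
      Complex.I * S ι χ (fun σ => (((χ (s σ) : ℂˣ) : ℂ)⁻¹).im) =
      (Fintype.card (F ≃ₐ[ℚ] F) : ℂ) := by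
    rw [S, S, Finset.mul_sum, ← Finset.sum_add_distrib]
    have h3 : ∀ g : F ≃ₐ[ℚ] F, ((χ g : ℂˣ) : ℂ) *
        (((((χ (s (ι.comp (g : F →+* F))) : ℂˣ) : ℂ)⁻¹).re : ℝ) : ℂ) +
        Complex.I * (((χ g : ℂˣ) : ℂ) *
        (((((χ (s (ι.comp (g : F →+* F))) : ℂˣ) : ℂ)⁻¹).im : ℝ) : ℂ)) = 1 := by
      intro g
      rw [hs' g]
      have h4 := Complex.re_add_im (((χ g : ℂˣ) : ℂ)⁻¹)
      have h5 : ((χ g : ℂˣ) : ℂ) * (((χ g : ℂˣ) : ℂ)⁻¹) = 1 := mul_inv_cancel₀ (Units.ne_zero _)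
      calc _ = ((χ g : ℂˣ) : ℂ) * ((((((χ g : ℂˣ) : ℂ)⁻¹).re : ℝ) : ℂ) +
            (((((χ g : ℂˣ) : ℂ)⁻¹).im : ℝ) : ℂ) * Complex.I) := by ring
        _ = 1 := by rw [h4, h5]
    rw [Finset.sum_congr rfl fun g _ => h3 g, Finset.sum_const, Finset.card_univ, nsmul_eq_mul,
      mul_one]
  rw [h0, h1, mul_zero, add_zero] at h2
  exact absurd h2.symm (by exact_mod_cast Fintype.card_ne_zero)

end

end Pool.Agent.Q20.ZG
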