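import Mathlib

/-!
# Noncyclic groups whose order is a product of two primes (norm relation)
-/

set_option autoImplicit false
set_option linter.unusedSectionVars false

namespace Pool.Agent.Q20.ZG

open scoped Classical

section
variable {G : Type} [Group G] [Fintype G] {p q : ℕ}

theorem order_cases (hp : p.Prime) (hq : q.Prime) (hc : Nat.card G = p * q) (hn : ¬ IsCyclic G)
    {g : G} (hg : g ≠ 1) : orderOf g = p ∨ orderOf g = q := by
  have h1 : orderOf g ∣ p * q := by
    rw [← hc]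
    exact orderOf_dvd_natCard g
  obtain ⟨a, b, ha, hb, hab⟩ := Nat.dvd_mul.1 h1
  have hne1 : orderOf g ≠ 1 := fun h => hg (orderOf_eq_one_iff.1 h)
  have hne : orderOf g ≠ Nat.card G := fun h => hn (isCyclic_of_orderOf_eq_card g h)
  rcases (Nat.dvd_prime hp).1 ha with rfl | rfl
  · rcases (Nat.dvd_prime hq).1 hb with rfl | rfl
    · exact absurd (by rw [← hab]) hne1
    · right
      rw [← hab, one_mul]
  · rcases (Nat.dvd_prime hq).1 hb with rfl | rfl
    · left
      rw [← hab, mul_one]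
    · exact absurd (by rw [hc, ← hab]) hne

theorem card_cases (hp : p.Prime) (hq : q.Prime) (hc : Nat.card G = p * q) {B : Subgroup G}
    (hB : B ≠ ⊥) (hB' : B ≠ ⊤) : Nat.card B = p ∨ Nat.card B = q := by
  have h1 : Nat.card B ∣ p * q := by
    rw [← hc]
    exact Subgroup.card_subgroup_dvd_card B
  obtain ⟨a, b, ha, hb, hab⟩ := Nat.dvd_mul.1 h1
  have hne1 : Nat.card B ≠ 1 := fun h => hB ((Subgroup.card_eq_one).1 h)
  have hne : Nat.card B ≠ Nat.card G := fun h => hB' ((Subgroup.card_eq_iff_eq_top B).1 h)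
  rcases (Nat.dvd_prime hp).1 ha with rfl | rfl
  · rcases (Nat.dvd_prime hq).1 hb with rfl | rfl
    · exact absurd (by rw [← hab]) hne1
    · right
      rw [← hab, one_mul]
  · rcases (Nat.dvd_prime hq).1 hb with rfl | rfl
    · left
      rw [← hab, mul_one]
    · exact absurd (by rw [hc, ← hab]) hne

theorem zpowers_ne_bot {g : G} (hg : g ≠ 1) : Subgroup.zpowers g ≠ ⊥ := fun h => hg (by
  have h1 : g ∈ (⊥ : Subgroup G) := h ▸ Subgroup.mem_zpowers g
  exact Subgroup.mem_bot.1 h1)

theorem zpowers_ne_top (hn : ¬ IsCyclic G) (g : G) : Subgroup.zpowers g ≠ ⊤ := fun h =>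
  hn ⟨g, fun x => by
    have h1 : x ∈ (⊤ : Subgroup G) := Subgroup.mem_top x
    rw [← h] at h1
    exact h1⟩

/-- the proper subgroup containing an element -/
theorem unique_sub (hp : p.Prime) (hq : q.Prime) (hc : Nat.card G = p * q) {g : G} (hg : g ≠ 1)
    {B : Subgroup G} (hgB : g ∈ B) (hB' : B ≠ ⊤) : B = Subgroup.zpowers g := by
  have hB : B ≠ ⊥ := fun h => hg (by rw [h] at hgB; exact Subgroup.mem_bot.1 hgB)
  have hle : Subgroup.zpowers g ≤ B := (Subgroup.zpowers_le).2 hgB
  have hpr : (Nat.card B).Prime := by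
    rcases card_cases hp hq hc hB hB' with h | h
    · rwa [h]
    · rwa [h]
  have h1 : Nat.card (Subgroup.zpowers g) ∣ Nat.card B := Subgroup.card_dvd_of_le hle
  rcases (Nat.dvd_prime hpr).1 h1 with h | h
  · exact absurd ((Subgroup.card_eq_one).1 h) (zpowers_ne_bot hg)
  · exact (Subgroup.eq_of_le_of_card_ge hle h.ge).symm

variable [Fintype (Subgroup G)]

/-- the proper nontrivial subgroups -/
noncomputable def mid (G : Type) [Group G] [Fintype (Subgroup G)] : Finset (Subgroup G) :=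
  Finset.univ.filter fun B => B ≠ ⊥ ∧ B ≠ ⊤

theorem count_mid (hp : p.Prime) (hq : q.Prime) (hc : Nat.card G = p * q) (hn : ¬ IsCyclic G)
    {g : G} (hg : g ≠ 1) : ((mid G).filter fun B => g ∈ B) = {Subgroup.zpowers g} := by
  ext B
  rw [Finset.mem_filter, mid, Finset.mem_filter, Finset.mem_singleton]
  constructor
  · rintro ⟨⟨-, -, h2⟩, h3⟩
    exact unique_sub hp hq hc hg h3 h2
  · rintro rfl
    exact ⟨⟨Finset.mem_univ _, zpowers_ne_bot hg, zpowers_ne_top hn g⟩, Subgroup.mem_zpowers g⟩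

theorem two_le_mid (hp : p.Prime) (hq : q.Prime) (hc : Nat.card G = p * q) (hn : ¬ IsCyclic G) :
    2 ≤ (mid G).card := by
  have h1 : 1 < Nat.card G := by
    rw [hc]
    exact Nat.one_lt_mul_iff.2 ⟨hp.pos, hq.pos, Or.inl hp.one_lt⟩
  have hnt : Nontrivial G := (Finite.one_lt_card_iff_nontrivial).1 h1
  obtain ⟨g, hg⟩ := exists_ne (1 : G)
  obtain ⟨h, hh⟩ : ∃ h : G, h ∉ Subgroup.zpowers g := by
    by_contra hcon
    have hcon := not_exists_not.1 hcon
    exact zpowers_ne_top hn g ((Subgroup.eq_top_iff' _).2 hcon)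
  have hh1 : h ≠ 1 := fun h' => hh (by rw [h']; exact Subgroup.one_mem _)
  have hne : Subgroup.zpowers g ≠ Subgroup.zpowers h := fun h' => hh (by
    rw [h']
    exact Subgroup.mem_zpowers h)
  have h2 : ({Subgroup.zpowers g, Subgroup.zpowers h} : Finset (Subgroup G)) ⊆ mid G := by
    intro B hB
    rw [Finset.mem_insert, Finset.mem_singleton] at hB
    rw [mid, Finset.mem_filter]
    rcases hB with rfl | rfl
    · exact ⟨Finset.mem_univ _, zpowers_ne_bot hg, zpowers_ne_top hn g⟩
    · exact ⟨Finset.mem_univ _, zpowers_ne_bot hh1, zpowers_ne_top hn h⟩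
  have h3 := Finset.card_le_card h2
  rwa [Finset.card_pair hne] at h3

/-- the function of the identity as a combination of the functions of nontrivial subgroups -/
def Spans (𝓗 : Subgroup G → Prop) : Prop :=
  ∃ c : Subgroup G → ℚ, (∀ B, c B ≠ 0 → 𝓗 B) ∧
    ∀ g : G, ∑ B, (if g ∈ B then c B else 0) = if g = 1 then 1 else 0

theorem spans_pq (hp : p.Prime) (hq : q.Prime) (hc : Nat.card G = p * q) (hn : ¬ IsCyclic G) :
    Spans (G := G) fun B => B ≠ ⊥ := by
  have hm := two_le_mid hp hq hc hn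
  set m := (mid G).card with hmd
  have hm0 : ((m : ℚ) - 1) ≠ 0 := by
    have : (2 : ℚ) ≤ m := by exact_mod_cast hm
    linarith
  have hnt : (⊥ : Subgroup G) ≠ ⊤ := fun h => by
    have h1 : 0 < (mid G).card := by omega
    obtain ⟨B, hB⟩ := Finset.card_pos.1 h1
    rw [mid, Finset.mem_filter] at hB
    exact hB.2.1 (le_antisymm (h ▸ le_top) bot_le)
  refine ⟨fun B => (if B ∈ mid G then ((m : ℚ) - 1)⁻¹ else 0) -
    (if B = ⊤ then ((m : ℚ) - 1)⁻¹ else 0), fun B hB h => ?_, fun g => ?_⟩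
  · subst h
    apply hB
    change (if (⊥ : Subgroup G) ∈ mid G then ((m : ℚ) - 1)⁻¹ else 0) -
      (if (⊥ : Subgroup G) = ⊤ then ((m : ℚ) - 1)⁻¹ else 0) = 0
    rw [if_neg hnt, if_neg, sub_zero]
    rw [mid, Finset.mem_filter]
    exact fun h => h.2.1 rfl
  · have h1 : ∀ B : Subgroup G, (if g ∈ B then ((if B ∈ mid G then ((m : ℚ) - 1)⁻¹ else 0) -
        (if B = ⊤ then ((m : ℚ) - 1)⁻¹ else 0)) else 0) =
        (if B ∈ (mid G).filter (fun B => g ∈ B) then ((m : ℚ) - 1)⁻¹ else 0) -
        (if B = ⊤ then ((m : ℚ) - 1)⁻¹ else 0) := by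
      intro B
      by_cases hgB : g ∈ B
      · rw [if_pos hgB]
        congr 1
        by_cases hB : B ∈ mid G
        · rw [if_pos hB, if_pos (Finset.mem_filter.2 ⟨hB, hgB⟩)]
        · rw [if_neg hB, if_neg fun h => hB (Finset.mem_filter.1 h).1]
      · have hBf : B ∉ (mid G).filter (fun B => g ∈ B) := fun h => hgB (Finset.mem_filter.1 h).2
        have hBt : B ≠ ⊤ := by
          rintro rfl
          exact hgB (Subgroup.mem_top g)
        rw [if_neg hgB, if_neg hBf, if_neg hBt, sub_zero]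
    rw [Finset.sum_congr rfl fun B _ => h1 B, Finset.sum_sub_distrib, Finset.sum_ite_mem,
      Finset.univ_inter, Finset.sum_const, Finset.sum_ite_eq' Finset.univ ⊤, if_pos (Finset.mem_univ _)]
    by_cases hg : g = 1
    · subst hg
      have h2 : (mid G).filter (fun B => (1 : G) ∈ B) = mid G :=
        Finset.filter_true_of_mem fun B _ => Subgroup.one_mem B
      rw [h2, if_pos rfl, ← hmd, nsmul_eq_mul]
      field_simp
    · rw [count_mid hp hq hc hn hg, Finset.card_singleton, if_neg hg, one_smul, sub_self]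


end

end Pool.Agent.Q20.ZG
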