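import Pool.Agent.Q20.ZG.Abel

/-!
# Abelian number fields: characters with the same kernel
-/

set_option autoImplicit false
set_option linter.unusedSectionVars false

namespace Pool.Agent.Q20.ZG

open NumberField H39Gon

section
variable {n : ℕ} {F : Type} [Field F] [NumberField F] (ι : F →+* ℂ)

/-- `S(χ, ·)` as a `ℚ`-linear map -/
noncomputable def SL (χ : (F ≃ₐ[ℚ] F) →* ℂˣ) : ((F →+* ℂ) → ℝ) →ₗ[ℚ] ℂ where
  toFun := S ι χ
  map_add' := fun x y => by
    rw [S, S, S, ← Finset.sum_add_distrib]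
    refine Finset.sum_congr rfl fun g _ => ?_
    rw [Pi.add_apply, Complex.ofReal_add]
    ring
  map_smul' := fun r x => by
    rw [RingHom.id_apply, Rat.smul_def, S, S, Finset.mul_sum]
    refine Finset.sum_congr rfl fun g _ => ?_
    rw [Pi.smul_apply, Rat.smul_def, Complex.ofReal_mul, Complex.ofReal_ratCast]
    ring

/-- the translate of a function -/
def tr (g : F ≃ₐ[ℚ] F) : ((F →+* ℂ) → ℝ) →ₗ[ℚ] ((F →+* ℂ) → ℝ) where
  toFun := fun f σ => f (σ.comp (g : F →+* F))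
  map_add' := fun _ _ => rfl
  map_smul' := fun _ _ => rfl

theorem tr_tr (g h : F ≃ₐ[ℚ] F) (f : (F →+* ℂ) → ℝ) : tr g (tr h f) = tr (g * h) f := rfl

theorem S_tr (hc : ∀ a b : F ≃ₐ[ℚ] F, a * b = b * a) (χ : (F ≃ₐ[ℚ] F) →* ℂˣ)
    (f : (F →+* ℂ) → ℝ) (k : F ≃ₐ[ℚ] F) :
    S ι χ (tr k f) = (((χ k : ℂˣ) : ℂ))⁻¹ * S ι χ f := by
  rw [← S_translate]
  refine Finset.sum_congr rfl fun g _ => ?_
  rw [hc k g]
  rfl

variable {b : Idx n F → (F →+* ℂ) → ℝ}

theorem full_b (hb : IsRegulator n F b) :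
    Full n F (Submodule.span ℚ (Set.range b) : Set ((F →+* ℂ) → ℝ)) := by
  intro l hl
  refine Matrix.eq_zero_of_mulVec_eq_zero hb.det_ne (funext fun i => ?_)
  have h1 := hl (b i) (Submodule.subset_span ⟨i, rfl⟩)
  rw [Pi.zero_apply, ← h1]
  change ∑ j, b i j.1.embedding * l j = _
  exact Finset.sum_congr rfl fun j _ => mul_comm _ _

theorem par_b (hb : IsRegulator n F b) {f : (F →+* ℂ) → ℝ}
    (hf : f ∈ Submodule.span ℚ (Set.range b)) : IsPar n f := by
  refine Submodule.span_induction (p := fun f _ => IsPar n f) ?_ ?_ ?_ ?_ hf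
  · rintro _ ⟨i, rfl⟩
    exact hb.parity i
  · intro σ
    simp
  · intro x y _ _ hx hy σ
    rw [Pi.add_apply, Pi.add_apply, hx σ, hy σ, mul_add]
  · intro c x _ hx σ
    rw [Pi.smul_apply, Pi.smul_apply, hx σ, Rat.smul_def, Rat.smul_def]
    ring

theorem stable_b (hb : IsRegulator n F b) (g : F ≃ₐ[ℚ] F) {f : (F →+* ℂ) → ℝ}
    (hf : f ∈ Submodule.span ℚ (Set.range b)) : tr g f ∈ Submodule.span ℚ (Set.range b) := by
  have h1 : Submodule.span ℚ (Set.range b) ≤ (Submodule.span ℚ (Set.range b)).comap (tr g) := by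
    rw [Submodule.span_le]
    rintro _ ⟨i, rfl⟩
    exact hb.stable g.toRingEquiv i
  exact h1 hf

/-- an element all of whose transforms are nonzero -/
theorem exists_gen [IsGalois ℚ F] (hn : 0 < n) (hb : IsRegulator n F b) :
    ∃ f ∈ Submodule.span ℚ (Set.range b), ∀ χ, Right n ι χ → S ι χ f ≠ 0 := by
  have := finite_chr (F ≃ₐ[ℚ] F)
  let X := {χ : (F ≃ₐ[ℚ] F) →* ℂˣ // Right n ι χ}
  let Λ := Submodule.span ℚ (Set.range b)
  let U : X → Submodule ℚ Λ := fun χ => LinearMap.ker ((SL ι χ.1).comp Λ.subtype)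
  by_contra hcon
  push Not at hcon
  have h1 : ⋃ i, (U i : Set Λ) = Set.univ := by
    refine Set.eq_univ_of_forall fun f => ?_
    obtain ⟨χ, hr, h0⟩ := hcon f.1 f.2
    exact Set.mem_iUnion.2 ⟨⟨χ, hr⟩, h0⟩
  obtain ⟨χ, hχ⟩ := Subspace.exists_eq_top_of_iUnion_eq_univ h1
  obtain ⟨f, hf, hne⟩ := S_of_full ι hn (full_b hb) (fun f hf => par_b hb hf) χ.2
  have h2 : (⟨f, hf⟩ : Λ) ∈ U χ := by
    rw [hχ]
    exact Submodule.mem_top
  exact hne h2

/-- its translates generate -/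
theorem mem_translates [IsGalois ℚ F] (hc : ∀ a b : F ≃ₐ[ℚ] F, a * b = b * a) (hn : 0 < n)
    (hb : IsRegulator n F b) {f₀ : (F →+* ℂ) → ℝ} (hf₀ : f₀ ∈ Submodule.span ℚ (Set.range b))
    (h0 : ∀ χ, Right n ι χ → S ι χ f₀ ≠ 0) {f : (F →+* ℂ) → ℝ}
    (hf : f ∈ Submodule.span ℚ (Set.range b)) :
    f ∈ Submodule.span ℚ (Set.range fun g : F ≃ₐ[ℚ] F => tr g f₀) := by
  classical
  let M := Submodule.span ℚ (Set.range fun g : F ≃ₐ[ℚ] F => tr g f₀)
  let T : (Idx n F → ℚ) →ₗ[ℚ] ((F →+* ℂ) → ℝ) := Fintype.linearCombination ℚ b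
  have hT : M.comap T = ⊤ := by
    by_contra hne
    obtain ⟨φ, hφ0, hφ⟩ := Submodule.exists_le_ker_of_lt_top _ (lt_top_iff_ne_top.2 hne)
    let l : Idx n F → ℚ := fun i => φ (Pi.single i 1)
    have hφl : ∀ x : Idx n F → ℚ, φ x = ∑ i, x i * l i := by
      intro x
      rw [LinearMap.pi_apply_eq_sum_univ φ x]
      refine Finset.sum_congr rfl fun i _ => ?_
      rw [smul_eq_mul]
      congr 2
      funext j
      rw [Pi.single_apply]
      simp only [eq_comm]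
    let Bm : Matrix (Idx n F) (Idx n F) ℝ := Matrix.of fun i j => b i j.1.embedding
    have hu : IsUnit Bm.det := isUnit_iff_ne_zero.2 hb.det_ne
    let lam : Idx n F → ℝ := Bm⁻¹.mulVec fun i => (l i : ℝ)
    have hlam : ∀ i, ∑ w, b i w.1.embedding * lam w = (l i : ℝ) := by
      intro i
      have h1 : Bm.mulVec lam = fun i => (l i : ℝ) := by
        change Bm.mulVec (Bm⁻¹.mulVec _) = _
        rw [Matrix.mulVec_mulVec, Matrix.mul_nonsing_inv _ hu, Matrix.one_mulVec]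
      exact congrFun h1 i
    have hfull := full_of_S ι hc hn (Set.range fun g : F ≃ₐ[ℚ] F => tr g f₀) ?_ ?_ lam ?_
    · refine hφ0 (LinearMap.ext fun x => ?_)
      rw [hφl, LinearMap.zero_apply]
      refine Finset.sum_eq_zero fun i _ => ?_
      have h1 := hlam i
      rw [hfull] at h1
      simp only [Pi.zero_apply, mul_zero, Finset.sum_const_zero] at h1
      have h2 : l i = 0 := by exact_mod_cast h1.symm
      rw [h2, mul_zero]
    · rintro _ ⟨h, rfl⟩ g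
      exact ⟨g * h, rfl⟩
    · intro χ hr
      refine ⟨tr 1 f₀, ⟨1, rfl⟩, ?_⟩
      rw [S_tr ι hc, map_one, Units.val_one, inv_one, one_mul]
      exact h0 χ hr
    · rintro _ ⟨g, rfl⟩
      obtain ⟨x, hx⟩ := (Submodule.mem_span_range_iff_exists_fun ℚ).1 (stable_b hb g hf₀)
      have h1 : x ∈ M.comap T := by
        rw [Submodule.mem_comap, Fintype.linearCombination_apply, hx]
        exact Submodule.subset_span ⟨g, rfl⟩
      have h2 : φ x = 0 := hφ h1
      rw [hφl] at h2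
      have h3 : ∑ i, (x i : ℝ) * (l i : ℝ) = 0 := by exact_mod_cast h2
      rw [← h3]
      change ∑ w, lam w * (tr g f₀) w.1.embedding = _
      rw [← hx]
      simp only [Finset.sum_apply, Pi.smul_apply, Finset.mul_sum]
      rw [Finset.sum_comm]
      refine Finset.sum_congr rfl fun i _ => ?_
      rw [← hlam i, Finset.mul_sum]
      refine Finset.sum_congr rfl fun w _ => ?_
      rw [Rat.smul_def]
      ring
  obtain ⟨x, hx⟩ := (Submodule.mem_span_range_iff_exists_fun ℚ).1 hf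
  have h1 : x ∈ M.comap T := by
    rw [hT]
    exact Submodule.mem_top
  rw [Submodule.mem_comap, Fintype.linearCombination_apply, hx] at h1
  exact h1

/-- **characters with the same kernel vanish at the same elements** -/
theorem transfer [IsGalois ℚ F] (hc : ∀ a b : F ≃ₐ[ℚ] F, a * b = b * a) (hn : 0 < n)
    (hb : IsRegulator n F b) {χ χ' : (F ≃ₐ[ℚ] F) →* ℂˣ} (hk : χ.ker = χ'.ker)
    (hr : Right n ι χ) {f : (F →+* ℂ) → ℝ} (hf : f ∈ Submodule.span ℚ (Set.range b))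
    (h : S ι χ f = 0) : S ι χ' f = 0 := by
  obtain ⟨f₀, hf₀, h0⟩ := exists_gen ι hn hb
  obtain ⟨x, hx⟩ := (Submodule.mem_span_range_iff_exists_fun ℚ).1
    (mem_translates ι hc hn hb hf₀ h0 hf)
  have h1 : ∀ ψ : (F ≃ₐ[ℚ] F) →* ℂˣ, S ι ψ f =
      (∑ g, (x g : ℂ) * (((ψ g : ℂˣ) : ℂ))⁻¹) * S ι ψ f₀ := by
    intro ψ
    rw [← hx]
    change SL ι ψ (∑ g, x g • tr g f₀) = _
    rw [map_sum, Finset.sum_mul]
    refine Finset.sum_congr rfl fun g _ => ?_
    rw [map_smul, Rat.smul_def]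
    change (x g : ℂ) * S ι ψ (tr g f₀) = _
    rw [S_tr ι hc]
    ring
  rw [h1] at h ⊢
  rw [rel_trans_inv hk x ((mul_eq_zero.1 h).resolve_right (h0 χ hr)), zero_mul]

/-- **the abelian case**: one character with each kernel is enough -/
theorem abelian_iff [IsGalois ℚ F] (hc : ∀ a b : F ≃ₐ[ℚ] F, a * b = b * a) (hn : 3 ≤ n)
    (hb : IsRegulator n F b) : ZagierAt n F ↔ ∀ χ, Right n ι χ → ∃ χ' : (F ≃ₐ[ℚ] F) →* ℂˣ,
      χ'.ker = χ.ker ∧ ∃ α ∈ kerDelta n F, S ι χ' (fun σ => value n σ α) ≠ 0 := by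
  rw [zagier_iff (by omega) hb]
  have hn0 : 0 < n := by omega
  constructor
  · intro h χ hr
    obtain ⟨f, ⟨α, hα, rfl⟩, hne⟩ := S_of_full ι hn0 h (fun f hf => by
      obtain ⟨α, -, rfl⟩ := hf
      exact fun σ => value_conj hn0 σ α) hr
    exact ⟨χ, rfl, α, hα, hne⟩
  · intro h
    refine full_of_S ι hc hn0 _ ?_ fun χ hr => ?_
    · rintro _ ⟨α, hα, rfl⟩ g
      refine ⟨rmM (g : F →+* F) α, kerDelta_rmM hn _ hα, ?_⟩
      funext σ
      rw [value_rmM]
    · obtain ⟨χ', hk, α, hα, hne⟩ := h χ hr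
      refine ⟨_, ⟨α, hα, rfl⟩, fun h0 => hne ?_⟩
      exact transfer ι hc hn0 hb hk.symm hr (hb.mem α hα) h0

end

end Pool.Agent.Q20.ZG
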