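import Pool.Agent.Q20.ZG.Gal
import Pool.Agent.Q20.ZG.Trans
import Pool.Agent.Q20.ZG.Pq

/-!
# Ascent from subfields
-/

set_option autoImplicit false
set_option linter.unusedSectionVars false

namespace Pool.Agent.Q20.ZG

open NumberField H39Gon

/-- the functions of the right parity which come from one of the subfields `E ∈ 𝓔` -/
def Pulled (n : ℕ) (F : Type) [Field F] [NumberField F] (𝓔 : Set (IntermediateField ℚ F)) :
    Set ((F →+* ℂ) → ℝ) :=
  {f | ∃ E ∈ 𝓔, ∃ f' : (E →+* ℂ) → ℝ, IsPar n f' ∧ f = fun σ => f' (σ.comp (algebraMap E F))}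

section
variable {n : ℕ} {F : Type} [Field F] [NumberField F]

theorem sum_zero_of_span {A : Set ((F →+* ℂ) → ℝ)} {l : Idx n F → ℝ}
    (hl : ∀ f ∈ A, ∑ w, l w * f w.1.embedding = 0) {f : (F →+* ℂ) → ℝ}
    (hf : f ∈ Submodule.span ℝ A) : ∑ w, l w * f w.1.embedding = 0 := by
  refine Submodule.span_induction (p := fun f _ => ∑ w, l w * f w.1.embedding = 0) hl ?_ ?_ ?_ hf
  · simp
  · intro x y _ _ hx hy
    simp only [Pi.add_apply, mul_add, Finset.sum_add_distrib, hx, hy, add_zero]
  · intro c x _ hx
    have h1 : ∀ w : Idx n F, l w * (c • x) w.1.embedding = c * (l w * x w.1.embedding) := by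
      intro w
      rw [Pi.smul_apply, smul_eq_mul]
      ring
    simp only [h1, ← Finset.mul_sum, hx, mul_zero]

theorem full_mono {A A' : Set ((F →+* ℂ) → ℝ)} (hA : Full n F A)
    (h : ∀ f ∈ A, f ∈ Submodule.span ℝ A') : Full n F A' :=
  fun l hl => hA l fun f hf => sum_zero_of_span hl (h f hf)

theorem full_of_spot {A : Set ((F →+* ℂ) → ℝ)}
    (h : ∀ w : Idx n F, spot n w.1.embedding ∈ Submodule.span ℝ A) : Full n F A := by
  classical
  intro l hl
  funext w
  have h1 := sum_zero_of_span hl (h w)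
  rw [Finset.sum_eq_single w] at h1
  · refine (mul_eq_zero.1 h1).resolve_right (spot_ne rfl)
  · intro v _ hv
    rw [spot_zero, mul_zero]
    intro h2
    rw [InfinitePlace.mk_embedding, InfinitePlace.mk_embedding] at h2
    exact hv (Subtype.ext h2.symm)
  · intro h2
    exact absurd (Finset.mem_univ w) h2

/-- **ascent** -/
theorem ascent (hn : 3 ≤ n) {𝓔 : Set (IntermediateField ℚ F)}
    (hE : ∀ E ∈ 𝓔, Nonzero n E) (hF : Full n F (Pulled n F 𝓔)) : Nonzero n F := by
  have hn0 : 0 < n := by omega
  refine nonzero_iff.2 (full_mono hF ?_)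
  rintro f ⟨E, hE', f', hf', rfl⟩
  have h1 : f' ∈ Submodule.span ℝ (Vals n E) := by
    refine mem_span_of_full hn0 (nonzero_iff.1 (hE E hE')) (fun f hf => ?_) hf'
    obtain ⟨α, -, rfl⟩ := hf
    exact fun σ => value_conj hn0 σ α
  let L : ((E →+* ℂ) → ℝ) →ₗ[ℝ] ((F →+* ℂ) → ℝ) :=
    { toFun := fun f σ => f (σ.comp (algebraMap E F))
      map_add' := fun _ _ => rfl
      map_smul' := fun _ _ => rfl }
  have h2 : Submodule.span ℝ (Vals n E) ≤ (Submodule.span ℝ (Vals n F)).comap L := by
    rw [Submodule.span_le]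
    rintro _ ⟨α, hα, rfl⟩
    refine Submodule.subset_span ⟨rmM (algebraMap E F) α, kerDelta_rmM hn _ hα, ?_⟩
    funext σ
    rw [value_rmM]
    rfl
  exact h2 h1

theorem galois_fixed (C : Subgroup (F ≃ₐ[ℚ] F)) :
    IsGalois (IntermediateField.fixedField C) F := by
  refine IsGalois.of_card_aut_eq_finrank _ _ ?_
  rw [IntermediateField.finrank_fixedField_eq_card,
    Nat.card_congr (IntermediateField.subgroupEquivAlgEquiv C).toEquiv]

/-- a function which is fixed by an automorphism comes from a proper subfield -/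
theorem pulled_of_fixed {f : (F →+* ℂ) → ℝ} (hf : IsPar n f) {g₀ : F ≃ₐ[ℚ] F} (hg₀ : g₀ ≠ 1)
    (h : tr g₀ f = f) : f ∈ Pulled n F {E | E ≠ ⊤} := by
  let C : Subgroup (F ≃ₐ[ℚ] F) :=
    { carrier := {g | tr g f = f}
      mul_mem' := fun {a b} ha hb => by
        change tr (a * b) f = f
        rw [← tr_tr, hb, ha]
      one_mem' := rfl
      inv_mem' := fun {a} ha => by
        change tr a⁻¹ f = f
        have h1 : tr a⁻¹ (tr a f) = f := by
          rw [tr_tr, inv_mul_cancel]
          rfl
        rwa [ha] at h1 }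
  let E := IntermediateField.fixedField C
  have hgal : IsGalois E F := galois_fixed C
  have hfix := IntermediateField.fixingSubgroup_fixedField C
  have hE : E ≠ ⊤ := by
    intro h1
    have h2 : C = ⊥ := by
      rw [← hfix]
      change IntermediateField.fixingSubgroup E = ⊥
      rw [h1, IntermediateField.fixingSubgroup_top]
    have h3 : g₀ ∈ C := h
    rw [h2] at h3
    exact hg₀ (Subgroup.mem_bot.1 h3)
  have key : ∀ σ σ' : F →+* ℂ, σ.comp (algebraMap E F) = σ'.comp (algebraMap E F) →
      f σ = f σ' := by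
    intro σ σ' he
    obtain ⟨g, rfl⟩ := NumberField.ComplexEmbedding.exists_comp_symm_eq_of_comp_eq (k := E) σ σ' he
    have h1 : (g.symm.restrictScalars ℚ : F ≃ₐ[ℚ] F) ∈ C := by
      rw [← hfix]
      rintro ⟨x, hx⟩
      exact g.symm.commutes ⟨x, hx⟩
    exact (congrFun h1 σ).symm
  refine ⟨E, hE, fun τ => f (ComplexEmbedding.lift F τ), fun τ => ?_, ?_⟩
  · rw [← hf]
    refine key _ _ ?_
    rw [ComplexEmbedding.lift_comp_algebraMap]
    have h1 : (ComplexEmbedding.conjugate (ComplexEmbedding.lift F τ)).comp (algebraMap E F) =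
        ComplexEmbedding.conjugate ((ComplexEmbedding.lift F τ).comp (algebraMap E F)) := rfl
    rw [h1, ComplexEmbedding.lift_comp_algebraMap]
  · funext σ
    refine key _ _ ?_
    rw [ComplexEmbedding.lift_comp_algebraMap]

theorem par_tr {f : (F →+* ℂ) → ℝ} (hf : IsPar n f) (g : F ≃ₐ[ℚ] F) : IsPar n (tr g f) :=
  fun σ => hf (σ.comp (g : F →+* F))

/-- a noncyclic group of automorphisms of order `p q` -/
theorem full_of_pq (hn : 0 < n) {A : Subgroup (F ≃ₐ[ℚ] F)} {p q : ℕ} (hp : p.Prime)
    (hq : q.Prime) (hc : Nat.card A = p * q) (hcyc : ¬ IsCyclic A) :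
    Full n F (Pulled n F {E | E ≠ ⊤}) := by
  classical
  have := Fintype.ofFinite A
  have := Fintype.ofFinite (Subgroup A)
  obtain ⟨c, hc0, hc1⟩ := spans_pq hp hq hc hcyc
  refine full_of_spot fun w => ?_
  set f := spot n w.1.embedding with hfd
  have hf : IsPar n f := spot_par hn (by rw [InfinitePlace.mk_embedding]; exact w.2)
  let N : Subgroup A → (F →+* ℂ) → ℝ := fun B => ∑ g : A, if g ∈ B then tr (g : F ≃ₐ[ℚ] F) f else 0
  have h1 : f = ∑ B : Subgroup A, ((c B : ℚ) : ℝ) • N B := by
    have h2 : ∀ B : Subgroup A, ((c B : ℚ) : ℝ) • N B =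
        ∑ g : A, ((if g ∈ B then c B else 0 : ℚ) : ℝ) • tr (g : F ≃ₐ[ℚ] F) f := by
      intro B
      rw [Finset.smul_sum]
      refine Finset.sum_congr rfl fun g _ => ?_
      by_cases hg : g ∈ B
      · rw [if_pos hg, if_pos hg]
      · rw [if_neg hg, if_neg hg, Rat.cast_zero, zero_smul, smul_zero]
    rw [Finset.sum_congr rfl fun B _ => h2 B, Finset.sum_comm]
    have h3 : ∀ g : A, ∑ B : Subgroup A, ((if g ∈ B then c B else 0 : ℚ) : ℝ) •
        tr (g : F ≃ₐ[ℚ] F) f = ((if g = 1 then 1 else 0 : ℚ) : ℝ) • tr (g : F ≃ₐ[ℚ] F) f := by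
      intro g
      have h4 : (∑ B : Subgroup A, (if g ∈ B then c B else 0)) = if g = 1 then 1 else 0 := by
        convert hc1 g
      rw [← Finset.sum_smul, ← Rat.cast_sum, h4]
    rw [Finset.sum_congr rfl fun g _ => h3 g, Finset.sum_eq_single 1]
    · rw [if_pos rfl, Rat.cast_one, one_smul]
      rfl
    · intro g _ hg
      rw [if_neg hg, Rat.cast_zero, zero_smul]
    · intro h
      exact absurd (Finset.mem_univ _) h
  rw [h1]
  refine Submodule.sum_mem _ fun B _ => ?_
  by_cases hB : c B = 0
  · rw [hB, Rat.cast_zero, zero_smul]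
    exact Submodule.zero_mem _
  · refine Submodule.smul_mem _ _ (Submodule.subset_span ?_)
    obtain ⟨h, hh⟩ := Subgroup.ne_bot_iff_exists_ne_one.1 (hc0 B hB)
    refine pulled_of_fixed (g₀ := ((h : A) : F ≃ₐ[ℚ] F)) ?_
      (fun h0 => hh (Subtype.ext (Subtype.ext h0))) ?_
    · intro σ
      change (∑ g : A, if g ∈ B then tr (g : F ≃ₐ[ℚ] F) f else 0) _ =
        _ * (∑ g : A, if g ∈ B then tr (g : F ≃ₐ[ℚ] F) f else 0) _
      rw [Finset.sum_apply, Finset.sum_apply, Finset.mul_sum]
      refine Finset.sum_congr rfl fun g _ => ?_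
      by_cases hg : g ∈ B
      · rw [if_pos hg]
        exact par_tr hf _ σ
      · rw [if_neg hg]
        simp
    · change tr _ (∑ g : A, if g ∈ B then tr (g : F ≃ₐ[ℚ] F) f else 0) =
        ∑ g : A, if g ∈ B then tr (g : F ≃ₐ[ℚ] F) f else 0
      rw [map_sum]
      refine Finset.sum_equiv (Equiv.mulLeft (h : A)) (fun _ => by simp) fun g _ => ?_
      rw [Equiv.coe_mulLeft]
      by_cases hg : g ∈ B
      · rw [if_pos hg, if_pos (B.mul_mem h.2 hg)]
        rfl
      · rw [if_neg hg, if_neg fun h1 => hg ((B.mul_mem_cancel_left h.2).1 h1), map_zero]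

/-- every infinite place is fixed by a nontrivial automorphism, `n` odd -/
theorem full_of_fixed (hn : n % 2 = 1)
    (h : ∀ w : InfinitePlace F, ∃ g : F ≃ₐ[ℚ] F, g ≠ 1 ∧ w.comap (g : F →+* F) = w) :
    Full n F (Pulled n F {E | E ≠ ⊤}) := by
  have hn0 : 0 < n := by omega
  refine full_of_spot fun w => Submodule.subset_span ?_
  obtain ⟨g, hg, hw⟩ := h w.1
  have heven : Even (n - 1) := ⟨(n - 1) / 2, by omega⟩
  have hval : ∀ σ : F →+* ℂ, InfinitePlace.mk w.1.embedding = InfinitePlace.mk σ →
      spot n w.1.embedding σ = 1 := by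
    intro σ h1
    unfold spot
    rcases InfinitePlace.mk_eq_iff.1 h1 with h2 | h2
    · rw [if_pos h2.symm]
    · by_cases h3 : σ = w.1.embedding
      · rw [if_pos h3]
      · rw [if_neg h3, if_pos h2.symm, heven.neg_one_pow]
  refine pulled_of_fixed (spot_par hn0 (Or.inl hn)) hg ?_
  funext σ
  change spot n w.1.embedding (σ.comp (g : F →+* F)) = spot n w.1.embedding σ
  by_cases h1 : InfinitePlace.mk w.1.embedding = InfinitePlace.mk σ
  · rw [hval σ h1, hval]
    rw [← InfinitePlace.comap_mk, ← h1, InfinitePlace.mk_embedding]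
    exact hw.symm
  · rw [spot_zero h1, spot_zero]
    intro h2
    apply h1
    rw [← InfinitePlace.comap_mk, InfinitePlace.mk_embedding, ← hw] at h2
    rw [InfinitePlace.mk_embedding]
    exact comap_aut_inj g h2

/-- `𝓛_n(1) > 0` for odd `n ≥ 3` -/
theorem polylog_one (hn : n % 2 = 1) (hn3 : 3 ≤ n) : polylog n (some 1) ≠ 0 := by
  have h1 : polylog n (some 1) = inner n 1 := by
    simp [polylog]
  have h2 : inner n 1 = (Li n 1).re := by
    unfold inner part
    rw [if_pos hn, norm_one, Real.log_one, Finset.sum_eq_single 0]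
    · rw [pow_zero, mul_one, Nat.sub_zero]
      have h3 : beta 0 = 1 := by simp [beta]
      rw [h3, Rat.cast_one, one_mul]
    · intro k _ hk
      rw [Complex.ofReal_zero, zero_pow hk, mul_zero, zero_mul]
    · intro h3
      exact absurd (Finset.mem_range.2 (by omega)) h3
  have h3 : Li n 1 = ((∑' j : ℕ, 1 / ((j : ℝ) + 1) ^ n : ℝ) : ℂ) := by
    unfold Li
    rw [Complex.ofReal_tsum]
    refine tsum_congr fun j => ?_
    push_cast
    rw [one_pow]
  rw [h1, h2, h3, Complex.ofReal_re]
  have hs : Summable fun j : ℕ => 1 / ((j : ℝ) + 1) ^ n := by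
    have h4 := (summable_nat_add_iff 1).2 (Real.summable_one_div_nat_pow (p := n) |>.2 (by omega))
    refine h4.congr fun j => ?_
    push_cast
    rfl
  refine ne_of_gt (hs.tsum_pos (fun j => by positivity) 0 (by positivity))

/-- the base case: one infinite place -/
theorem nonzero_one_place
    (hn : n % 2 = 1) (hn3 : 3 ≤ n) (h : Subsingleton (InfinitePlace F)) : Nonzero n F := by
  classical
  refine nonzero_iff.2 fun l hl => ?_
  have h1 : Finsupp.single (some (1 : F)) (1 : ℤ) ∈ kerDelta n F := by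
    rw [mem_kerDelta hn3, kerD, LinearMap.mem_ker, rm_deltaS_some]
    have h2 : cl (1 : F) = 0 := by
      rw [cl, dif_neg one_ne_zero]
      change Additive.ofMul (Units.mk0 (1 : F) _) = Additive.ofMul 1
      congr 1
      ext
      rfl
    rw [h2, TensorProduct.tmul_zero, smul_zero]
  funext w
  have h2 := hl _ ⟨_, h1, rfl⟩
  rw [Finset.sum_eq_single w] at h2
  · rw [value_single, Int.cast_one, one_mul, Option.map_some, map_one] at h2
    exact (mul_eq_zero.1 h2).resolve_right (polylog_one hn hn3)
  · intro v _ hv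
    exact absurd (Subtype.ext (Subsingleton.elim v.1 w.1)) hv
  · intro h3
    exact absurd (Finset.mem_univ w) h3

/-- the base case: totally real fields, `n` even -/
theorem nonzero_real
    (hn : ¬ n % 2 = 1) (h : ∀ w : InfinitePlace F, ¬ w.IsComplex) : Nonzero n F := by
  refine nonzero_iff.2 fun l _ => ?_
  funext w
  rcases w.2 with h1 | h1
  · exact absurd h1 hn
  · exact absurd h1 (h w.1)

end

/-- the fields which remain -/
def Core (n : ℕ) (F : Type) [Field F] [NumberField F] : Prop :=
  (∀ (A : Subgroup (F ≃ₐ[ℚ] F)) (p q : ℕ), p.Prime → q.Prime → Nat.card A = p * q →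
    IsCyclic A) ∧
  (n % 2 = 1 → Nontrivial (InfinitePlace F) ∧
    ∃ w : InfinitePlace F, ∀ g : F ≃ₐ[ℚ] F, w.comap (g : F →+* F) = w → g = 1) ∧
  (n % 2 = 0 → ∃ w : InfinitePlace F, w.IsComplex) ∧
  ¬ Full n F (Pulled n F {E | E ≠ ⊤})

/-- **the minimal fields** -/
theorem core_suffices {n : ℕ} (hn : 3 ≤ n)
    (hcore : ∀ (F : Type) [Field F] [NumberField F], Core n F → Nonzero n F)
    (F : Type) [Field F] [NumberField F] : Nonzero n F := by
  have key : ∀ d : ℕ, ∀ (F : Type) [Field F] [NumberField F], Module.finrank ℚ F = d →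
      Nonzero n F := by
    intro d
    induction d using Nat.strong_induction_on with
    | _ d ih =>
      intro F _ _ hd
      by_cases hfull : Full n F (Pulled n F {E | E ≠ ⊤})
      · refine ascent hn (fun E hE => ?_) hfull
        refine ih (Module.finrank ℚ E) ?_ E rfl
        rw [← hd]
        refine lt_of_le_of_ne (Submodule.finrank_le E.toSubmodule) fun h => hE ?_
        exact IntermediateField.finrank_eq_one_iff_eq_top.1 (by
          have h1 := Module.finrank_mul_finrank ℚ E F
          have h2 : 0 < Module.finrank ℚ F := Module.finrank_pos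
          have h3 : Module.finrank ℚ E = Module.finrank ℚ F := h
          rw [h3] at h1
          exact Nat.eq_of_mul_eq_mul_left h2 (by rw [h1, mul_one]))
      · by_cases hcond : Core n F
        · exact hcore F hcond
        · by_cases hodd : n % 2 = 1
          · by_cases hnt : Nontrivial (InfinitePlace F)
            · exfalso
              apply hcond
              refine ⟨fun A p q hp hq hc => ?_, fun _ => ⟨hnt, ?_⟩, fun h => by omega, hfull⟩
              · by_contra hcyc
                exact hfull (full_of_pq (by omega) hp hq hc hcyc)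
              · by_contra hcon
                push Not at hcon
                refine hfull (full_of_fixed hodd fun w => ?_)
                obtain ⟨g, hg, hg1⟩ := hcon w
                exact ⟨g, hg1, hg⟩
            · exact nonzero_one_place hodd hn (not_nontrivial_iff_subsingleton.1 hnt)
          · by_cases hcx : ∃ w : InfinitePlace F, w.IsComplex
            · exfalso
              apply hcond
              refine ⟨fun A p q hp hq hc => ?_, fun h => absurd h hodd, fun _ => hcx, hfull⟩
              by_contra hcyc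
              exact hfull (full_of_pq (by omega) hp hq hc hcyc)
            · push Not at hcx
              exact nonzero_real hodd hcx
  exact key _ F rfl

end Pool.Agent.Q20.ZG
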