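import Mathlib

/-!
# `ζ_F(n) ≠ 0`
-/

set_option autoImplicit false
set_option linter.unusedSectionVars false

namespace Pool.Agent.Q20.ZG

open NumberField Filter Topology Ideal

theorem zeta_tendsto (K : Type) [Field K] [NumberField K] :
    ∃ c : ℝ, Tendsto (fun n : ℕ => (∑ k ∈ Finset.Icc 1 n,
      (Nat.card {I : Ideal (𝓞 K) // absNorm I = k} : ℝ)) / n) atTop (𝓝 c) := by
  have h := (Ideal.tendsto_norm_le_div_atTop₀ K).comp (tendsto_natCast_atTop_atTop (R := ℝ))
  refine ⟨_, h.congr fun n ↦ ?_⟩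
  simp only [Function.comp_apply, Nat.cast_le, ← Nat.cast_sum]
  congr
  rw [← add_left_inj 1, ← card_norm_le_eq_card_norm_le_add_one,
    show Finset.Icc 1 n = Finset.Ioc 0 n from Finset.Icc_succ_left_eq_Ioc _ _,
    show 1 = Nat.card {I : Ideal (𝓞 K) // absNorm I = 0} by simp [Ideal.absNorm_eq_zero_iff],
    Finset.sum_Ioc_add_eq_sum_Icc (n.zero_le),
    ← Finset.card_preimage_eq_sum_card_image_eq (fun k _ ↦ finite_setOfPred_absNorm_eq k)]
  simp [Set.coe_eq_subtype]

theorem zeta_summable (K : Type) [Field K] [NumberField K] {n : ℕ} (hn : 2 ≤ n) :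
    LSeriesSummable (fun k => ((Nat.card {I : Ideal (𝓞 K) // absNorm I = k} : ℝ) : ℂ)) (n : ℂ) := by
  obtain ⟨c, hc⟩ := zeta_tendsto K
  refine LSeriesSummable_of_sum_norm_bigO_and_nonneg (r := 1)
    (f := fun k => (Nat.card {I : Ideal (𝓞 K) // absNorm I = k} : ℝ)) ?_
    (fun k => Nat.cast_nonneg _) zero_le_one ?_
  · simp only [Real.rpow_one]
    refine Asymptotics.isBigO_of_div_tendsto_nhds ?_ c hc
    filter_upwards [eventually_gt_atTop 0] with m hm h
    exact absurd h (by exact_mod_cast hm.ne')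
  · rw [Complex.natCast_re]
    exact_mod_cast (by omega : 1 < n)

theorem zeta_ne (K : Type) [Field K] [NumberField K] {n : ℕ} (hn : 2 ≤ n) :
    dedekindZeta K n ≠ 0 := by
  have hs := zeta_summable K hn
  have h1 : ∀ k : ℕ, LSeries.term
      (fun k => ((Nat.card {I : Ideal (𝓞 K) // absNorm I = k} : ℝ) : ℂ)) (n : ℂ) k =
      ((if k = 0 then 0 else (Nat.card {I : Ideal (𝓞 K) // absNorm I = k} : ℝ) / (k : ℝ) ^ n : ℝ) : ℂ) := by
    intro k
    by_cases hk : k = 0
    · subst hk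
      rw [LSeries.term_zero, if_pos rfl, Complex.ofReal_zero]
    · rw [LSeries.term_of_ne_zero hk, if_neg hk, Complex.cpow_natCast]
      push_cast
      rfl
  have h2 : dedekindZeta K n = ((∑' k : ℕ, (if k = 0 then 0 else
      (Nat.card {I : Ideal (𝓞 K) // absNorm I = k} : ℝ) / (k : ℝ) ^ n : ℝ) : ℝ) : ℂ) := by
    rw [Complex.ofReal_tsum, ← tsum_congr h1]
    rfl
  have hsum : Summable fun k : ℕ => (if k = 0 then 0 else
      (Nat.card {I : Ideal (𝓞 K) // absNorm I = k} : ℝ) / (k : ℝ) ^ n : ℝ) := by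
    have h3 : Summable fun k : ℕ => LSeries.term
      (fun k => ((Nat.card {I : Ideal (𝓞 K) // absNorm I = k} : ℝ) : ℂ)) (n : ℂ) k := hs
    simp only [h1] at h3
    exact Complex.summable_ofReal.1 h3
  rw [h2]
  intro h0
  rw [Complex.ofReal_eq_zero] at h0
  refine absurd h0 (ne_of_gt (hsum.tsum_pos (fun k => ?_) 1 ?_))
  · split_ifs
    · exact le_rfl
    · positivity
  · rw [if_neg one_ne_zero]
    have h3 : Nat.card {I : Ideal (𝓞 K) // absNorm I = 1} = 1 := by
      rw [Nat.card_eq_one_iff_unique]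
      refine ⟨⟨fun a b => Subtype.ext ?_⟩, ⟨⟨⊤, ?_⟩⟩⟩
      · rw [Ideal.absNorm_eq_one_iff.1 a.2, Ideal.absNorm_eq_one_iff.1 b.2]
      · exact Ideal.absNorm_eq_one_iff.2 rfl
    rw [h3]
    positivity

end Pool.Agent.Q20.ZG
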