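import Pool.Agent.Q20.ZG.Par
import Pool.Agent.Q20.ZG.Zne

/-!
# Zagier's conjecture as the absence of linear relations
-/

set_option autoImplicit false
set_option linter.unusedSectionVars false

namespace Pool.Agent.Q20.ZG

open NumberField H39Gon

/-- no linear relation holds at all functions of the set `A` -/
def Full (n : ℕ) (F : Type) [Field F] [NumberField F] (A : Set ((F →+* ℂ) → ℝ)) : Prop :=
  ∀ l : Idx n F → ℝ, (∀ f ∈ A, ∑ w, l w * f w.1.embedding = 0) → l = 0

/-- the value functions of `ker δ_n` -/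
def Vals (n : ℕ) (F : Type) [Field F] : Set ((F →+* ℂ) → ℝ) :=
  {f | ∃ α ∈ kerDelta n F, f = fun σ => value n σ α}

section
variable {n : ℕ} {F : Type} [Field F] [NumberField F]

theorem span_top {V : Type} {I : Type} [Fintype I] (v : V → I → ℝ)
    (h : ∀ l : I → ℝ, (∀ x, ∑ w, l w * v x w = 0) → l = 0) :
    Submodule.span ℝ (Set.range v) = ⊤ := by
  classical
  by_contra hn
  obtain ⟨f, hf0, hf⟩ := Submodule.exists_le_ker_of_lt_top _ (lt_top_iff_ne_top.2 hn)
  refine hf0 (LinearMap.pi_ext' fun w => LinearMap.ext_ring ?_)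
  have h1 : ∀ u : I → ℝ, f u = ∑ w, f (Pi.single w 1) * u w := by
    intro u
    rw [LinearMap.pi_apply_eq_sum_univ f u]
    refine Finset.sum_congr rfl fun i _ => ?_
    rw [smul_eq_mul, mul_comm]
    congr 2
    funext j
    rw [Pi.single_apply]
    simp only [eq_comm]
  have h2 := h (fun w => f (Pi.single w 1)) fun x => by
    have h3 : f (v x) = 0 := hf (Submodule.subset_span ⟨x, rfl⟩)
    rw [← h1, h3]
  have h3 := congrFun h2 w
  simpa using h3

theorem full_of_zagier (hn : 2 ≤ n) (hZ : ZagierAt n F) : Full n F (Vals n F) := by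
  intro l hl
  obtain ⟨y, hy, q, hq, hz⟩ := hZ
  have hd : detV n F (fun i σ => value n σ (y i)) ≠ 0 := by
    intro h0
    rw [h0, mul_zero, Complex.ofReal_zero] at hz
    exact zeta_ne F hn hz
  refine Matrix.eq_zero_of_mulVec_eq_zero hd (funext fun i => ?_)
  have h1 := hl _ ⟨y i, hy i, rfl⟩
  rw [Pi.zero_apply, ← h1]
  change ∑ j, value n j.1.embedding (y i) * l j = _
  exact Finset.sum_congr rfl fun j _ => mul_comm _ _

/-- elements with a nonzero determinant give the zeta value -/
theorem zetaEq_of_det_ne {b : Idx n F → (F →+* ℂ) → ℝ} (hb : IsRegulator n F b)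
    {y : Idx n F → ZP F} (hy : ∀ i, y i ∈ kerDelta n F)
    (hdet : (Matrix.of fun i j : Idx n F => value n j.1.embedding (y i)).det ≠ 0) :
    ZetaEq n F fun i σ => value n σ (y i) := by
  classical
  have hmem : ∀ i, ∃ c : Idx n F → ℚ, ∑ k, c k • b k = fun σ => value n σ (y i) := fun i =>
    (Submodule.mem_span_range_iff_exists_fun ℚ).1 (hb.mem (y i) (hy i))
  choose C hC using hmem
  let CM : Matrix (Idx n F) (Idx n F) ℚ := Matrix.of C
  have hmul : (Matrix.of fun i j : Idx n F => value n j.1.embedding (y i)) =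
      (CM.map (algebraMap ℚ ℝ)) * (Matrix.of fun i j : Idx n F => b i j.1.embedding) := by
    ext i j
    rw [Matrix.mul_apply, Matrix.of_apply]
    have h1 := congrFun (hC i) j.1.embedding
    change _ = value n j.1.embedding (y i) at h1
    rw [← h1, Finset.sum_apply]
    refine Finset.sum_congr rfl fun k _ => ?_
    rw [Pi.smul_apply, Matrix.map_apply, Matrix.of_apply, Rat.smul_def]
    rfl
  have hdet1 : (Matrix.of fun i j : Idx n F => value n j.1.embedding (y i)).det =
      ((CM.det : ℚ) : ℝ) * (Matrix.of fun i j : Idx n F => b i j.1.embedding).det := by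
    rw [hmul, Matrix.det_mul]
    congr 1
    exact ((algebraMap ℚ ℝ).map_det CM).symm
  have hdet2 : detV n F (fun i σ => value n σ (y i)) = ((CM.det : ℚ) : ℝ) * detV n F b := hdet1
  have hC0 : CM.det ≠ 0 := by
    intro h0
    rw [h0, Rat.cast_zero, zero_mul] at hdet2
    exact hdet hdet2
  obtain ⟨q, hq, hz⟩ := hb.zeta
  refine ⟨q * (CM.det)⁻¹, mul_ne_zero hq (inv_ne_zero hC0), ?_⟩
  rw [hz, hdet2, Complex.ofReal_inj]
  have h1 : ((CM.det : ℚ) : ℝ) ≠ 0 := by exact_mod_cast hC0
  rw [Rat.cast_mul, Rat.cast_inv]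
  field_simp

theorem nonzero_iff : Nonzero n F ↔ Full n F (Vals n F) := by
  classical
  constructor
  · rintro ⟨y, hy, hd⟩ l hl
    refine Matrix.eq_zero_of_mulVec_eq_zero hd (funext fun i => ?_)
    have h1 := hl _ ⟨y i, hy i, rfl⟩
    rw [Pi.zero_apply, ← h1]
    change ∑ j, value n j.1.embedding (y i) * l j = _
    exact Finset.sum_congr rfl fun j _ => mul_comm _ _
  · intro h
    let v : kerDelta n F → Idx n F → ℝ := fun α w => value n w.1.embedding (α : ZP F)
    have hv : Submodule.span ℝ (Set.range v) = ⊤ := by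
      refine span_top v fun l hl => h l ?_
      rintro f ⟨α, hα, rfl⟩
      exact hl ⟨α, hα⟩
    obtain ⟨κ, a, ha, hs, hi⟩ := exists_linearIndependent' ℝ v
    rw [hv] at hs
    let B : Module.Basis κ ℝ (Idx n F → ℝ) := Module.Basis.mk hi (by rw [hs])
    have e : Idx n F ≃ κ := (Pi.basisFun ℝ (Idx n F)).indexEquiv B
    have hli : LinearIndependent ℝ (Matrix.of fun i j : Idx n F =>
        value n j.1.embedding (a (e i) : ZP F)).row := hi.comp _ e.injective
    refine ⟨fun i => (a (e i) : ZP F), fun i => (a (e i)).2, ?_⟩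
    have h1 := Matrix.linearIndependent_rows_iff_isUnit.1 hli
    exact ((Matrix.isUnit_iff_isUnit_det _).1 h1).ne_zero

theorem nonzero_of_zagier (hn : 2 ≤ n) (hZ : ZagierAt n F) : Nonzero n F :=
  nonzero_iff.2 (full_of_zagier hn hZ)

theorem zagier_of_nonzero {b : Idx n F → (F →+* ℂ) → ℝ} (hb : IsRegulator n F b)
    (h : Nonzero n F) : ZagierAt n F := by
  obtain ⟨y, hy, hd⟩ := h
  exact ⟨y, hy, zetaEq_of_det_ne hb hy hd⟩

theorem zagier_of_full {b : Idx n F → (F →+* ℂ) → ℝ} (hb : IsRegulator n F b)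
    (h : Full n F (Vals n F)) : ZagierAt n F := zagier_of_nonzero hb (nonzero_iff.2 h)

theorem zagier_iff (hn : 2 ≤ n) {b : Idx n F → (F →+* ℂ) → ℝ} (hb : IsRegulator n F b) :
    ZagierAt n F ↔ Full n F (Vals n F) := ⟨full_of_zagier hn, zagier_of_full hb⟩

theorem par_ext (hn : 0 < n) {f f' : (F →+* ℂ) → ℝ} (hf : IsPar n f) (hf' : IsPar n f')
    (h : ∀ w : Idx n F, f w.1.embedding = f' w.1.embedding) : f = f' := by
  funext σ
  by_cases hw : n % 2 = 1 ∨ (InfinitePlace.mk σ).IsComplex
  · have h1 := h ⟨InfinitePlace.mk σ, hw⟩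
    rcases InfinitePlace.mk_embedding (InfinitePlace.mk σ) |> InfinitePlace.mk_eq_iff.1 with h2 | h2
    · rw [← h2]
      exact h1
    · rw [← h2, hf, hf']
      exact congrArg _ h1
  · push Not at hw
    have h1 : Even n := by
      rcases Nat.mod_two_eq_zero_or_one n with h | h
      · exact Nat.even_iff.2 h
      · exact absurd h hw.1
    have h2 : Odd (n - 1) := by
      obtain ⟨k, hk⟩ := h1
      exact ⟨k - 1, by omega⟩
    have h3 : ComplexEmbedding.conjugate σ = σ := by
      have h4 := InfinitePlace.not_isComplex_iff_isReal.1 hw.2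
      exact InfinitePlace.isReal_mk_iff.1 h4
    have h4 : ∀ g : (F →+* ℂ) → ℝ, IsPar n g → g σ = 0 := by
      intro g hg
      have h5 := hg σ
      rw [h3, h2.neg_one_pow] at h5
      linarith
    rw [h4 f hf, h4 f' hf']

/-- a full set of functions spans the functions of the right parity -/
theorem mem_span_of_full (hn : 0 < n) {A : Set ((F →+* ℂ) → ℝ)} (hA : Full n F A)
    (hp : ∀ f ∈ A, IsPar n f) {f : (F →+* ℂ) → ℝ} (hf : IsPar n f) :
    f ∈ Submodule.span ℝ A := by
  let v : A → Idx n F → ℝ := fun g w => (g : (F →+* ℂ) → ℝ) w.1.embedding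
  have hv : Submodule.span ℝ (Set.range v) = ⊤ := by
    refine span_top v fun l hl => hA l ?_
    intro f hf
    exact hl ⟨f, hf⟩
  let L : ((F →+* ℂ) → ℝ) →ₗ[ℝ] (Idx n F → ℝ) :=
    LinearMap.pi fun w => LinearMap.proj w.1.embedding
  have h1 : Set.range v = L '' A := by
    ext x
    constructor
    · rintro ⟨g, rfl⟩
      exact ⟨g, g.2, rfl⟩
    · rintro ⟨g, hg, rfl⟩
      exact ⟨⟨g, hg⟩, rfl⟩
  rw [h1, ← Submodule.map_span] at hv
  obtain ⟨f', hf', he⟩ := (show L f ∈ Submodule.map L (Submodule.span ℝ A) by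
    rw [hv]; exact Submodule.mem_top)
  have h2 : IsPar n f' := by
    refine Submodule.span_induction (fun g hg => hp g hg) ?_ ?_ ?_ hf'
    · intro σ
      simp
    · intro x y _ _ hx hy σ
      rw [Pi.add_apply, Pi.add_apply, hx σ, hy σ, mul_add]
    · intro c x _ hx σ
      rw [Pi.smul_apply, Pi.smul_apply, hx σ, smul_eq_mul, smul_eq_mul]
      ring
  rw [par_ext hn hf h2 fun w => (congrFun he w).symm]
  exact hf'

end

end Pool.Agent.Q20.ZG
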