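import Pool.Agent.Q20.ZG.Trans

/-!
# Abelian number fields: reduction to cyclic fields
-/

set_option autoImplicit false
set_option linter.unusedSectionVars false

namespace Pool.Agent.Q20.ZG

open NumberField H39Gon

/-- the infinite places are real for odd `n` and complex for even `n` -/
def Signature (n : ℕ) (E : Type) [Field E] : Prop :=
  ∀ w : InfinitePlace E, w.IsReal ↔ n % 2 = 1

theorem sum_fiber {G H : Type} [Group G] [Group H] [Fintype G] [Fintype H] (r : G →* H)
    (hr : Function.Surjective r) (φ : H → ℂ) :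
    ∃ k : ℕ, k ≠ 0 ∧ ∑ g, φ (r g) = (k : ℂ) * ∑ h, φ h := by
  classical
  refine ⟨(Finset.univ.filter fun g => r g = 1).card, ?_, ?_⟩
  · rw [Finset.card_ne_zero]
    exact ⟨1, by simp⟩
  · rw [← Finset.sum_fiberwise_of_maps_to (s := Finset.univ) (t := Finset.univ) (g := r)
      (fun g _ => Finset.mem_univ _), Finset.mul_sum]
    refine Finset.sum_congr rfl fun h _ => ?_
    have h1 : ∀ g ∈ Finset.univ.filter (fun g => r g = h), φ (r g) = φ h := by
      intro g hg
      rw [(Finset.mem_filter.1 hg).2]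
    rw [Finset.sum_congr rfl h1, Finset.sum_const, nsmul_eq_mul]
    congr 2
    exact MonoidHom.card_fiber_eq_of_mem_range r (hr h) ⟨1, map_one r⟩

theorem exists_inj_chr {G : Type} [Group G] [Finite G] (hG : IsCyclic G) :
    ∃ χ : G →* ℂˣ, Function.Injective χ := by
  have : NeZero (Nat.card G) := ⟨Nat.card_pos.ne'⟩
  have h1 : Nat.card G = Nat.card (rootsOfUnity (Nat.card G) ℂ) :=
    (Complex.card_rootsOfUnity (Nat.card G)).symm
  let e := mulEquivOfCyclicCardEq h1
  exact ⟨(rootsOfUnity (Nat.card G) ℂ).subtype.comp e.toMonoidHom,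
    (Subgroup.subtype_injective _).comp e.injective⟩

section
variable {n : ℕ} {F : Type} [Field F] [NumberField F] (ι : F →+* ℂ)

theorem real_iff [IsGalois ℚ F] {c : F ≃ₐ[ℚ] F}
    (hc : ComplexEmbedding.conjugate ι = ι.comp (c : F →+* F)) (w : InfinitePlace F) :
    w.IsReal ↔ c = 1 := by
  obtain ⟨g, hg⟩ := exists_comp ι w.embedding
  rw [← InfinitePlace.mk_embedding w, InfinitePlace.isReal_mk_iff]
  change ComplexEmbedding.conjugate _ = _ ↔ _
  rw [← hg, conj_comp ι hc]
  constructor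
  · intro h
    exact mul_eq_right.1 (comp_inj ι h)
  · rintro rfl
    rw [one_mul]

theorem neg_one_iff (hn : 0 < n) : ((-1 : ℂ) ^ (n - 1) = 1) ↔ n % 2 = 1 := by
  constructor
  · intro h
    by_contra h1
    have h2 : Odd (n - 1) := ⟨(n - 2) / 2, by omega⟩
    rw [h2.neg_one_pow] at h
    norm_num at h
  · intro h
    have h2 : Even (n - 1) := ⟨(n - 1) / 2, by omega⟩
    exact h2.neg_one_pow

/-- the injective characters of a field of the right signature -/
theorem right_of_inj [IsGalois ℚ F] (hn : 0 < n) (hs : Signature n F)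
    {χ : (F ≃ₐ[ℚ] F) →* ℂˣ} (hχ : Function.Injective χ) : Right n ι χ := by
  intro c hc
  have h1 := real_iff ι hc (InfinitePlace.mk ι)
  rw [hs (InfinitePlace.mk ι)] at h1
  by_cases h : n % 2 = 1
  · rw [h1.1 h, map_one, Units.val_one, (neg_one_iff hn).2 h]
  · rcases chr_cc ι hc χ with h2 | h2
    · have h3 : c = 1 := hχ (by rw [map_one]; exact Units.ext h2)
      exact absurd (h1.2 h3) h
    · rcases neg_one_pow_eq_or ℂ (n - 1) with h3 | h3
      · exact absurd ((neg_one_iff hn).1 h3) h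
      · rw [h2, h3]

/-- the signature of the field of a character of the right parity -/
theorem signature_of_right [IsGalois ℚ F] (hn : 0 < n)
    {χ : (F ≃ₐ[ℚ] F) →* ℂˣ} (hχ : Function.Injective χ) (hr : Right n ι χ) : Signature n F := by
  intro w
  obtain ⟨c, hc⟩ := exists_cc ι
  rw [real_iff ι hc w, ← neg_one_iff hn, ← hr c hc]
  constructor
  · rintro rfl
    rw [map_one, Units.val_one]
  · intro h
    exact hχ (by rw [map_one]; exact Units.ext h)

/-- change of the embedding -/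
theorem S_change [IsGalois ℚ F] (ι' : F →+* ℂ) {χ : (F ≃ₐ[ℚ] F) →* ℂˣ}
    {f : (F →+* ℂ) → ℝ} (h : S ι' χ f ≠ 0) : S ι χ f ≠ 0 := by
  obtain ⟨k, rfl⟩ := exists_comp ι ι'
  intro h0
  refine h ?_
  have h1 := S_translate ι χ f k
  rw [h0, mul_zero] at h1
  exact h1

/-- elements of a subfield -/
theorem S_up (E : IntermediateField ℚ F) [IsGalois ℚ E] [IsGalois ℚ F]
    (χ : (E ≃ₐ[ℚ] E) →* ℂˣ) (α : ZP E)
    (h : S (ι.comp (algebraMap E F)) χ (fun σ => value n σ α) ≠ 0) :
    S ι (χ.comp (AlgEquiv.restrictNormalHom E)) (fun σ => value n σ (rmM (algebraMap E F) α)) ≠ 0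
    := by
  obtain ⟨k, hk, he⟩ := sum_fiber (AlgEquiv.restrictNormalHom (F := ℚ) (K₁ := F) E)
    (AlgEquiv.restrictNormalHom_surjective F)
    (fun g : E ≃ₐ[ℚ] E => ((χ g : ℂˣ) : ℂ) *
      ((value n ((ι.comp (algebraMap E F)).comp (g : E →+* E)) α : ℝ) : ℂ))
  have h1 : S ι (χ.comp (AlgEquiv.restrictNormalHom E))
      (fun σ => value n σ (rmM (algebraMap E F) α)) =
      (k : ℂ) * S (ι.comp (algebraMap E F)) χ (fun σ => value n σ α) := by
    rw [S, S, ← he]
    refine Finset.sum_congr rfl fun g _ => ?_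
    rw [value_rmM]
    have h2 : (ι.comp (g : F →+* F)).comp (algebraMap E F) =
        (ι.comp (algebraMap E F)).comp
          ((AlgEquiv.restrictNormalHom E g : E ≃ₐ[ℚ] E) : E →+* E) := by
      ext x
      exact congrArg ι (AlgEquiv.restrictNormal_commutes g E x).symm
    rw [h2]
    rfl
  rw [h1]
  exact mul_ne_zero (by exact_mod_cast hk) h

end

/-- the criterion for one cyclic field -/
def OneElement (n : ℕ) (E : Type) [Field E] [NumberField E] : Prop :=
  ∃ α ∈ kerDelta n E, ∃ (ι : E →+* ℂ) (χ : (E ≃ₐ[ℚ] E) →* ℂˣ), Function.Injective χ ∧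
    ∑ g : E ≃ₐ[ℚ] E, ((χ g : ℂˣ) : ℂ) * ((value n (ι.comp (g : E →+* E)) α : ℝ) : ℂ) ≠ 0

/-- the converse: a cyclic field for which Zagier's conjecture holds -/
theorem oneElement_of_zagier {n : ℕ} (hn : 3 ≤ n) {E : Type} [Field E] [NumberField E]
    [IsGalois ℚ E] (hcyc : IsCyclic (E ≃ₐ[ℚ] E)) (hs : Signature n E) (h : ZagierAt n E) :
    OneElement n E := by
  have hn0 : 0 < n := by omega
  obtain ⟨χ, hχ⟩ := exists_inj_chr hcyc
  let ι : E →+* ℂ := Classical.choice inferInstance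
  obtain ⟨f, ⟨α, hα, rfl⟩, hne⟩ := S_of_full ι hn0 (full_of_zagier (by omega) h) (fun f hf => by
    obtain ⟨α, -, rfl⟩ := hf
    exact fun σ => value_conj hn0 σ α) (right_of_inj ι hn0 hs hχ)
  exact ⟨α, hα, ι, χ, hχ, hne⟩

/-- the abelian field `F` from its cyclic subfields -/
theorem zagier_of_cyclic {n : ℕ} (hn : 3 ≤ n) {F : Type} [Field F] [NumberField F]
    [IsGalois ℚ F] (hc : ∀ a b : F ≃ₐ[ℚ] F, a * b = b * a)
    {b : Idx n F → (F →+* ℂ) → ℝ} (hb : IsRegulator n F b)
    (h : ∀ (E : IntermediateField ℚ F), IsGalois ℚ E → IsCyclic (E ≃ₐ[ℚ] E) → Signature n E →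
      OneElement n E) : ZagierAt n F := by
  have hn0 : 0 < n := by omega
  let ι : F →+* ℂ := Classical.choice inferInstance
  rw [abelian_iff ι hc hn hb]
  intro χ hr
  let H : Subgroup (F ≃ₐ[ℚ] F) := χ.ker
  have hH : H.Normal := inferInstance
  let E : IntermediateField ℚ F := IntermediateField.fixedField H
  have hG : IsGalois ℚ E := IsGalois.of_fixedField_normal_subgroup H
  let e := IsGalois.normalAutEquivQuotient H
  let q : ((F ≃ₐ[ℚ] F) ⧸ H) →* ℂˣ := QuotientGroup.kerLift χ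
  let χ₁ : (E ≃ₐ[ℚ] E) →* ℂˣ := q.comp e.symm.toMonoidHom
  have hχ₁ : Function.Injective χ₁ :=
    (QuotientGroup.kerLift_injective χ).comp e.symm.injective
  have hup : χ₁.comp (AlgEquiv.restrictNormalHom E) = χ := by
    ext g
    have h1 : e.symm (AlgEquiv.restrictNormalHom E g) = QuotientGroup.mk g :=
      e.symm_apply_apply (QuotientGroup.mk g)
    change ((q (e.symm (AlgEquiv.restrictNormalHom E g)) : ℂˣ) : ℂ) = _
    exact congrArg (fun z => ((q z : ℂˣ) : ℂ)) h1
  have hcyc : IsCyclic (E ≃ₐ[ℚ] E) :=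
    isCyclic_of_injective_ringHom ((Units.coeHom ℂ).comp χ₁)
      (Units.val_injective.comp hχ₁)
  have hr₁ : Right n (ι.comp (algebraMap E F)) χ₁ := by
    obtain ⟨c, hcc⟩ := exists_cc ι
    intro c₁ hc₁
    have h1 : AlgEquiv.restrictNormalHom E c = c₁ := by
      apply comp_inj (ι.comp (algebraMap E F))
      rw [← hc₁]
      have h2 : ComplexEmbedding.conjugate (ι.comp (algebraMap E F)) =
          (ComplexEmbedding.conjugate ι).comp (algebraMap E F) := rfl
      rw [h2, hcc]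
      ext x
      exact congrArg ι (AlgEquiv.restrictNormal_commutes c E x)
    rw [← h1, ← hr c hcc, ← hup]
    rfl
  obtain ⟨α, hα, ι', χ', hχ', hne⟩ := h E hG hcyc (signature_of_right _ hn0 hχ₁ hr₁)
  refine ⟨χ'.comp (AlgEquiv.restrictNormalHom E), ?_, rmM (algebraMap E F) α,
    kerDelta_rmM hn _ hα, S_up ι E χ' α (S_change _ ι' hne)⟩
  ext g
  rw [MonoidHom.mem_ker, MonoidHom.mem_ker, ← hup, MonoidHom.comp_apply, MonoidHom.comp_apply,
    map_eq_one_iff χ' hχ', map_eq_one_iff χ₁ hχ₁]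

end Pool.Agent.Q20.ZG
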