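import Pool.Agent.Q20.ZG.Rel2
import Pool.Agent.Q20.ZG.Cyc

/-!
# Abelian extensions of number fields: reduction to cyclic extensions
-/

set_option autoImplicit false
set_option linter.unusedSectionVars false

namespace Pool.Agent.Q20.ZG

open NumberField H39Gon

/-- the criterion for one cyclic extension `E/k` -/
def CyclicCrit (n : ℕ) (k E : Type) [Field k] [NumberField k] [Field E] [NumberField E]
    [Algebra k E] : Prop :=
  ∀ ι : InfinitePlace k → (E →+* ℂ),
    (∀ v, (InfinitePlace.mk (ι v)).comap (algebraMap k E) = v) →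
    ∃ χ : (E ≃ₐ[k] E) →* ℂˣ, Function.Injective χ ∧ Crit n ι χ

section
variable {n : ℕ} {k F : Type} [Field k] [NumberField k] [Field F] [NumberField F] [Algebra k F]

theorem cyclicCrit_of_nonzero (hn : 0 < n) (hcyc : IsCyclic (F ≃ₐ[k] F))
    (h : Nonzero n F) : CyclicCrit n k F := by
  intro ι hι
  obtain ⟨χ, hχ⟩ := exists_inj_chr hcyc
  exact ⟨χ, hχ, crit_of_nonzero hn hι h χ⟩

theorem res_comp (E : IntermediateField k F) [IsGalois k E] [IsGalois k F] (ι : F →+* ℂ)
    (g : F ≃ₐ[k] F) : (ι.comp (g : F →+* F)).comp (algebraMap E F) =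
      (ι.comp (algebraMap E F)).comp
        ((AlgEquiv.restrictNormalHom E g : E ≃ₐ[k] E) : E →+* E) := by
  ext x
  exact congrArg ι (AlgEquiv.restrictNormal_commutes g E x).symm

theorem Sr_up (E : IntermediateField k F) [IsGalois k E] [IsGalois k F]
    (χ : (E ≃ₐ[k] E) →* ℂˣ) : ∃ m : ℕ, m ≠ 0 ∧ ∀ (ι : F →+* ℂ) (α : ZP E),
      Sr ι (χ.comp (AlgEquiv.restrictNormalHom E))
        (fun σ => value n σ (rmM (algebraMap E F) α)) =
      (m : ℂ) * Sr (ι.comp (algebraMap E F)) χ (fun σ => value n σ α) := by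
  classical
  refine ⟨(Finset.univ.filter fun g => AlgEquiv.restrictNormalHom (F := k) (K₁ := F) E g = 1).card,
    ?_, fun ι α => ?_⟩
  · rw [Finset.card_ne_zero]
    exact ⟨1, by simp⟩
  · have h1 : ∀ g : F ≃ₐ[k] F,
        (((χ.comp (AlgEquiv.restrictNormalHom E)) g : ℂˣ) : ℂ) *
          ((value n (ι.comp (g : F →+* F)) (rmM (algebraMap E F) α) : ℝ) : ℂ) =
        (fun h : E ≃ₐ[k] E => ((χ h : ℂˣ) : ℂ) *
          ((value n ((ι.comp (algebraMap E F)).comp (h : E →+* E)) α : ℝ) : ℂ))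
          (AlgEquiv.restrictNormalHom E g) := by
      intro g
      rw [value_rmM, res_comp]
      rfl
    rw [Sr, Sr, Finset.sum_congr rfl fun g _ => h1 g,
      ← Finset.sum_fiberwise_of_maps_to (s := Finset.univ) (t := Finset.univ)
        (g := AlgEquiv.restrictNormalHom (F := k) (K₁ := F) E)
        (fun g _ => Finset.mem_univ _), Finset.mul_sum]
    refine Finset.sum_congr rfl fun h _ => ?_
    have h2 : ∀ g ∈ Finset.univ.filter
        (fun g => AlgEquiv.restrictNormalHom (F := k) (K₁ := F) E g = h),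
        (fun h : E ≃ₐ[k] E => ((χ h : ℂˣ) : ℂ) *
          ((value n ((ι.comp (algebraMap E F)).comp (h : E →+* E)) α : ℝ) : ℂ))
          (AlgEquiv.restrictNormalHom E g) =
        (fun h : E ≃ₐ[k] E => ((χ h : ℂˣ) : ℂ) *
          ((value n ((ι.comp (algebraMap E F)).comp (h : E →+* E)) α : ℝ) : ℂ)) h := by
      intro g hg
      rw [(Finset.mem_filter.1 hg).2]
    rw [Finset.sum_congr rfl h2, Finset.sum_const, nsmul_eq_mul]
    congr 2
    exact MonoidHom.card_fiber_eq_of_mem_range _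
      (AlgEquiv.restrictNormalHom_surjective (F := k) (E := F) (K₁ := E) h) ⟨1, map_one _⟩

theorem rightR_up (E : IntermediateField k F) [IsGalois k E] [IsGalois k F]
    (χ : (E ≃ₐ[k] E) →* ℂˣ) (ι : F →+* ℂ) :
    RightR n ι (χ.comp (AlgEquiv.restrictNormalHom E)) ↔
      RightR n (ι.comp (algebraMap E F)) χ := by
  have hconj : ComplexEmbedding.conjugate (ι.comp (algebraMap E F)) =
      (ComplexEmbedding.conjugate ι).comp (algebraMap E F) := rfl
  constructor
  · intro h c' hc'
    have h1 : (ComplexEmbedding.conjugate ι).comp (algebraMap k F) =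
        ι.comp (algebraMap k F) := by
      ext x
      have h2 := congrArg (fun τ : E →+* ℂ => τ (algebraMap k E x)) hc'
      have h3 : (c' (algebraMap k E x) : E) = algebraMap k E x := c'.commutes x
      change _ = (ι.comp (algebraMap E F)) (c' (algebraMap k E x)) at h2
      rw [h3] at h2
      exact h2
    obtain ⟨c, hc⟩ := NumberField.ComplexEmbedding.exists_comp_symm_eq_of_comp_eq (k := k) ι
      (ComplexEmbedding.conjugate ι) h1.symm
    have h4 : AlgEquiv.restrictNormalHom E c.symm = c' := by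
      apply comp_injr (ι.comp (algebraMap E F))
      rw [← hc', hconj, ← hc, ← res_comp]
    rw [← h4]
    exact h c.symm hc.symm
  · intro h c hc
    exact h _ (by rw [hconj, hc, res_comp])

/-- elements of a subfield -/
theorem crit_up (hn : 3 ≤ n) (E : IntermediateField k F) [IsGalois k E] [IsGalois k F]
    {ι : InfinitePlace k → (F →+* ℂ)} {χ' : (E ≃ₐ[k] E) →* ℂˣ}
    (hcr : Crit n (fun v => (ι v).comp (algebraMap E F)) χ') :
    Crit n ι (χ'.comp (AlgEquiv.restrictNormalHom E)) := by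
  refine crit_iff.2 ?_
  obtain ⟨m, hm, hmS⟩ := Sr_up (n := n) E χ'
  have hfull := crit_iff.1 hcr
  intro a ha
  let a' : J n (fun v => (ι v).comp (algebraMap E F)) χ' → ℂ := fun v =>
    a ⟨v.1, (rightR_up E χ' (ι v.1)).2 v.2⟩
  have ha' : a' = 0 := by
    refine hfull a' ?_
    rintro f ⟨α, hα, rfl⟩
    have h1 := ha _ ⟨rmM (algebraMap E F) α, kerDelta_rmM hn _ hα, rfl⟩
    have h2 : ∑ v : J n ι (χ'.comp (AlgEquiv.restrictNormalHom E)),
        a v * Sr (ι v) (χ'.comp (AlgEquiv.restrictNormalHom E))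
          (fun σ => value n σ (rmM (algebraMap E F) α)) =
        (m : ℂ) * ∑ v : J n (fun v => (ι v).comp (algebraMap E F)) χ',
          a' v * Sr ((ι v).comp (algebraMap E F)) χ' (fun σ => value n σ α) := by
      rw [Finset.mul_sum]
      refine Finset.sum_equiv (Equiv.subtypeEquivRight fun v => rightR_up E χ' (ι v))
        (fun _ => by simp) fun v _ => ?_
      rw [hmS]
      exact mul_left_comm (a v) (m : ℂ) _
    rw [h2] at h1
    exact (mul_eq_zero.1 h1).resolve_left (by exact_mod_cast hm)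
  funext v
  exact congrFun ha' ⟨v.1, (rightR_up E χ' (ι v.1)).1 v.2⟩

/-- the field of a character -/
theorem exists_field [IsGalois k F] (χ : (F ≃ₐ[k] F) →* ℂˣ) :
    ∃ (E : IntermediateField k F) (_ : IsGalois k E) (χ₁ : (E ≃ₐ[k] E) →* ℂˣ),
      IsCyclic (E ≃ₐ[k] E) ∧ Function.Injective χ₁ ∧
      χ₁.comp (AlgEquiv.restrictNormalHom E) = χ := by
  let H : Subgroup (F ≃ₐ[k] F) := χ.ker
  have hH : H.Normal := inferInstance
  let E : IntermediateField k F := IntermediateField.fixedField H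
  have hG : IsGalois k E := IsGalois.of_fixedField_normal_subgroup H
  let e := IsGalois.normalAutEquivQuotient H
  let q : ((F ≃ₐ[k] F) ⧸ H) →* ℂˣ := QuotientGroup.kerLift χ
  let χ₁ : (E ≃ₐ[k] E) →* ℂˣ := q.comp e.symm.toMonoidHom
  have hχ₁ : Function.Injective χ₁ :=
    (QuotientGroup.kerLift_injective χ).comp e.symm.injective
  refine ⟨E, hG, χ₁, isCyclic_of_injective_ringHom ((Units.coeHom ℂ).comp χ₁)
      (Units.val_injective.comp hχ₁), hχ₁, ?_⟩
  ext g
  have h1 : e.symm (AlgEquiv.restrictNormalHom E g) = QuotientGroup.mk g :=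
    e.symm_apply_apply (QuotientGroup.mk g)
  change ((q (e.symm (AlgEquiv.restrictNormalHom E g)) : ℂˣ) : ℂ) = _
  exact congrArg (fun z => ((q z : ℂˣ) : ℂ)) h1

/-- embeddings above the infinite places of `k` -/
theorem exists_section (k F : Type) [Field k] [NumberField k] [Field F] [NumberField F]
    [Algebra k F] : ∃ ι : InfinitePlace k → (F →+* ℂ),
      ∀ v, (InfinitePlace.mk (ι v)).comap (algebraMap k F) = v := by
  choose w₀ hw₀ using InfinitePlace.comap_surjective (k := k) (K := F)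
  refine ⟨fun v => (w₀ v).embedding, fun v => ?_⟩
  rw [InfinitePlace.mk_embedding]
  exact hw₀ v

/-- the abelian extension `F/k` from its cyclic subextensions -/
theorem nonzero_of_cyclic (hn : 3 ≤ n) [IsGalois k F]
    (hc : ∀ a b : F ≃ₐ[k] F, a * b = b * a)
    (h : ∀ (E : IntermediateField k F), IsGalois k E → IsCyclic (E ≃ₐ[k] E) →
      ∀ ι : InfinitePlace k → (E →+* ℂ),
        (∀ v, (InfinitePlace.mk (ι v)).comap (algebraMap k E) = v) →
        ∀ χ : (E ≃ₐ[k] E) →* ℂˣ, Function.Injective χ → Crit n ι χ) : Nonzero n F := by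
  obtain ⟨ι, hι⟩ := exists_section k F
  rw [nonzero_abelian hc hn hι]
  intro χ
  obtain ⟨E, hG, χ₁, hcyc, hχ₁, rfl⟩ := exists_field χ
  exact crit_up hn E (h E hG hcyc (fun v => (ι v).comp (algebraMap E F)) (fun v => hι v) χ₁ hχ₁)

/-- one injective character for each cyclic subextension -/
theorem zagier_of_cyclic_rel (hn : 3 ≤ n) [IsGalois k F]
    (hc : ∀ a b : F ≃ₐ[k] F, a * b = b * a)
    {b : Idx n F → (F →+* ℂ) → ℝ} (hb : IsRegulator n F b)
    (h : ∀ (E : IntermediateField k F), IsGalois k E → IsCyclic (E ≃ₐ[k] E) →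
      CyclicCrit n k E) : ZagierAt n F := by
  obtain ⟨ι, hι⟩ := exists_section k F
  refine zagier_of_nonzero hb ((nonzero_abelian hc hn hι).2 fun χ => ?_)
  obtain ⟨E, hG, χ₁, hcyc, hχ₁, hup⟩ := exists_field χ
  obtain ⟨χ', hχ', hcr⟩ := h E hG hcyc (fun v => (ι v).comp (algebraMap E F)) (fun v => hι v)
  refine crit_transfer hc (by omega) hι hb ?_ (crit_up hn E hcr)
  ext g
  rw [MonoidHom.mem_ker, MonoidHom.mem_ker, ← hup, MonoidHom.comp_apply, MonoidHom.comp_apply,
    map_eq_one_iff χ' hχ', map_eq_one_iff χ₁ hχ₁]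

end

end Pool.Agent.Q20.ZG
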