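import Pool.Agent.Q20.ZG.Bri

/-!
# Zagier's conjecture on `ζ_F(n)`: definitions
-/

set_option autoImplicit false
set_option linter.unusedSectionVars false

namespace Pool.Agent.Q20.ZG

open NumberField H39Gon

/-- `ker δ_n ⊆ ℤ[P¹_F]` (`n ≥ 3`) -/
def kerDelta (n : ℕ) (F : Type) [Field F] : Set (GonP.ZP F) := GonP.AS F (GonP.R (n - 1) F)

/-- `ker δ_n` as a submodule -/
noncomputable def kerD (n : ℕ) (F : Type) [Field F] : Submodule ℤ (ZP F) :=
  LinearMap.ker (deltaS F (R (n - 1) F))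

theorem kerDelta_eq {n : ℕ} (hn : 3 ≤ n) (F : Type) [Field F] :
    kerDelta n F = (kerD n F : Set (ZP F)) := by
  obtain ⟨m, rfl⟩ : ∃ m, n = m + 3 := ⟨n - 3, by omega⟩
  exact Br.AS_eq _ _ (Br.R_eq m)

theorem mem_kerDelta {n : ℕ} (hn : 3 ≤ n) {F : Type} [Field F] (α : ZP F) :
    α ∈ kerDelta n F ↔ α ∈ kerD n F := by
  rw [kerDelta_eq hn]
  exact Iff.rfl

/-- the power series of the polylogarithm `Li_m` -/
noncomputable def Li (m : ℕ) (z : ℂ) : ℂ := ∑' j : ℕ, z ^ (j + 1) / ((j : ℂ) + 1) ^ m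

/-- the real part for odd `n`, the imaginary part for even `n` -/
noncomputable def part (n : ℕ) (w : ℂ) : ℝ := if n % 2 = 1 then w.re else w.im

/-- the coefficients of `2x/(e^{2x} - 1)` -/
noncomputable def beta (k : ℕ) : ℚ := 2 ^ k * bernoulli k / (k.factorial : ℚ)

/-- Zagier's single valued polylogarithm in the closed unit disc -/
noncomputable def inner (n : ℕ) (z : ℂ) : ℝ :=
  part n (∑ k ∈ Finset.range n, ((beta k : ℚ) : ℂ) * ((Real.log ‖z‖ : ℝ) : ℂ) ^ k * Li (n - k) z)

/-- Zagier's single valued polylogarithm `𝓛_n` on `P¹(ℂ)`, `𝓛_n(1/z) = (-1)^{n-1} 𝓛_n(z)` -/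
noncomputable def polylog (n : ℕ) : P1 ℂ → ℝ
  | none => 0
  | some z => if ‖z‖ ≤ 1 then inner n z else (-1) ^ (n - 1) * inner n z⁻¹

/-- `𝓛_n(σ(α))` for `α ∈ ℤ[P¹_F]` and an embedding `σ` -/
noncomputable def value (n : ℕ) {F : Type} [Field F] (σ : F →+* ℂ) : ZP F →ₗ[ℤ] ℝ :=
  Finsupp.linearCombination ℤ (fun x : P1 F => polylog n (x.map σ))

/-- all infinite places for odd `n`, the complex ones for even `n` -/
abbrev Idx (n : ℕ) (F : Type) [Field F] : Type :=
  {w : InfinitePlace F // n % 2 = 1 ∨ w.IsComplex}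

noncomputable instance fintypeIdx (n : ℕ) (F : Type) [Field F] [NumberField F] :
    Fintype (Idx n F) := Fintype.ofFinite _

noncomputable instance decEqIdx (n : ℕ) (F : Type) [Field F] : DecidableEq (Idx n F) :=
  Classical.decEq _

/-- functions of the embeddings -/
abbrev Fun (F : Type) [Field F] : Type := (F →+* ℂ) → ℝ

/-- the determinant of the values `b_i(σ_j)` -/
noncomputable abbrev detV (n : ℕ) (F : Type) [Field F] [NumberField F] (b : Idx n F → Fun F) : ℝ :=
  Matrix.det (Matrix.of fun i j : Idx n F => b i j.1.embedding)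

/-- the factor `π^{n d_{n-1}} |d_F|^{-1/2}` -/
noncomputable def factor (n : ℕ) (F : Type) [Field F] [NumberField F] : ℝ :=
  Real.pi ^ (n * Fintype.card (Idx (n - 1) F)) / Real.sqrt |(discr F : ℝ)|

/-- `ζ_F(n) = q π^{n d_{n-1}} |d_F|^{-1/2} det(b_i(σ_j))`, `q ∈ ℚ^×` -/
def ZetaEq (n : ℕ) (F : Type) [Field F] [NumberField F] (b : Idx n F → Fun F) : Prop :=
  ∃ q : ℚ, q ≠ 0 ∧ dedekindZeta F n = (((q : ℝ) * factor n F * detV n F b : ℝ) : ℂ)

/-- Zagier's conjecture for `ζ_F(n)` -/
def ZagierAt (n : ℕ) (F : Type) [Field F] [NumberField F] : Prop :=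
  ∃ y : Idx n F → ZP F, (∀ i, y i ∈ kerDelta n F) ∧ ZetaEq n F fun i σ => value n σ (y i)

/-- there are elements of `ker δ_n` with a nonzero determinant -/
def Nonzero (n : ℕ) (F : Type) [Field F] [NumberField F] : Prop :=
  ∃ y : Idx n F → ZP F, (∀ i, y i ∈ kerDelta n F) ∧ detV n F (fun i σ => value n σ (y i)) ≠ 0

/-- the functions of the parity `(-1)^(n-1)` -/
def IsPar (n : ℕ) {F : Type} [Field F] (f : Fun F) : Prop :=
  ∀ σ, f (ComplexEmbedding.conjugate σ) = (-1) ^ (n - 1) * f σ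

/-- the rational span of the functions `b_i` contains the values of `ker δ_n` -/
def ContainsVals (n : ℕ) (F : Type) [Field F] (b : Idx n F → Fun F) : Prop :=
  ∀ α ∈ kerDelta n F, (fun σ => value n σ α) ∈ Submodule.span ℚ (Set.range b)

/-- the rational span of the functions `b_i` is stable under the automorphisms of `F` -/
def AutStable (n : ℕ) (F : Type) [Field F] (b : Idx n F → Fun F) : Prop :=
  ∀ (g : F ≃+* F) (i), (fun σ : F →+* ℂ => b i (σ.comp (g : F →+* F))) ∈
    Submodule.span ℚ (Set.range b)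

/-- the functions `b_i` of the embeddings are a basis of the values of Borel's regulator -/
structure IsRegulator (n : ℕ) (F : Type) [Field F] [NumberField F] (b : Idx n F → Fun F) :
    Prop where
  parity : ∀ i, IsPar n (b i)
  det_ne : detV n F b ≠ 0
  zeta : ZetaEq n F b
  mem : ContainsVals n F b
  stable : AutStable n F b

/-- Borel's theorem, and the theorem of Beilinson-Deligne and de Jeu -/
def Known (n : ℕ) : Prop :=
  ∀ (F : Type) [Field F] [NumberField F], ∃ b, IsRegulator n F b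

theorem value_single (n : ℕ) {F : Type} [Field F] (σ : F →+* ℂ) (x : P1 F) (c : ℤ) :
    value n σ (Finsupp.single x c) = c * polylog n (x.map σ) := by
  rw [value, Finsupp.linearCombination_single, zsmul_eq_mul]

/-- functoriality of the values -/
theorem value_rmM (n : ℕ) {E F : Type} [Field E] [Field F] (φ : E →+* F) (σ : F →+* ℂ)
    (α : ZP E) : value n σ (rmM φ α) = value n (σ.comp φ) α := by
  induction α using Finsupp.induction_linear with
  | zero => rw [map_zero, map_zero, map_zero]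
  | add a b ha hb => rw [map_add, map_add, map_add, ha, hb]
  | single x c =>
    rw [rmM_single, value_single, value_single, Option.map_map]
    rfl

/-- functoriality of `ker δ_n` -/
theorem kerDelta_rmM {n : ℕ} (hn : 3 ≤ n) {E F : Type} [Field E] [Field F] (φ : E →+* F)
    {α : ZP E} (h : α ∈ kerDelta n E) : rmM φ α ∈ kerDelta n F := by
  rw [mem_kerDelta hn] at h ⊢
  obtain ⟨m, rfl⟩ : ∃ m, n = m + 3 := ⟨n - 3, by omega⟩
  rw [kerD, LinearMap.mem_ker] at h ⊢
  rw [rm_deltaS φ (R (m + 3 - 1) E) (R (m + 3 - 1) F) (fun s hs => R_map φ m s hs), h, map_zero]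

end Pool.Agent.Q20.ZG
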