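import Pool.Agent.Q20.ZG.Core

/-!
# Galois extensions: one element for each infinite place of the base
-/

set_option autoImplicit false
set_option linter.unusedSectionVars false

namespace Pool.Agent.Q20.ZG

open NumberField H39Gon

/-- Zagier's conjecture for `F` with one element for each infinite place of `k`, and its
conjugates under `Gal(F/k)` -/
def Orbits (n : ℕ) (k F : Type) [Field k] [Field F] [NumberField F] [Algebra k F] : Prop :=
  ∃ y : InfinitePlace k → ZP F, (∀ v, y v ∈ kerDelta n F) ∧ ∃ g : Idx n F → (F ≃ₐ[k] F),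
    ZetaEq n F fun i σ => value n σ (rmM (g i : F →+* F) (y (i.1.comap (algebraMap k F))))

/-- one element for each infinite place of `k` whose conjugates under `Gal(F/k)` have a nonzero
determinant -/
def NonzeroOrbits (n : ℕ) (k F : Type) [Field k] [Field F] [NumberField F] [Algebra k F] : Prop :=
  ∃ y : InfinitePlace k → ZP F, (∀ v, y v ∈ kerDelta n F) ∧ ∃ g : Idx n F → (F ≃ₐ[k] F),
    detV n F (fun i σ => value n σ (rmM (g i : F →+* F) (y (i.1.comap (algebraMap k F))))) ≠ 0

section
variable {n : ℕ} {F : Type} [Field F] [NumberField F]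

open Classical in
/-- the function of the right parity supported by one place -/
noncomputable def spot (n : ℕ) {F : Type} [Field F] (τ : F →+* ℂ) : (F →+* ℂ) → ℝ := fun σ =>
  if σ = τ then 1 else if σ = ComplexEmbedding.conjugate τ then (-1) ^ (n - 1) else 0

theorem conj_conj (σ : F →+* ℂ) :
    ComplexEmbedding.conjugate (ComplexEmbedding.conjugate σ) = σ := by
  ext x
  simp

theorem sign_eq_one (hn : 0 < n) {τ : F →+* ℂ} (hτ : n % 2 = 1 ∨ (InfinitePlace.mk τ).IsComplex)
    (h : ComplexEmbedding.conjugate τ = τ) : (-1 : ℝ) ^ (n - 1) = 1 := by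
  have hodd : n % 2 = 1 := by
    rcases hτ with h1 | h1
    · exact h1
    · exact absurd h1 (InfinitePlace.not_isComplex_iff_isReal.2 (InfinitePlace.isReal_mk_iff.2 h))
  have heven : Even (n - 1) := ⟨(n - 1) / 2, by omega⟩
  exact heven.neg_one_pow

theorem spot_par (hn : 0 < n) {τ : F →+* ℂ}
    (hτ : n % 2 = 1 ∨ (InfinitePlace.mk τ).IsComplex) : IsPar n (spot n τ) := by
  classical
  intro σ
  have e1 : ComplexEmbedding.conjugate σ = τ ↔ σ = ComplexEmbedding.conjugate τ := by
    constructor
    · rintro rfl
      rw [conj_conj]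
    · rintro rfl
      rw [conj_conj]
  have e2 : ComplexEmbedding.conjugate σ = ComplexEmbedding.conjugate τ ↔ σ = τ := by
    constructor
    · intro h
      rw [← conj_conj σ, h, conj_conj]
    · rintro rfl
      rfl
  have e3 : spot n τ (ComplexEmbedding.conjugate σ) =
      (if ComplexEmbedding.conjugate σ = τ then (1 : ℝ) else
      if ComplexEmbedding.conjugate σ = ComplexEmbedding.conjugate τ then (-1) ^ (n - 1) else 0) := by
    unfold spot
    congr
  have e4 : spot n τ σ = (if σ = τ then (1 : ℝ) else
      if σ = ComplexEmbedding.conjugate τ then (-1) ^ (n - 1) else 0) := by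
    unfold spot
    congr
  rw [e3, e4, if_congr e1 rfl (if_congr e2 rfl rfl)]
  by_cases h1 : σ = τ
  · subst h1
    by_cases h2 : σ = ComplexEmbedding.conjugate σ
    · rw [if_pos h2, if_pos rfl, sign_eq_one hn hτ h2.symm, one_mul]
    · rw [if_neg h2, if_pos rfl, if_pos rfl, mul_one]
  · by_cases h2 : σ = ComplexEmbedding.conjugate τ
    · rw [if_pos h2, if_neg h1, if_pos h2, ← mul_pow]
      norm_num
    · rw [if_neg h2, if_neg h1, if_neg h1, if_neg h2, mul_zero]

theorem spot_ne {τ σ : F →+* ℂ} (h : InfinitePlace.mk τ = InfinitePlace.mk σ) :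
    spot n τ σ ≠ 0 := by
  unfold spot
  rcases InfinitePlace.mk_eq_iff.1 h with h1 | h1
  · rw [if_pos h1.symm]
    exact one_ne_zero
  · by_cases h2 : σ = τ
    · rw [if_pos h2]
      exact one_ne_zero
    · rw [if_neg h2, if_pos h1.symm]
      exact pow_ne_zero _ (by norm_num)

theorem spot_zero {τ σ : F →+* ℂ} (h : InfinitePlace.mk τ ≠ InfinitePlace.mk σ) :
    spot n τ σ = 0 := by
  unfold spot
  rw [if_neg fun h1 => h (by rw [h1]), if_neg fun h1 => h (by
    rw [h1, InfinitePlace.mk_conjugate_eq])]

/-- density: elements of the rational span near given functions -/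
theorem exists_near {V : Type} [Fintype V] (A : Submodule ℤ (ZP F)) (u : Idx n F → V)
    (e : Idx n F → Idx n F → (F →+* ℂ)) {f : V → (F →+* ℂ) → ℝ}
    (hf : ∀ v, f v ∈ Submodule.span ℝ {f | ∃ α ∈ A, f = fun σ => value n σ α})
    (hdet : (Matrix.of fun i j => f (u i) (e i j)).det ≠ 0) :
    ∃ y : V → ZP F, (∀ v, y v ∈ A) ∧
      (Matrix.of fun i j => value n (e i j) (y (u i))).det ≠ 0 := by
  classical
  choose m r w hw using fun v => Submodule.mem_span_set'.1 (hf v)
  choose α hα hαw using fun v k => (w v k).2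
  let D : ((v : V) → Fin (m v) → ℝ) → ℝ := fun x =>
    (Matrix.of fun i j => ∑ k, x (u i) k * value n (e i j) (α (u i) k)).det
  have hD : Continuous D := by
    refine Continuous.matrix_det ?_
    refine continuous_matrix fun i j => ?_
    change Continuous fun x : (v : V) → Fin (m v) → ℝ =>
      ∑ k, x (u i) k * value n (e i j) (α (u i) k)
    refine continuous_finsetSum (M := ℝ) Finset.univ fun k _ => ?_
    have h0 : Continuous fun x : (v : V) → Fin (m v) → ℝ => x (u i) :=
      continuous_apply (A := fun v => Fin (m v) → ℝ) (u i)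
    have h1 : Continuous fun x : (v : V) → Fin (m v) → ℝ => x (u i) k :=
      (continuous_apply k).comp h0
    exact h1.mul continuous_const
  have hDr : D r ≠ 0 := by
    have h1 : D r = (Matrix.of fun i j => f (u i) (e i j)).det := by
      change (Matrix.of fun i j => ∑ k, r (u i) k * value n (e i j) (α (u i) k)).det = _
      congr 1
      ext i j
      rw [Matrix.of_apply, Matrix.of_apply, ← hw, Finset.sum_apply]
      refine Finset.sum_congr rfl fun k _ => ?_
      rw [Pi.smul_apply, smul_eq_mul]
      congr 1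
      exact (congrFun (hαw (u i) k) (e i j)).symm
    rw [h1]
    exact hdet
  have hdense : DenseRange (fun (x : (v : V) → Fin (m v) → ℚ) (v : V) (k : Fin (m v)) =>
      ((x v k : ℚ) : ℝ)) :=
    DenseRange.piMap (f := fun v (x : Fin (m v) → ℚ) (k : Fin (m v)) => ((x k : ℚ) : ℝ))
      fun v => DenseRange.piMap fun _ => Rat.denseRange_cast
  obtain ⟨x, hx⟩ := hdense.exists_mem_open (isOpen_ne.preimage hD) ⟨r, hDr⟩
  -- common denominator
  let N : ℕ := ∏ v, ∏ k, (x v k).den
  have hN : N ≠ 0 := Finset.prod_ne_zero_iff.2 fun v _ =>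
    Finset.prod_ne_zero_iff.2 fun k _ => (x v k).den_nz
  have hz : ∀ v k, ∃ z : ℤ, (z : ℚ) = N * x v k := by
    intro v k
    obtain ⟨c, hc⟩ : (x v k).den ∣ N := (Finset.dvd_prod_of_mem (fun k => (x v k).den)
      (Finset.mem_univ k)).trans (Finset.dvd_prod_of_mem (fun v => ∏ k, (x v k).den)
      (Finset.mem_univ v))
    refine ⟨(c : ℤ) * (x v k).num, ?_⟩
    rw [hc]
    push_cast
    have h1 := Rat.mul_den_eq_num (x v k)
    calc (c : ℚ) * ((x v k).num : ℚ) = c * (x v k * (x v k).den) := by rw [h1]
      _ = _ := by ring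
  choose z hz using hz
  refine ⟨fun v => ∑ k, z v k • α v k, fun v => A.sum_mem fun k _ =>
    A.smul_mem _ (hα v k), ?_⟩
  have h2 : (Matrix.of fun i j => value n (e i j) (∑ k, z (u i) k • α (u i) k)) =
      (N : ℝ) • (Matrix.of fun i j => ∑ k, ((x (u i) k : ℚ) : ℝ) *
        value n (e i j) (α (u i) k)) := by
    ext i j
    rw [Matrix.smul_apply, Matrix.of_apply, Matrix.of_apply, map_sum, smul_eq_mul,
      Finset.mul_sum]
    refine Finset.sum_congr rfl fun k _ => ?_
    rw [map_zsmul, zsmul_eq_mul, ← mul_assoc]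
    congr 1
    exact_mod_cast hz (u i) k
  rw [h2, Matrix.det_smul]
  exact mul_ne_zero (pow_ne_zero _ (by exact_mod_cast hN)) hx

theorem comap_aut_inj {k : Type} [Field k] [Algebra k F] (g : F ≃ₐ[k] F)
    {w w' : InfinitePlace F} (h : w.comap (g : F →+* F) = w'.comap (g : F →+* F)) : w = w' := by
  ext x
  have h1 := congrArg (fun v : InfinitePlace F => v (g.symm x)) h
  simpa using h1

/-- **Galois extensions**: one element for each infinite place of the base field -/
theorem nonzero_orbits (k : Type) [Field k] [NumberField k] [Algebra k F] [IsGalois k F]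
    (hn : 3 ≤ n) : Nonzero n F ↔ NonzeroOrbits n k F := by
  classical
  have hn0 : 0 < n := by omega
  constructor
  · intro h
    have hfull := nonzero_iff.1 h
    choose w₀ hw₀ using InfinitePlace.comap_surjective (k := k) (K := F)
    let f : InfinitePlace k → (F →+* ℂ) → ℝ := fun v =>
      if n % 2 = 1 ∨ (w₀ v).IsComplex then spot n (w₀ v).embedding else 0
    have hf : ∀ v, f v ∈ Submodule.span ℝ (Vals n F) := by
      intro v
      by_cases hv : n % 2 = 1 ∨ (w₀ v).IsComplex
      · have h1 : f v = spot n (w₀ v).embedding := if_pos hv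
        rw [h1]
        refine mem_span_of_full hn0 hfull (fun f hf => ?_) (spot_par hn0 (by
          rwa [InfinitePlace.mk_embedding]))
        obtain ⟨α, -, rfl⟩ := hf
        exact fun σ => value_conj hn0 σ α
      · have h1 : f v = 0 := if_neg hv
        rw [h1]
        exact Submodule.zero_mem _
    let u : Idx n F → InfinitePlace k := fun i => i.1.comap (algebraMap k F)
    have hg : ∀ i : Idx n F, ∃ g : F ≃ₐ[k] F, i.1.comap (g : F →+* F) = w₀ (u i) := by
      intro i
      obtain ⟨σ, hσ⟩ := InfinitePlace.exists_smul_eq_of_comap_eq (k := k) (w := i.1)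
        (w' := w₀ (u i)) (hw₀ (u i)).symm
      exact ⟨σ.symm, hσ⟩
    choose g hg using hg
    have hcx : ∀ i : Idx n F, f (u i) = spot n (w₀ (u i)).embedding := by
      intro i
      refine if_pos ?_
      rcases i.2 with h1 | h1
      · exact Or.inl h1
      · right
        rw [← hg i]
        have h2 := (InfinitePlace.isComplex_smul_iff (k := k) (σ := (g i).symm) (w := i.1)).2 h1
        exact h2
    have hmat : (Matrix.of fun i j : Idx n F => f (u i) (j.1.embedding.comp (g i : F →+* F))) =
        Matrix.diagonal fun i => f (u i) (i.1.embedding.comp (g i : F →+* F)) := by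
      ext i j
      rw [Matrix.of_apply, Matrix.diagonal_apply]
      by_cases hij : i = j
      · subst hij
        rw [if_pos rfl]
      · rw [if_neg hij, hcx]
        refine spot_zero fun h1 => hij ?_
        rw [InfinitePlace.mk_embedding, ← hg i, ← InfinitePlace.comap_mk,
          InfinitePlace.mk_embedding] at h1
        exact Subtype.ext (comap_aut_inj (g i) h1)
    have hf' : ∀ v, f v ∈ Submodule.span ℝ {f | ∃ α ∈ kerD n F, f = fun σ => value n σ α} := by
      have h1 : Vals n F = {f | ∃ α ∈ kerD n F, f = fun σ => value n σ α} := by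
        ext x
        simp only [Vals, Set.mem_setOf_eq, mem_kerDelta hn]
      rw [← h1]
      exact hf
    obtain ⟨y, hy, hne⟩ := exists_near (kerD n F) u
      (fun i j : Idx n F => j.1.embedding.comp (g i : F →+* F)) hf' (by
        rw [hmat, Matrix.det_diagonal]
        refine Finset.prod_ne_zero_iff.2 fun i _ => ?_
        rw [hcx]
        refine spot_ne ?_
        rw [InfinitePlace.mk_embedding, ← hg i, ← InfinitePlace.comap_mk,
          InfinitePlace.mk_embedding])
    refine ⟨y, fun v => (mem_kerDelta hn _).2 (hy v), g, ?_⟩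
    change (Matrix.of fun i j : Idx n F => value n j.1.embedding
      (rmM (g i : F →+* F) (y (i.1.comap (algebraMap k F))))).det ≠ 0
    convert hne using 5
    exact value_rmM n _ _ _
  · rintro ⟨y, hy, g, h⟩
    exact ⟨fun i => rmM (g i : F →+* F) (y (i.1.comap (algebraMap k F))),
      fun i => kerDelta_rmM hn _ (hy _), h⟩

theorem orbits_iff (k : Type) [Field k] [NumberField k] [Algebra k F] [IsGalois k F]
    (hn : 3 ≤ n) {b : Idx n F → (F →+* ℂ) → ℝ} (hb : IsRegulator n F b) :
    ZagierAt n F ↔ Orbits n k F := by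
  constructor
  · intro h
    obtain ⟨y, hy, g, hd⟩ := (nonzero_orbits k hn).1 (nonzero_of_zagier (by omega) h)
    exact ⟨y, hy, g, zetaEq_of_det_ne hb (fun i => kerDelta_rmM hn _ (hy _)) hd⟩
  · rintro ⟨y, hy, g, h⟩
    exact ⟨fun i => rmM (g i : F →+* F) (y (i.1.comap (algebraMap k F))),
      fun i => kerDelta_rmM hn _ (hy _), h⟩

end

end Pool.Agent.Q20.ZG
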