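import Pool.Agent.Q20.ZG.Def

/-!
# The parity of the polylogarithms
-/

set_option autoImplicit false
set_option linter.unusedSectionVars false

namespace Pool.Agent.Q20.ZG

open NumberField H39Gon

theorem part_conj {n : ℕ} (hn : 0 < n) (w : ℂ) :
    part n (starRingEnd ℂ w) = (-1) ^ (n - 1) * part n w := by
  unfold part
  rcases Nat.even_or_odd (n - 1) with h | h
  · have h1 : n % 2 = 1 := by
      obtain ⟨k, hk⟩ := h
      omega
    rw [if_pos h1, if_pos h1, h.neg_one_pow, one_mul, Complex.conj_re]
  · have h1 : ¬ n % 2 = 1 := by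
      obtain ⟨k, hk⟩ := h
      omega
    rw [if_neg h1, if_neg h1, h.neg_one_pow, neg_one_mul, Complex.conj_im]

theorem Li_conj (m : ℕ) (z : ℂ) : Li m (starRingEnd ℂ z) = starRingEnd ℂ (Li m z) := by
  unfold Li
  rw [Complex.conj_tsum]
  refine tsum_congr fun j => ?_
  rw [map_div₀, map_pow, map_pow, map_add, map_one, Complex.conj_natCast]

theorem inner_conj {n : ℕ} (hn : 0 < n) (z : ℂ) :
    inner n (starRingEnd ℂ z) = (-1) ^ (n - 1) * inner n z := by
  unfold inner
  rw [← part_conj hn, map_sum]
  congr 1
  refine Finset.sum_congr rfl fun k _ => ?_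
  rw [map_mul, map_mul, map_pow, Complex.conj_ofReal, Li_conj, Complex.norm_conj]
  congr 2
  exact (map_ratCast (starRingEnd ℂ) (beta k)).symm

theorem polylog_conj {n : ℕ} (hn : 0 < n) (x : P1 ℂ) :
    polylog n (x.map (starRingEnd ℂ)) = (-1) ^ (n - 1) * polylog n x := by
  cases x with
  | none => simp [polylog]
  | some z =>
    simp only [Option.map_some, polylog, Complex.norm_conj]
    split_ifs with h
    · exact inner_conj hn z
    · rw [← map_inv₀, inner_conj hn]

/-- the parity of the values -/
theorem value_conj {n : ℕ} (hn : 0 < n) {F : Type} [Field F] (σ : F →+* ℂ) (α : ZP F) :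
    value n (ComplexEmbedding.conjugate σ) α = (-1) ^ (n - 1) * value n σ α := by
  induction α using Finsupp.induction_linear with
  | zero => rw [map_zero, map_zero, mul_zero]
  | add a b ha hb => rw [map_add, map_add, ha, hb, mul_add]
  | single x c =>
    rw [value_single, value_single]
    have h1 : x.map (ComplexEmbedding.conjugate σ) = (x.map σ).map (starRingEnd ℂ) := by
      rw [Option.map_map]
      rfl
    rw [h1, polylog_conj hn]
    ring

end Pool.Agent.Q20.ZG
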