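import Pool.Agent.Q20.ZG.Cyc

/-!
# Cyclic fields of prime power degree
-/

set_option autoImplicit false
set_option linter.unusedSectionVars false

namespace Pool.Agent.Q20.ZG

open NumberField H39Gon

/-- a character of a cyclic group of prime power order which is nontrivial at the elements
of prime order is injective -/
theorem inj_of_ne {G : Type} [Group G] [Finite G] (hG : IsCyclic G) {p a : ℕ} (hp : p.Prime)
    (hcard : Nat.card G = p ^ a) {g : G} (hg : orderOf g = p) {χ : G →* ℂˣ} (h : χ g ≠ 1) :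
    Function.Injective χ := by
  classical
  have := Fintype.ofFinite G
  rw [← MonoidHom.ker_eq_bot_iff]
  by_contra hne
  have hp' := Fact.mk hp
  have h1 : p ∣ Nat.card χ.ker := by
    have h2 : Nat.card χ.ker ∣ p ^ a := by
      rw [← hcard]
      exact Subgroup.card_subgroup_dvd_card _
    obtain ⟨j, -, hj⟩ := (Nat.dvd_prime_pow hp).1 h2
    rw [hj]
    refine dvd_pow_self p fun h0 => hne ?_
    rw [h0, pow_zero] at hj
    exact Subgroup.card_eq_one.1 hj
  obtain ⟨x, hx⟩ := exists_prime_orderOf_dvd_card' (G := χ.ker) p h1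
  have hx' : orderOf (x : G) = p := by rw [Subgroup.orderOf_coe, hx]
  have hle := IsCyclic.card_pow_eq_one_le (α := G) (n := p) hp.pos
  have hsub : (Finset.univ.filter fun y : G => y ∈ Subgroup.zpowers (x : G)) ⊆
      (Finset.univ.filter fun y : G => y ^ p = 1) := by
    intro y hy
    rw [Finset.mem_filter] at hy ⊢
    refine ⟨Finset.mem_univ _, ?_⟩
    obtain ⟨k, hk⟩ := hy.2
    change (x : G) ^ k = y at hk
    rw [← hk, ← zpow_natCast, ← zpow_mul, mul_comm, zpow_mul, zpow_natCast, ← hx', pow_orderOf_eq_one,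
      one_zpow]
  have hcz : (Finset.univ.filter fun y : G => y ∈ Subgroup.zpowers (x : G)).card = p := by
    rw [← hx', ← Nat.card_zpowers, Nat.card_eq_fintype_card, Fintype.card_subtype]
  have heq := Finset.eq_of_subset_of_card_le hsub (by rw [hcz]; convert hle)
  have hgm : g ∈ (Finset.univ.filter fun y : G => y ^ p = 1) :=
    Finset.mem_filter.2 ⟨Finset.mem_univ _, by rw [← hg, pow_orderOf_eq_one]⟩
  rw [← heq, Finset.mem_filter] at hgm
  have h3 : Subgroup.zpowers (x : G) ≤ χ.ker := (Subgroup.zpowers_le).2 x.2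
  exact h (MonoidHom.mem_ker.1 (h3 hgm.2))

section
variable {n : ℕ} {F : Type} [Field F] [NumberField F] (ι : F →+* ℂ)

/-- injectivity of the transform -/
theorem exists_S_ne [IsGalois ℚ F] (hc : ∀ a b : F ≃ₐ[ℚ] F, a * b = b * a)
    {f : (F →+* ℂ) → ℝ} (hf : f ≠ 0) : ∃ χ, S ι χ f ≠ 0 := by
  classical
  have := finite_chr (F ≃ₐ[ℚ] F)
  have := Fintype.ofFinite ((F ≃ₐ[ℚ] F) →* ℂˣ)
  by_contra hcon
  push Not at hcon
  refine hf (funext fun σ => ?_)
  obtain ⟨k, rfl⟩ := exists_comp ι σ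
  have h1 : ∑ χ : (F ≃ₐ[ℚ] F) →* ℂˣ, (((χ k : ℂˣ) : ℂ))⁻¹ * S ι χ f = 0 :=
    Finset.sum_eq_zero fun χ _ => by rw [hcon χ, mul_zero]
  simp only [S, Finset.mul_sum] at h1
  rw [Finset.sum_comm] at h1
  have h2 : ∀ g : F ≃ₐ[ℚ] F, ∑ χ : (F ≃ₐ[ℚ] F) →* ℂˣ, (((χ k : ℂˣ) : ℂ))⁻¹ *
      (((χ g : ℂˣ) : ℂ) * ((f (ι.comp (g : F →+* F)) : ℝ) : ℂ)) =
      (if k = g then (Fintype.card (F ≃ₐ[ℚ] F) : ℂ) else 0) *
        ((f (ι.comp (g : F →+* F)) : ℝ) : ℂ) := by
    intro g
    rw [← orth2 hc k g, Finset.sum_mul]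
    refine Finset.sum_congr rfl fun χ _ => ?_
    ring
  rw [Finset.sum_congr rfl fun g _ => h2 g, Finset.sum_eq_single k] at h1
  · rw [if_pos rfl] at h1
    have hcard : (Fintype.card (F ≃ₐ[ℚ] F) : ℂ) ≠ 0 := by exact_mod_cast Fintype.card_ne_zero
    have h3 := (mul_eq_zero.1 h1).resolve_left hcard
    exact_mod_cast h3
  · intro g _ hg
    rw [if_neg fun h => hg h.symm, zero_mul]
  · intro h3
    exact absurd (Finset.mem_univ k) h3

/-- **prime power degree**: the values at two conjugate embeddings differ -/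
theorem oneElement_iff [IsGalois ℚ F] (hcyc : IsCyclic (F ≃ₐ[ℚ] F)) {p a : ℕ} (hp : p.Prime)
    (hcard : Nat.card (F ≃ₐ[ℚ] F) = p ^ (a + 1)) : OneElement n F ↔
      ∃ α ∈ kerDelta n F, ∃ (σ : F →+* ℂ) (g : F ≃ₐ[ℚ] F), orderOf g = p ∧
        value n (σ.comp (g : F →+* F)) α ≠ value n σ α := by
  have hp' := Fact.mk hp
  have hc : ∀ a b : F ≃ₐ[ℚ] F, a * b = b * a := by
    let _ : CommGroup (F ≃ₐ[ℚ] F) := IsCyclic.commGroup
    exact fun a b => mul_comm a b
  constructor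
  · rintro ⟨α, hα, ι, χ, hχ, hne⟩
    obtain ⟨g, hg⟩ := exists_prime_orderOf_dvd_card' (G := F ≃ₐ[ℚ] F) p
      (by rw [hcard]; exact dvd_pow_self p (by omega))
    refine ⟨α, hα, ?_⟩
    by_contra hcon
    push Not at hcon
    have h1 : tr g (fun σ => value n σ α) = fun σ => value n σ α := by
      funext σ
      exact hcon σ g hg
    have h2 := S_tr ι hc χ (fun σ => value n σ α) g
    rw [h1] at h2
    have h3 : ((χ g : ℂˣ) : ℂ) ≠ 1 := by
      intro h4
      have h5 : g = 1 := hχ (by rw [map_one]; exact Units.ext h4)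
      rw [h5, orderOf_one] at hg
      exact hp.one_lt.ne hg
    have h4 : (1 - (((χ g : ℂˣ) : ℂ))⁻¹) * S ι χ (fun σ => value n σ α) = 0 := by
      rw [sub_mul, one_mul, ← h2, sub_self]
    rcases mul_eq_zero.1 h4 with h5 | h5
    · exact h3 (inv_eq_one.1 (sub_eq_zero.1 h5).symm)
    · exact hne h5
  · rintro ⟨α, hα, σ, g, hg, hne⟩
    let ι : F →+* ℂ := σ
    have h1 : tr g (fun σ => value n σ α) - (fun σ => value n σ α) ≠ 0 := by
      intro h0
      exact hne (sub_eq_zero.1 (congrFun h0 σ))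
    obtain ⟨χ, hχ⟩ := exists_S_ne ι hc h1
    have h2 : S ι χ (tr g (fun σ => value n σ α) - (fun σ => value n σ α)) =
        ((((χ g : ℂˣ) : ℂ))⁻¹ - 1) * S ι χ (fun σ => value n σ α) := by
      rw [sub_mul, one_mul, ← S_tr ι hc]
      exact map_sub (SL ι χ) _ _
    rw [h2] at hχ
    refine ⟨α, hα, ι, χ, inj_of_ne hcyc hp hcard hg ?_, right_ne_zero_of_mul hχ⟩
    intro h3
    apply left_ne_zero_of_mul hχ
    rw [h3, Units.val_one, inv_one, sub_self]

end

end Pool.Agent.Q20.ZG
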