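import Pool.Agent.Q20.ZG.Pp
import Pool.Agent.Q20.ZG.Cyc2

/-!
# Zagier's conjecture for abelian extensions: the conditions of the theorem
-/

set_option autoImplicit false
set_option linter.unusedSectionVars false

namespace Pool.Agent.Q20.ZG

open NumberField H39Gon

section
variable (n : ℕ) (k F : Type) [Field k] [NumberField k] [Field F] [NumberField F] [Algebra k F]

/-- `F/k` is an abelian extension -/
def IsAbel : Prop := IsGalois k F ∧ ∀ a b : F ≃ₐ[k] F, a * b = b * a

/-- `F/k` is a cyclic extension -/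
def IsCyc : Prop := IsGalois k F ∧ IsCyclic (F ≃ₐ[k] F)

variable {k F} in
/-- `ι_v` is an embedding above `v`, for each infinite place `v` of `k` -/
def Above (ι : InfinitePlace k → (F →+* ℂ)) : Prop :=
  ∀ v, (InfinitePlace.mk (ι v)).comap (algebraMap k F) = v

/-- the criterion for all injective characters of `Gal(F/k)` -/
def InjCrit : Prop := ∀ ι : InfinitePlace k → (F →+* ℂ), Above ι →
  ∀ χ : (F ≃ₐ[k] F) →* ℂˣ, Function.Injective χ → Crit n ι χ

/-- the criterion for one injective character of `Gal(F/k)` -/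
def OneInjCrit : Prop := ∀ ι : InfinitePlace k → (F →+* ℂ), Above ι →
  ∃ χ : (F ≃ₐ[k] F) →* ℂˣ, Function.Injective χ ∧ Crit n ι χ

end

/-- `Nonzero` for all abelian extensions of `k` -/
def AbelNonzero (n : ℕ) (k : Type) [Field k] [NumberField k] : Prop :=
  ∀ (F : Type) [Field F] [NumberField F] [Algebra k F], IsAbel k F → Nonzero n F

/-- Zagier's conjecture for `ζ_F(n)` for all abelian extensions `F` of `k` -/
def AbelZagier (n : ℕ) (k : Type) [Field k] [NumberField k] : Prop :=
  ∀ (F : Type) [Field F] [NumberField F] [Algebra k F], IsAbel k F → ZagierAt n F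

/-- the values of an element differ at `σ` and `σ ∘ g`, `g` an automorphism of order `p` -/
def DiffElement (n p : ℕ) (E : Type) [Field E] [NumberField E] : Prop :=
  ∃ α ∈ kerDelta n E, ∃ (σ : E →+* ℂ) (g : E ≃ₐ[ℚ] E), orderOf g = p ∧
    value n (σ.comp (g : E →+* E)) α ≠ value n σ α

theorem isAbel_of_isCyc {k F : Type} [Field k] [NumberField k] [Field F] [NumberField F]
    [Algebra k F] (h : IsCyc k F) : IsAbel k F := by
  refine ⟨h.1, ?_⟩
  have := h.2
  let _ : CommGroup (F ≃ₐ[k] F) := IsCyclic.commGroup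
  exact fun a b => mul_comm a b

theorem pub_one {n : ℕ} (hn : 3 ≤ n) (k F : Type) [Field k] [NumberField k] [Field F]
    [NumberField F] [Algebra k F] (h : IsAbel k F) (ι : InfinitePlace k → (F →+* ℂ))
    (hι : Above ι) : Nonzero n F ↔ ∀ χ : (F ≃ₐ[k] F) →* ℂˣ, Crit n ι χ := by
  have := h.1
  exact nonzero_abelian h.2 hn hι

theorem pub_two {n : ℕ} (hn : 3 ≤ n) (k : Type) [Field k] [NumberField k] :
    AbelNonzero n k ↔ ∀ (E : Type) [Field E] [NumberField E] [Algebra k E],
      IsCyc k E → InjCrit n k E := by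
  constructor
  · intro h E _ _ _ hE ι hι χ _
    exact crit_of_nonzero (by omega) hι (h E (isAbel_of_isCyc hE)) χ
  · intro h F _ _ _ hF
    have := hF.1
    exact nonzero_of_cyclic hn hF.2 fun E hG hcyc ι hι χ hχ => h E ⟨hG, hcyc⟩ ι hι χ hχ

theorem pub_three {n : ℕ} (hn : 3 ≤ n) (hK : Known n) (k : Type) [Field k] [NumberField k] :
    AbelZagier n k ↔ ∀ (E : Type) [Field E] [NumberField E] [Algebra k E],
      IsCyc k E → OneInjCrit n k E := by
  constructor
  · intro h E _ _ _ hE
    exact cyclicCrit_of_nonzero (by omega) hE.2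
      (nonzero_of_zagier (by omega) (h E (isAbel_of_isCyc hE)))
  · intro h F _ _ _ hF
    have := hF.1
    obtain ⟨b, hb⟩ := hK F
    exact zagier_of_cyclic_rel hn hF.2 hb fun E hG hcyc => h E ⟨hG, hcyc⟩

theorem pub_four {n : ℕ} (hn : 3 ≤ n) (hK : Known n) :
    AbelZagier n ℚ ↔ ∀ (E : Type) [Field E] [NumberField E],
      IsCyc ℚ E → Signature n E → OneElement n E := by
  constructor
  · intro h E _ _ hE hs
    have := hE.1
    exact oneElement_of_zagier hn hE.2 hs (h E (isAbel_of_isCyc hE))
  · intro h F _ _ inst hF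
    have hinst : inst = DivisionRing.toRatAlgebra := Subsingleton.elim _ _
    subst hinst
    have := hF.1
    obtain ⟨b, hb⟩ := hK F
    exact zagier_of_cyclic hn hF.2 hb fun E hG hcyc hs => h E ⟨hG, hcyc⟩ hs

theorem pub_five {n p a : ℕ} (hp : p.Prime) (E : Type) [Field E] [NumberField E]
    (h : IsCyc ℚ E) (hd : Module.finrank ℚ E = p ^ (a + 1)) :
    OneElement n E ↔ DiffElement n p E := by
  have := h.1
  exact oneElement_iff h.2 hp (by rw [IsGalois.card_aut_eq_finrank, hd])

end Pool.Agent.Q20.ZG
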