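import Pool.Agent.Q20.ZG.Gal
import Pool.Agent.Q20.ZG.Chr
import Pool.Agent.H977R3.CM.Aut

/-!
# Abelian extensions of number fields
-/

set_option autoImplicit false
set_option linter.unusedSectionVars false

namespace Pool.Agent.Q20.ZG

open NumberField H39Gon Polynomial

/-- primitive roots of unity are conjugate -/
theorem exists_root_aut {n : ℕ} (hn : 0 < n) {z z' : ℂ} (hz : IsPrimitiveRoot z n)
    (hz' : IsPrimitiveRoot z' n) : ∃ σ : ℂ ≃+* ℂ, σ z = z' := by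
  set p : ℚ[X] := cyclotomic n ℚ with hp
  have hp0 : p ≠ 0 := cyclotomic_ne_zero n ℚ
  have hspl : (p.map (algebraMap ℚ ℂ)).Splits := IsAlgClosed.splits _
  have hsf : p.IsSplittingField ℚ (IntermediateField.adjoin ℚ (p.rootSet ℂ)) :=
    IntermediateField.adjoin_rootSet_isSplittingField hspl
  let L := IntermediateField.adjoin ℚ (p.rootSet ℂ)
  have _ : Normal ℚ L := Normal.of_isSplittingField p
  have e1 : cyclotomic n ℚ = minpoly ℚ z := cyclotomic_eq_minpoly_rat hz hn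
  have e2 : cyclotomic n ℚ = minpoly ℚ z' := cyclotomic_eq_minpoly_rat hz' hn
  have hzL : z ∈ L := by
    apply IntermediateField.subset_adjoin
    rw [Polynomial.mem_rootSet]
    exact ⟨hp0, by rw [hp, e1]; exact minpoly.aeval ℚ z⟩
  have hzL' : z' ∈ L := by
    apply IntermediateField.subset_adjoin
    rw [Polynomial.mem_rootSet]
    exact ⟨hp0, by rw [hp, e2]; exact minpoly.aeval ℚ z'⟩
  have h1 : IsConjRoot ℚ (⟨z, hzL⟩ : L) ⟨z', hzL'⟩ := by
    unfold IsConjRoot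
    have h2 : minpoly ℚ (⟨z, hzL⟩ : L) = minpoly ℚ z :=
      (minpoly.algebraMap_eq (algebraMap L ℂ).injective (⟨z, hzL⟩ : L)).symm
    have h3 : minpoly ℚ (⟨z', hzL'⟩ : L) = minpoly ℚ z' :=
      (minpoly.algebraMap_eq (algebraMap L ℂ).injective (⟨z', hzL'⟩ : L)).symm
    rw [h2, h3, ← e1, ← e2]
  obtain ⟨g, hg⟩ := (isConjRoot_iff_exists_algEquiv).1 h1
  obtain ⟨σ, hσ⟩ := Pool.Agent.H977R3.CM.exists_aut (L.val : L →+* ℂ) (g.symm : L ≃+* L)
  refine ⟨σ, ?_⟩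
  have h2 := hσ ⟨z, hzL⟩
  refine h2.trans ?_
  have h3 : (g.symm : L ≃+* L) ⟨z, hzL⟩ = ⟨z', hzL'⟩ := by
    change g.symm ⟨z, hzL⟩ = _
    rw [← hg, AlgEquiv.symm_apply_apply]
  rw [h3]
  rfl

/-- characters with the same kernel are conjugate -/
theorem exists_conj {G : Type} [Group G] [Finite G] {χ χ' : G →* ℂˣ} (h : χ.ker = χ'.ker) :
    ∃ σ : ℂ ≃+* ℂ, ∀ g, σ ((χ g : ℂˣ) : ℂ) = ((χ' g : ℂˣ) : ℂ) := by
  classical
  have hfin : Finite χ.range := Finite.of_surjective χ.rangeRestrict χ.rangeRestrict_surjective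
  obtain ⟨⟨z, g₀, rfl⟩, hz⟩ := (inferInstance : IsCyclic χ.range)
  have hk : ∀ g : G, ∃ k : ℕ, χ g = χ g₀ ^ k := by
    intro g
    obtain ⟨k, hk⟩ := (mem_powers_iff_mem_zpowers (G := χ.range)).2 (hz ⟨χ g, g, rfl⟩)
    exact ⟨k, (congrArg Subtype.val hk).symm⟩
  have hker : ∀ g : G, ∀ j : ℕ, χ g = χ g₀ ^ j ↔ χ' g = χ' g₀ ^ j := by
    intro g j
    have h1 : ∀ ψ : G →* ℂˣ, ψ g = ψ g₀ ^ j ↔ g * (g₀ ^ j)⁻¹ ∈ ψ.ker := by
      intro ψ
      rw [MonoidHom.mem_ker, map_mul, map_inv, map_pow, mul_inv_eq_one]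
    rw [h1, h1, h]
  have hord : orderOf (χ g₀) = orderOf (χ' g₀) := by
    refine orderOf_eq_orderOf_iff.2 fun j => ?_
    have h1 := hker 1 j
    rw [map_one, map_one] at h1
    exact ⟨fun h2 => (h1.1 h2.symm).symm, fun h2 => (h1.2 h2.symm).symm⟩
  have hpos : 0 < orderOf (χ g₀) := by
    have : IsOfFinOrder (χ g₀) := χ.isOfFinOrder (isOfFinOrder_of_finite g₀)
    exact this.orderOf_pos
  have h1 : IsPrimitiveRoot ((χ g₀ : ℂˣ) : ℂ) (orderOf (χ g₀)) := by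
    rw [← orderOf_units]
    exact IsPrimitiveRoot.orderOf _
  have h2 : IsPrimitiveRoot ((χ' g₀ : ℂˣ) : ℂ) (orderOf (χ g₀)) := by
    rw [hord, ← orderOf_units]
    exact IsPrimitiveRoot.orderOf _
  obtain ⟨σ, hσ⟩ := exists_root_aut hpos h1 h2
  refine ⟨σ, fun g => ?_⟩
  obtain ⟨j, hj⟩ := hk g
  rw [(hker g j).1 hj, hj, Units.val_pow_eq_pow_val, Units.val_pow_eq_pow_val, map_pow, hσ]

section
variable {n : ℕ} {k F : Type} [Field k] [NumberField k] [Field F] [NumberField F] [Algebra k F]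

/-- the sum `∑_g χ(g) f(ι ∘ g)` over `Gal(F/k)` -/
noncomputable def Sr (ι : F →+* ℂ) (χ : (F ≃ₐ[k] F) →* ℂˣ) (f : (F →+* ℂ) → ℝ) : ℂ :=
  ∑ g : F ≃ₐ[k] F, ((χ g : ℂˣ) : ℂ) * ((f (ι.comp (g : F →+* F)) : ℝ) : ℂ)

/-- if complex conjugation of `ι` is an element of `Gal(F/k)`, then `χ` takes the value
`(-1)^(n-1)` at it -/
def RightR (n : ℕ) (ι : F →+* ℂ) (χ : (F ≃ₐ[k] F) →* ℂˣ) : Prop :=
  ∀ c : F ≃ₐ[k] F, ComplexEmbedding.conjugate ι = ι.comp (c : F →+* F) →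
    ((χ c : ℂˣ) : ℂ) = (-1) ^ (n - 1)

/-- the infinite places of `k` at which `χ` has the right parity -/
abbrev J (n : ℕ) (ι : InfinitePlace k → (F →+* ℂ)) (χ : (F ≃ₐ[k] F) →* ℂˣ) : Type :=
  {v : InfinitePlace k // RightR n (ι v) χ}

noncomputable instance fintypeJ (n : ℕ) (ι : InfinitePlace k → (F →+* ℂ))
    (χ : (F ≃ₐ[k] F) →* ℂˣ) : Fintype (J n ι χ) := Fintype.ofFinite _

noncomputable instance decEqJ (n : ℕ) (ι : InfinitePlace k → (F →+* ℂ))
    (χ : (F ≃ₐ[k] F) →* ℂˣ) : DecidableEq (J n ι χ) := Classical.decEq _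

/-- the determinant of the sums `∑_g χ(g) 𝓛_n(ι_v(g α_u))` -/
noncomputable abbrev detJ (n : ℕ) (ι : InfinitePlace k → (F →+* ℂ)) (χ : (F ≃ₐ[k] F) →* ℂˣ)
    (α : J n ι χ → ZP F) : ℂ :=
  (Matrix.of fun u v : J n ι χ => Sr (ι v) χ fun σ => value n σ (α u)).det

/-- elements of `ker δ_n` whose determinant for the character `χ` is nonzero -/
def Crit (n : ℕ) (ι : InfinitePlace k → (F →+* ℂ)) (χ : (F ≃ₐ[k] F) →* ℂˣ) : Prop :=
  ∃ α : J n ι χ → ZP F, (∀ u, α u ∈ kerDelta n F) ∧ detJ n ι χ α ≠ 0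

/-- no linear relation between the sums at `χ` of the functions of `A` -/
def FullR (n : ℕ) (ι : InfinitePlace k → (F →+* ℂ)) (χ : (F ≃ₐ[k] F) →* ℂˣ)
    (A : Set ((F →+* ℂ) → ℝ)) : Prop :=
  ∀ a : J n ι χ → ℂ, (∀ f ∈ A, ∑ v, a v * Sr (ι v) χ f = 0) → a = 0

theorem comp_injr (ι : F →+* ℂ) {g h : F ≃ₐ[k] F}
    (e : ι.comp (g : F →+* F) = ι.comp (h : F →+* F)) : g = h := by
  ext x
  exact ι.injective (congrArg (fun s : F →+* ℂ => s x) e)

theorem conj_compr {ι : F →+* ℂ} {c : F ≃ₐ[k] F}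
    (hc : ComplexEmbedding.conjugate ι = ι.comp (c : F →+* F)) (g : F ≃ₐ[k] F) :
    ComplexEmbedding.conjugate (ι.comp (g : F →+* F)) =
      ι.comp ((c * g : F ≃ₐ[k] F) : F →+* F) := by
  have h1 : ι.comp ((c * g : F ≃ₐ[k] F) : F →+* F) = (ι.comp (c : F →+* F)).comp (g : F →+* F) :=
    rfl
  rw [h1, ← hc]
  rfl

theorem cc_sqr {ι : F →+* ℂ} {c : F ≃ₐ[k] F}
    (hc : ComplexEmbedding.conjugate ι = ι.comp (c : F →+* F)) : c * c = 1 := by
  apply comp_injr ι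
  rw [← conj_compr hc, ← hc]
  ext x
  simp

theorem chr_ccr {ι : F →+* ℂ} {c : F ≃ₐ[k] F}
    (hc : ComplexEmbedding.conjugate ι = ι.comp (c : F →+* F)) (χ : (F ≃ₐ[k] F) →* ℂˣ) :
    ((χ c : ℂˣ) : ℂ) = 1 ∨ ((χ c : ℂˣ) : ℂ) = -1 := by
  have h1 : ((χ c : ℂˣ) : ℂ) * ((χ c : ℂˣ) : ℂ) = 1 := by
    rw [← Units.val_mul, ← map_mul, cc_sqr hc, map_one, Units.val_one]
  exact mul_self_eq_one_iff.1 h1

theorem sign_of_not {ι : F →+* ℂ} {c : F ≃ₐ[k] F}
    (hc : ComplexEmbedding.conjugate ι = ι.comp (c : F →+* F)) {χ : (F ≃ₐ[k] F) →* ℂˣ}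
    (h : ¬ RightR n ι χ) : (-1 : ℂ) ^ (n - 1) * ((χ c : ℂˣ) : ℂ) = -1 := by
  have h4 : ((χ c : ℂˣ) : ℂ) ≠ (-1) ^ (n - 1) := by
    intro h5
    refine h fun c' hc' => ?_
    have h6 : c' = c := comp_injr ι (hc'.symm.trans hc)
    rw [h6, h5]
  rcases neg_one_pow_eq_or ℂ (n - 1) with h5 | h5 <;>
    rcases chr_ccr hc χ with h6 | h6
  · exact absurd (h6.trans h5.symm) h4
  · rw [h5, h6]
    norm_num
  · rw [h5, h6]
    norm_num
  · exact absurd (h6.trans h5.symm) h4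

theorem Sr_translate (ι : F →+* ℂ) (χ : (F ≃ₐ[k] F) →* ℂˣ) (f : (F →+* ℂ) → ℝ)
    (s : F ≃ₐ[k] F) : ∑ g : F ≃ₐ[k] F, ((χ g : ℂˣ) : ℂ) *
      ((f (ι.comp ((s * g : F ≃ₐ[k] F) : F →+* F)) : ℝ) : ℂ) =
      (((χ s : ℂˣ) : ℂ))⁻¹ * Sr ι χ f := by
  rw [Sr, Finset.mul_sum]
  refine Finset.sum_equiv (Equiv.mulLeft s) (fun _ => by simp) fun g _ => ?_
  rw [Equiv.coe_mulLeft, map_mul, Units.val_mul, ← mul_assoc, ← mul_assoc,
    inv_mul_cancel₀ (Units.ne_zero _), one_mul]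

/-- the sums vanish at the places of the wrong parity -/
theorem Sr_zero {ι : F →+* ℂ} {χ : (F ≃ₐ[k] F) →* ℂˣ} (h : ¬ RightR n ι χ)
    {f : (F →+* ℂ) → ℝ} (hf : IsPar n f) : Sr ι χ f = 0 := by
  obtain ⟨c, hc⟩ : ∃ c : F ≃ₐ[k] F, ComplexEmbedding.conjugate ι = ι.comp (c : F →+* F) := by
    by_contra hcon
    push Not at hcon
    exact h fun c hc => absurd hc (hcon c)
  have h1 := Sr_translate ι χ f c
  have h2 : ∀ g : F ≃ₐ[k] F, ((χ g : ℂˣ) : ℂ) *
      ((f (ι.comp ((c * g : F ≃ₐ[k] F) : F →+* F)) : ℝ) : ℂ) =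
      (-1) ^ (n - 1) * (((χ g : ℂˣ) : ℂ) * ((f (ι.comp (g : F →+* F)) : ℝ) : ℂ)) := by
    intro g
    rw [← conj_compr hc, hf]
    push_cast
    ring
  rw [Finset.sum_congr rfl fun g _ => h2 g, ← Finset.mul_sum] at h1
  change (-1 : ℂ) ^ (n - 1) * Sr ι χ f = _ at h1
  have h3 := sign_of_not hc h
  have h4 : ((χ c : ℂˣ) : ℂ) * ((-1 : ℂ) ^ (n - 1) * Sr ι χ f) = Sr ι χ f := by
    rw [h1, ← mul_assoc, mul_inv_cancel₀ (Units.ne_zero _), one_mul]
  have h5 : ((χ c : ℂˣ) : ℂ) * ((-1 : ℂ) ^ (n - 1) * Sr ι χ f) =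
      ((-1 : ℂ) ^ (n - 1) * ((χ c : ℂˣ) : ℂ)) * Sr ι χ f := by ring
  rw [h5, h3] at h4
  have h6 : (2 : ℂ) * Sr ι χ f = 0 := by
    calc (2 : ℂ) * Sr ι χ f = Sr ι χ f - (-1) * Sr ι χ f := by ring
      _ = 0 := by rw [h4, sub_self]
  exact (mul_eq_zero.1 h6).resolve_left two_ne_zero

/-- coordinates at the places above `v` -/
theorem exists_coord [IsGalois k F] {ι : InfinitePlace k → (F →+* ℂ)}
    (hι : ∀ v, (InfinitePlace.mk (ι v)).comap (algebraMap k F) = v) (w : InfinitePlace F) :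
    ∃ (s : F ≃ₐ[k] F) (e : ℝ), e ≠ 0 ∧
      InfinitePlace.mk ((ι (w.comap (algebraMap k F))).comp (s : F →+* F)) = w ∧
      ∀ f : (F →+* ℂ) → ℝ, IsPar n f → ∀ g : F ≃ₐ[k] F, f (w.embedding.comp (g : F →+* F)) =
        e * f ((ι (w.comap (algebraMap k F))).comp ((s * g : F ≃ₐ[k] F) : F →+* F)) := by
  obtain ⟨σ, hσ⟩ := InfinitePlace.exists_smul_eq_of_comap_eq (k := k)
    (w := InfinitePlace.mk (ι (w.comap (algebraMap k F)))) (w' := w)
    (hι (w.comap (algebraMap k F)))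
  have h1 : InfinitePlace.mk ((ι (w.comap (algebraMap k F))).comp
      ((σ.symm : F ≃ₐ[k] F) : F →+* F)) = w := hσ
  have h2 : InfinitePlace.mk ((ι (w.comap (algebraMap k F))).comp
      ((σ.symm : F ≃ₐ[k] F) : F →+* F)) = InfinitePlace.mk w.embedding := by
    rw [h1, InfinitePlace.mk_embedding]
  rcases InfinitePlace.mk_eq_iff.1 h2 with h3 | h3
  · refine ⟨σ.symm, 1, one_ne_zero, h1, fun f _ g => ?_⟩
    rw [one_mul, ← h3]
    rfl
  · refine ⟨σ.symm, (-1) ^ (n - 1), pow_ne_zero _ (by norm_num), h1, fun f hf g => ?_⟩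
    rw [← hf, ← h3]
    rfl

open Classical in
/-- grouping by the places of `k` -/
theorem group_J {ι : InfinitePlace k → (F →+* ℂ)} {χ : (F ≃ₐ[k] F) →* ℂˣ}
    (u : Idx n F → InfinitePlace k) (c : Idx n F → ℂ) {f : (F →+* ℂ) → ℝ} (hf : IsPar n f) :
    ∑ v : J n ι χ, (∑ w, if u w = v.1 then c w else 0) * Sr (ι v) χ f =
      ∑ w, c w * Sr (ι (u w)) χ f := by
  simp only [Finset.sum_mul]
  rw [Finset.sum_comm]
  refine Finset.sum_congr rfl fun w _ => ?_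
  by_cases h : RightR n (ι (u w)) χ
  · rw [Finset.sum_eq_single (⟨u w, h⟩ : J n ι χ)]
    · rw [if_pos rfl]
    · intro v _ hv
      rw [if_neg fun h1 => hv (Subtype.ext h1.symm), zero_mul]
    · intro h1
      exact absurd (Finset.mem_univ _) h1
  · rw [Sr_zero h hf, mul_zero]
    refine Finset.sum_eq_zero fun v _ => ?_
    by_cases h1 : u w = v.1
    · exact absurd (h1 ▸ v.2) h
    · rw [if_neg h1, zero_mul]

/-- the Fourier lemma -/
theorem full_of_fullR [IsGalois k F] (hc : ∀ a b : F ≃ₐ[k] F, a * b = b * a) (hn : 0 < n)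
    {ι : InfinitePlace k → (F →+* ℂ)}
    (hι : ∀ v, (InfinitePlace.mk (ι v)).comap (algebraMap k F) = v)
    {A : Set ((F →+* ℂ) → ℝ)} (hp : ∀ f ∈ A, IsPar n f)
    (hA : ∀ f ∈ A, ∀ g : F ≃ₐ[k] F, (fun σ : F →+* ℂ => f (σ.comp (g : F →+* F))) ∈ A)
    (h : ∀ χ, FullR n ι χ A) : Full n F A := by
  classical
  have := finite_chr (F ≃ₐ[k] F)
  have := Fintype.ofFinite ((F ≃ₐ[k] F) →* ℂˣ)
  intro l hl
  let u : Idx n F → InfinitePlace k := fun w => w.1.comap (algebraMap k F)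
  choose s e he hs hf using fun w : Idx n F => exists_coord (n := n) hι w.1
  have h1 : ∀ (χ : (F ≃ₐ[k] F) →* ℂˣ) (v : J n ι χ),
      ∑ w, (if u w = v.1 then (l w : ℂ) * (e w : ℂ) * (((χ (s w) : ℂˣ) : ℂ))⁻¹ else 0) = 0 := by
    intro χ v
    have h2 := h χ (fun v => ∑ w, if u w = v.1 then
      (l w : ℂ) * (e w : ℂ) * (((χ (s w) : ℂˣ) : ℂ))⁻¹ else 0) fun f hfA => by
        rw [group_J u _ (hp f hfA)]
        have h3 : ∑ g : F ≃ₐ[k] F, ((χ g : ℂˣ) : ℂ) *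
            ∑ w, (l w : ℂ) * ((f (w.1.embedding.comp (g : F →+* F)) : ℝ) : ℂ) = 0 := by
          refine Finset.sum_eq_zero fun g _ => ?_
          have h4 := hl _ (hA f hfA g)
          have h5 : ∑ w, (l w : ℂ) * ((f (w.1.embedding.comp (g : F →+* F)) : ℝ) : ℂ) = 0 := by
            exact_mod_cast h4
          rw [h5, mul_zero]
        simp only [Finset.mul_sum] at h3
        rw [Finset.sum_comm] at h3
        rw [← h3]
        refine Finset.sum_congr rfl fun w _ => ?_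
        rw [mul_assoc, ← Sr_translate, Finset.mul_sum]
        refine Finset.sum_congr rfl fun g _ => ?_
        rw [hf w f (hp f hfA) g, Complex.ofReal_mul]
        ring
    exact congrFun h2 v
  have hcard : (Fintype.card (F ≃ₐ[k] F) : ℂ) ≠ 0 := by exact_mod_cast Fintype.card_ne_zero
  have hinj : ∀ w w' : Idx n F, u w = u w' → s w = s w' → w = w' := by
    intro w w' h2 h3
    apply Subtype.ext
    rw [← hs w, ← hs w']
    change InfinitePlace.mk ((ι (u w)).comp _) = InfinitePlace.mk ((ι (u w')).comp _)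
    rw [h2, h3]
  funext w₀
  by_cases hcc : ∃ c : F ≃ₐ[k] F, ComplexEmbedding.conjugate (ι (u w₀)) =
      (ι (u w₀)).comp (c : F →+* F)
  · obtain ⟨c, hcc⟩ := hcc
    have h2 : ∀ χ : (F ≃ₐ[k] F) →* ℂˣ, ∑ w, (if u w = u w₀ then (l w : ℂ) * (e w : ℂ) *
        ((((χ (s w) : ℂˣ) : ℂ))⁻¹ + (-1) ^ (n - 1) * (((χ (c * s w) : ℂˣ) : ℂ))⁻¹) else 0) = 0 := by
      intro χ
      by_cases hr : RightR n (ι (u w₀)) χ
      · have h3 := h1 χ ⟨u w₀, hr⟩
        have h4 : ∀ w : Idx n F, (if u w = u w₀ then (l w : ℂ) * (e w : ℂ) *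
            ((((χ (s w) : ℂˣ) : ℂ))⁻¹ + (-1) ^ (n - 1) * (((χ (c * s w) : ℂˣ) : ℂ))⁻¹) else 0) =
            (1 + (-1) ^ (n - 1) * (((χ c : ℂˣ) : ℂ))⁻¹) *
            (if u w = u w₀ then (l w : ℂ) * (e w : ℂ) * (((χ (s w) : ℂˣ) : ℂ))⁻¹ else 0) := by
          intro w
          by_cases hw : u w = u w₀
          · rw [if_pos hw, if_pos hw, map_mul, Units.val_mul, mul_inv]
            ring
          · rw [if_neg hw, if_neg hw, mul_zero]
        rw [Finset.sum_congr rfl fun w _ => h4 w, ← Finset.mul_sum, h3, mul_zero]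
      · have h3 := sign_of_not hcc hr
        have h4 : (-1 : ℂ) ^ (n - 1) * (((χ c : ℂˣ) : ℂ))⁻¹ = -1 := by
          rcases chr_ccr hcc χ with h5 | h5
          · rw [h5] at h3 ⊢
            rw [inv_one]
            exact h3
          · rw [h5] at h3 ⊢
            rw [inv_neg_one]
            exact h3
        refine Finset.sum_eq_zero fun w _ => ?_
        by_cases hw : u w = u w₀
        · rw [if_pos hw, map_mul, Units.val_mul, mul_inv, ← mul_assoc, h4]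
          ring
        · rw [if_neg hw]
    have h3 : ∑ χ : (F ≃ₐ[k] F) →* ℂˣ, ((χ (s w₀) : ℂˣ) : ℂ) *
        ∑ w, (if u w = u w₀ then (l w : ℂ) * (e w : ℂ) *
        ((((χ (s w) : ℂˣ) : ℂ))⁻¹ + (-1) ^ (n - 1) * (((χ (c * s w) : ℂˣ) : ℂ))⁻¹) else 0) = 0 :=
      Finset.sum_eq_zero fun χ _ => by rw [h2, mul_zero]
    simp only [Finset.mul_sum] at h3
    rw [Finset.sum_comm] at h3
    have h4 : ∀ w : Idx n F, ∑ χ : (F ≃ₐ[k] F) →* ℂˣ, ((χ (s w₀) : ℂˣ) : ℂ) *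
        (if u w = u w₀ then (l w : ℂ) * (e w : ℂ) *
        ((((χ (s w) : ℂˣ) : ℂ))⁻¹ + (-1) ^ (n - 1) * (((χ (c * s w) : ℂˣ) : ℂ))⁻¹) else 0) =
        if u w = u w₀ then (l w : ℂ) * (e w : ℂ) *
        ((if s w = s w₀ then (Fintype.card (F ≃ₐ[k] F) : ℂ) else 0) +
        (-1) ^ (n - 1) * (if c * s w = s w₀ then (Fintype.card (F ≃ₐ[k] F) : ℂ) else 0)) else 0 := by
      intro w
      by_cases hw : u w = u w₀
      · rw [if_pos hw, ← orth2 hc (s w) (s w₀), ← orth2 hc (c * s w) (s w₀), Finset.mul_sum,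
          ← Finset.sum_add_distrib, Finset.mul_sum]
        refine Finset.sum_congr rfl fun χ _ => ?_
        rw [if_pos hw]
        ring
      · rw [if_neg hw]
        refine Finset.sum_eq_zero fun χ _ => ?_
        rw [if_neg hw, mul_zero]
    rw [Finset.sum_congr rfl fun w _ => h4 w, Finset.sum_eq_single w₀] at h3
    · rw [if_pos rfl, if_pos rfl] at h3
      have he0 : (e w₀ : ℂ) ≠ 0 := by exact_mod_cast he w₀
      by_cases h1c : c = 1
      · have hreal : InfinitePlace.IsReal w₀.1 := by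
          rw [← hs w₀, InfinitePlace.isReal_mk_iff]
          change ComplexEmbedding.conjugate _ = _
          have h5 := conj_compr hcc (s w₀)
          rw [h1c, one_mul] at h5
          exact h5
        have hodd : n % 2 = 1 := by
          rcases w₀.2 with h5 | h5
          · exact h5
          · exact absurd h5 (InfinitePlace.not_isComplex_iff_isReal.2 hreal)
        have heven : Even (n - 1) := ⟨(n - 1) / 2, by omega⟩
        rw [h1c, one_mul, if_pos rfl, heven.neg_one_pow, one_mul, ← two_mul] at h3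
        have h5 : (l w₀ : ℂ) = 0 := by
          have h6 := (mul_eq_zero.1 h3).resolve_right (mul_ne_zero two_ne_zero hcard)
          exact (mul_eq_zero.1 h6).resolve_right he0
        exact_mod_cast h5
      · have h5 : c * s w₀ ≠ s w₀ := fun h => h1c (mul_eq_right.1 h)
        rw [if_neg h5, mul_zero, add_zero] at h3
        have h6 := (mul_eq_zero.1 h3).resolve_right hcard
        have h7 : (l w₀ : ℂ) = 0 := (mul_eq_zero.1 h6).resolve_right he0
        exact_mod_cast h7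
    · intro w _ hw
      by_cases hu : u w = u w₀
      · rw [if_pos hu, if_neg fun h5 => hw (hinj w w₀ hu h5), if_neg, mul_zero, add_zero, mul_zero]
        intro h5
        refine hw (Subtype.ext ?_)
        rw [← hs w, ← hs w₀]
        change InfinitePlace.mk ((ι (u w)).comp _) = InfinitePlace.mk ((ι (u w₀)).comp _)
        rw [hu, ← h5, ← conj_compr hcc, InfinitePlace.mk_conjugate_eq]
      · rw [if_neg hu]
    · intro h5
      exact absurd (Finset.mem_univ _) h5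
  · have hr : ∀ χ : (F ≃ₐ[k] F) →* ℂˣ, RightR n (ι (u w₀)) χ := fun χ c hc' =>
      absurd ⟨c, hc'⟩ hcc
    have h3 : ∑ χ : (F ≃ₐ[k] F) →* ℂˣ, ((χ (s w₀) : ℂˣ) : ℂ) *
        ∑ w, (if u w = u w₀ then (l w : ℂ) * (e w : ℂ) * (((χ (s w) : ℂˣ) : ℂ))⁻¹ else 0) = 0 :=
      Finset.sum_eq_zero fun χ _ => by rw [h1 χ ⟨u w₀, hr χ⟩, mul_zero]
    simp only [Finset.mul_sum] at h3
    rw [Finset.sum_comm] at h3
    have h4 : ∀ w : Idx n F, ∑ χ : (F ≃ₐ[k] F) →* ℂˣ, ((χ (s w₀) : ℂˣ) : ℂ) *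
        (if u w = u w₀ then (l w : ℂ) * (e w : ℂ) * (((χ (s w) : ℂˣ) : ℂ))⁻¹ else 0) =
        if u w = u w₀ then (l w : ℂ) * (e w : ℂ) *
        (if s w = s w₀ then (Fintype.card (F ≃ₐ[k] F) : ℂ) else 0) else 0 := by
      intro w
      by_cases hw : u w = u w₀
      · rw [if_pos hw, ← orth2 hc (s w) (s w₀), Finset.mul_sum]
        refine Finset.sum_congr rfl fun χ _ => ?_
        rw [if_pos hw]
        ring
      · rw [if_neg hw]
        refine Finset.sum_eq_zero fun χ _ => ?_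
        rw [if_neg hw, mul_zero]
    rw [Finset.sum_congr rfl fun w _ => h4 w, Finset.sum_eq_single w₀] at h3
    · rw [if_pos rfl, if_pos rfl] at h3
      have he0 : (e w₀ : ℂ) ≠ 0 := by exact_mod_cast he w₀
      have h6 := (mul_eq_zero.1 h3).resolve_right hcard
      have h7 : (l w₀ : ℂ) = 0 := (mul_eq_zero.1 h6).resolve_right he0
      exact_mod_cast h7
    · intro w _ hw
      by_cases hu : u w = u w₀
      · rw [if_pos hu, if_neg fun h5 => hw (hinj w w₀ hu h5), mul_zero]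
      · rw [if_neg hu]
    · intro h5
      exact absurd (Finset.mem_univ _) h5

end

end Pool.Agent.Q20.ZG
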