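import Pool.Agent.Q20.ZG.Rel

/-!
# Abelian extensions of number fields: the criterion
-/

set_option autoImplicit false
set_option linter.unusedSectionVars false

namespace Pool.Agent.Q20.ZG

open NumberField H39Gon

section
variable {n : ℕ} {k F : Type} [Field k] [NumberField k] [Field F] [NumberField F] [Algebra k F]

/-- the sum as a real-linear map -/
noncomputable def SrL (ι : F →+* ℂ) (χ : (F ≃ₐ[k] F) →* ℂˣ) : ((F →+* ℂ) → ℝ) →ₗ[ℝ] ℂ where
  toFun := Sr ι χ
  map_add' := fun x y => by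
    rw [Sr, Sr, Sr, ← Finset.sum_add_distrib]
    refine Finset.sum_congr rfl fun g _ => ?_
    rw [Pi.add_apply, Complex.ofReal_add]
    ring
  map_smul' := fun r x => by
    rw [RingHom.id_apply, Complex.real_smul, Sr, Sr, Finset.mul_sum]
    refine Finset.sum_congr rfl fun g _ => ?_
    rw [Pi.smul_apply, smul_eq_mul, Complex.ofReal_mul]
    ring

theorem zero_of_span {A : Set ((F →+* ℂ) → ℝ)} (L : ((F →+* ℂ) → ℝ) →ₗ[ℝ] ℂ)
    (h : ∀ f ∈ A, L f = 0) {f : (F →+* ℂ) → ℝ} (hf : f ∈ Submodule.span ℝ A) : L f = 0 := by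
  have h1 : Submodule.span ℝ A ≤ LinearMap.ker L := by
    rw [Submodule.span_le]
    exact h
  exact h1 hf

/-- the combination of the sums -/
noncomputable def cmb {ι : InfinitePlace k → (F →+* ℂ)} {χ : (F ≃ₐ[k] F) →* ℂˣ}
    (a : J n ι χ → ℂ) : ((F →+* ℂ) → ℝ) →ₗ[ℝ] ℂ where
  toFun := fun f => ∑ v, a v * Sr (ι v) χ f
  map_add' := fun x y => by
    rw [← Finset.sum_add_distrib]
    refine Finset.sum_congr rfl fun v _ => ?_
    have h1 : Sr (ι v) χ (x + y) = Sr (ι v) χ x + Sr (ι v) χ y := map_add (SrL (ι v) χ) x y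
    rw [h1, mul_add]
  map_smul' := fun r x => by
    rw [RingHom.id_apply, Finset.smul_sum]
    refine Finset.sum_congr rfl fun v _ => ?_
    have h1 : Sr (ι v) χ (r • x) = r • Sr (ι v) χ x := map_smul (SrL (ι v) χ) r x
    rw [h1, mul_smul_comm]

/-- the sum of the function supported by the place of `ι` -/
theorem Sr_spot_ne {ι : F →+* ℂ} {χ : (F ≃ₐ[k] F) →* ℂˣ} (hr : RightR n ι χ) :
    Sr ι χ (spot n ι) ≠ 0 := by
  classical
  have h1 : ∀ g : F ≃ₐ[k] F, ((χ g : ℂˣ) : ℂ) *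
      ((spot n ι (ι.comp (g : F →+* F)) : ℝ) : ℂ) =
      if InfinitePlace.mk ι = InfinitePlace.mk (ι.comp (g : F →+* F)) then 1 else 0 := by
    intro g
    by_cases h : InfinitePlace.mk ι = InfinitePlace.mk (ι.comp (g : F →+* F))
    · rw [if_pos h]
      by_cases h2 : ι.comp (g : F →+* F) = ι
      · have h3 : g = 1 := comp_injr ι (h2.trans rfl)
        have h4 : spot n ι (ι.comp (g : F →+* F)) = 1 := by
          unfold spot
          rw [if_pos h2]
        rw [h4, h3, map_one, Units.val_one, Complex.ofReal_one, mul_one]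
      · rcases InfinitePlace.mk_eq_iff.1 h with h3 | h3
        · exact absurd h3.symm h2
        · have h4 : spot n ι (ι.comp (g : F →+* F)) = (-1) ^ (n - 1) := by
            unfold spot
            rw [if_neg h2, if_pos h3.symm]
          rw [h4, hr g h3]
          push_cast
          rw [← mul_pow]
          norm_num
    · rw [if_neg h, spot_zero h, Complex.ofReal_zero, mul_zero]
  rw [Sr, Finset.sum_congr rfl fun g _ => h1 g, Finset.sum_boole]
  have h2 : (1 : F ≃ₐ[k] F) ∈ Finset.univ.filter fun g : F ≃ₐ[k] F =>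
      InfinitePlace.mk ι = InfinitePlace.mk (ι.comp (g : F →+* F)) :=
    Finset.mem_filter.2 ⟨Finset.mem_univ _, rfl⟩
  have h3 := Finset.card_pos.2 ⟨_, h2⟩
  exact_mod_cast h3.ne'

/-- the sums of the function supported by the place of another place of `k` -/
theorem Sr_spot_zero {ι ι' : F →+* ℂ} (χ : (F ≃ₐ[k] F) →* ℂˣ)
    (h : (InfinitePlace.mk ι).comap (algebraMap k F) ≠
      (InfinitePlace.mk ι').comap (algebraMap k F)) : Sr ι' χ (spot n ι) = 0 := by
  refine Finset.sum_eq_zero fun g _ => ?_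
  rw [spot_zero, Complex.ofReal_zero, mul_zero]
  intro h1
  apply h
  rw [h1]
  change InfinitePlace.mk ((ι'.comp (g : F →+* F)).comp (algebraMap k F)) =
    InfinitePlace.mk (ι'.comp (algebraMap k F))
  congr 1
  ext x
  exact congrArg ι' (g.commutes x)

/-- a full set of functions satisfies no relation at `χ` -/
theorem fullR_of_full (hn : 0 < n) {ι : InfinitePlace k → (F →+* ℂ)}
    (hι : ∀ v, (InfinitePlace.mk (ι v)).comap (algebraMap k F) = v)
    {A : Set ((F →+* ℂ) → ℝ)} (hA : Full n F A) (hp : ∀ f ∈ A, IsPar n f)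
    (χ : (F ≃ₐ[k] F) →* ℂˣ) : FullR n ι χ A := by
  intro a ha
  funext v₀
  have hpar : IsPar n (spot n (ι v₀)) := by
    refine spot_par hn ?_
    by_contra hcon
    push Not at hcon
    have h1 : ComplexEmbedding.conjugate (ι v₀) = ι v₀ :=
      InfinitePlace.isReal_mk_iff.1 (InfinitePlace.not_isComplex_iff_isReal.1 hcon.2)
    have h2 := v₀.2 1 (h1.trans rfl)
    have h3 : Odd (n - 1) := ⟨(n - 2) / 2, by omega⟩
    rw [map_one, Units.val_one, h3.neg_one_pow] at h2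
    norm_num at h2
  have h1 : cmb a (spot n (ι v₀)) = 0 :=
    zero_of_span (cmb a) ha (mem_span_of_full hn hA hp hpar)
  change ∑ v, a v * Sr (ι v) χ (spot n (ι v₀)) = 0 at h1
  rw [Finset.sum_eq_single v₀] at h1
  · exact (mul_eq_zero.1 h1).resolve_right (Sr_spot_ne v₀.2)
  · intro v _ hv
    rw [Sr_spot_zero, mul_zero]
    rw [hι, hι]
    exact fun h => hv (Subtype.ext h.symm)
  · intro h
    exact absurd (Finset.mem_univ _) h

theorem Sr_tr (hc : ∀ a b : F ≃ₐ[k] F, a * b = b * a) (ι : F →+* ℂ)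
    (χ : (F ≃ₐ[k] F) →* ℂˣ) (f : (F →+* ℂ) → ℝ) (s : F ≃ₐ[k] F) :
    Sr ι χ (fun σ : F →+* ℂ => f (σ.comp (s : F →+* F))) = (((χ s : ℂˣ) : ℂ))⁻¹ * Sr ι χ f := by
  rw [← Sr_translate]
  refine Finset.sum_congr rfl fun g _ => ?_
  rw [hc s g]
  rfl

variable {b : Idx n F → (F →+* ℂ) → ℝ}

theorem full_b' (hb : IsRegulator n F b) :
    Full n F (Submodule.span ℚ (Set.range b) : Set ((F →+* ℂ) → ℝ)) := by
  intro l hl
  refine Matrix.eq_zero_of_mulVec_eq_zero hb.det_ne (funext fun i => ?_)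
  have h1 := hl (b i) (Submodule.subset_span ⟨i, rfl⟩)
  rw [Pi.zero_apply, ← h1]
  change ∑ j, b i j.1.embedding * l j = _
  exact Finset.sum_congr rfl fun j _ => mul_comm _ _

theorem par_b' (hb : IsRegulator n F b) {f : (F →+* ℂ) → ℝ}
    (hf : f ∈ Submodule.span ℚ (Set.range b)) : IsPar n f := by
  refine Submodule.span_induction (p := fun f _ => IsPar n f) ?_ ?_ ?_ ?_ hf
  · rintro _ ⟨i, rfl⟩
    exact hb.parity i
  · intro σ
    simp
  · intro x y _ _ hx hy σ
    rw [Pi.add_apply, Pi.add_apply, hx σ, hy σ, mul_add]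
  · intro c x _ hx σ
    rw [Pi.smul_apply, Pi.smul_apply, hx σ, Rat.smul_def, Rat.smul_def]
    ring

theorem stable_b' (hb : IsRegulator n F b) (g : F ≃ₐ[k] F) {f : (F →+* ℂ) → ℝ}
    (hf : f ∈ Submodule.span ℚ (Set.range b)) :
    (fun σ : F →+* ℂ => f (σ.comp (g : F →+* F))) ∈ Submodule.span ℚ (Set.range b) := by
  let T : ((F →+* ℂ) → ℝ) →ₗ[ℚ] ((F →+* ℂ) → ℝ) :=
    { toFun := fun f σ => f (σ.comp (g : F →+* F))
      map_add' := fun _ _ => rfl
      map_smul' := fun _ _ => rfl }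
  have h1 : Submodule.span ℚ (Set.range b) ≤ (Submodule.span ℚ (Set.range b)).comap T := by
    rw [Submodule.span_le]
    rintro _ ⟨i, rfl⟩
    exact hb.stable g.toRingEquiv i
  exact h1 hf

/-- **conjugate characters** -/
theorem fullR_transfer [IsGalois k F] (hc : ∀ a b : F ≃ₐ[k] F, a * b = b * a) (hn : 0 < n)
    {ι : InfinitePlace k → (F →+* ℂ)}
    (hι : ∀ v, (InfinitePlace.mk (ι v)).comap (algebraMap k F) = v)
    (hb : IsRegulator n F b) {A : Set ((F →+* ℂ) → ℝ)}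
    (hA : ∀ f ∈ A, f ∈ Submodule.span ℚ (Set.range b)) {χ χ' : (F ≃ₐ[k] F) →* ℂˣ}
    (hk : χ.ker = χ'.ker) (h : FullR n ι χ' A) : FullR n ι χ A := by
  classical
  obtain ⟨σ, hσ⟩ := exists_conj hk
  intro a ha
  let φ : ((F →+* ℂ) → ℝ) → ℂ := fun f => cmb a f
  have hφq : ∀ (r : ℚ) (f : (F →+* ℂ) → ℝ), φ (r • f) = r * φ f := by
    intro r f
    change cmb a (r • f) = r * cmb a f
    have h1 : (r • f) = ((r : ℝ) • f) := by
      funext σ
      rw [Pi.smul_apply, Pi.smul_apply, Rat.smul_def, smul_eq_mul]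
    rw [h1, map_smul, Complex.real_smul]
    push_cast
    rfl
  have hφa : ∀ f g : (F →+* ℂ) → ℝ, φ (f + g) = φ f + φ g := fun f g => map_add (cmb a) f g
  have hφt : ∀ (f : (F →+* ℂ) → ℝ) (s : F ≃ₐ[k] F),
      φ (fun σ : F →+* ℂ => f (σ.comp (s : F →+* F))) = (((χ s : ℂˣ) : ℂ))⁻¹ * φ f := by
    intro f s
    change ∑ v, a v * Sr (ι v) χ (fun σ : F →+* ℂ => f (σ.comp (s : F →+* F))) =
      _ * ∑ v, a v * Sr (ι v) χ f
    rw [Finset.mul_sum]
    refine Finset.sum_congr rfl fun v _ => ?_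
    rw [Sr_tr hc]
    ring
  -- the complex functional
  let Bm : Matrix (Idx n F) (Idx n F) ℂ :=
    (Matrix.of fun i j : Idx n F => b i j.1.embedding).map (algebraMap ℝ ℂ)
  have hBdet : Bm.det ≠ 0 := by
    have h1 : Bm.det = algebraMap ℝ ℂ
        (Matrix.of fun i j : Idx n F => b i j.1.embedding).det :=
      ((algebraMap ℝ ℂ).map_det _).symm
    rw [h1]
    exact (map_ne_zero (algebraMap ℝ ℂ)).2 hb.det_ne
  have hu : IsUnit Bm.det := isUnit_iff_ne_zero.2 hBdet
  let μ : Idx n F → ℂ := Bm⁻¹.mulVec fun i => σ (φ (b i))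
  have hμb : ∀ i, ∑ w, μ w * ((b i w.1.embedding : ℝ) : ℂ) = σ (φ (b i)) := by
    intro i
    have h1 : Bm.mulVec μ = fun i => σ (φ (b i)) := by
      change Bm.mulVec (Bm⁻¹.mulVec _) = _
      rw [Matrix.mulVec_mulVec, Matrix.mul_nonsing_inv _ hu, Matrix.one_mulVec]
    rw [← congrFun h1 i]
    change _ = ∑ w, Bm i w * μ w
    refine Finset.sum_congr rfl fun w _ => ?_
    rw [mul_comm]
    rfl
  have hμ : ∀ f ∈ Submodule.span ℚ (Set.range b),
      ∑ w, μ w * ((f w.1.embedding : ℝ) : ℂ) = σ (φ f) := by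
    intro f hf
    refine Submodule.span_induction
      (p := fun f _ => ∑ w, μ w * ((f w.1.embedding : ℝ) : ℂ) = σ (φ f)) ?_ ?_ ?_ ?_ hf
    · rintro _ ⟨i, rfl⟩
      exact hμb i
    · have h1 : φ 0 = 0 := map_zero (cmb a)
      rw [h1, map_zero]
      refine Finset.sum_eq_zero fun w _ => ?_
      rw [Pi.zero_apply, Complex.ofReal_zero, mul_zero]
    · intro x y _ _ hx hy
      rw [hφa, map_add, ← hx, ← hy, ← Finset.sum_add_distrib]
      refine Finset.sum_congr rfl fun w _ => ?_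
      rw [Pi.add_apply, Complex.ofReal_add, mul_add]
    · intro r x _ hx
      rw [hφq, map_mul, map_ratCast, ← hx, Finset.mul_sum]
      refine Finset.sum_congr rfl fun w _ => ?_
      rw [Pi.smul_apply, Rat.smul_def, Complex.ofReal_mul, Complex.ofReal_ratCast]
      ring
  -- averaging
  let u : Idx n F → InfinitePlace k := fun w => w.1.comap (algebraMap k F)
  choose s e he hs hf using fun w : Idx n F => exists_coord (n := n) hι w.1
  have havg : ∀ f ∈ Submodule.span ℚ (Set.range b),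
      (Fintype.card (F ≃ₐ[k] F) : ℂ) * σ (φ f) =
        ∑ v : J n ι χ', (∑ w, if u w = v.1 then
          μ w * (e w : ℂ) * (((χ' (s w) : ℂˣ) : ℂ))⁻¹ else 0) * Sr (ι v) χ' f := by
    intro f hfm
    rw [group_J u _ (par_b' hb hfm)]
    have h1 : ∑ g : F ≃ₐ[k] F, ((χ' g : ℂˣ) : ℂ) *
        σ (φ (fun τ : F →+* ℂ => f (τ.comp (g : F →+* F)))) =
        (Fintype.card (F ≃ₐ[k] F) : ℂ) * σ (φ f) := by
      have h2 : ∀ g : F ≃ₐ[k] F, ((χ' g : ℂˣ) : ℂ) *
          σ (φ (fun τ : F →+* ℂ => f (τ.comp (g : F →+* F)))) = σ (φ f) := by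
        intro g
        rw [hφt, map_mul, map_inv₀, hσ, ← mul_assoc, mul_inv_cancel₀ (Units.ne_zero _), one_mul]
      rw [Finset.sum_congr rfl fun g _ => h2 g, Finset.sum_const, Finset.card_univ, nsmul_eq_mul]
    rw [← h1]
    have h3 : ∀ g : F ≃ₐ[k] F, ((χ' g : ℂˣ) : ℂ) *
        σ (φ (fun τ : F →+* ℂ => f (τ.comp (g : F →+* F)))) =
        ∑ w, ((χ' g : ℂˣ) : ℂ) * (μ w * ((f (w.1.embedding.comp (g : F →+* F)) : ℝ) : ℂ)) := by
      intro g
      rw [← hμ _ (stable_b' hb g hfm), Finset.mul_sum]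
    rw [Finset.sum_congr rfl fun g _ => h3 g, Finset.sum_comm]
    refine Finset.sum_congr rfl fun w _ => ?_
    rw [mul_assoc, ← Sr_translate, Finset.mul_sum]
    refine Finset.sum_congr rfl fun g _ => ?_
    rw [hf w f (par_b' hb hfm) g, Complex.ofReal_mul]
    ring
  have ha' := h (fun v => ∑ w, if u w = v.1 then
    μ w * (e w : ℂ) * (((χ' (s w) : ℂˣ) : ℂ))⁻¹ else 0) fun f hfA => by
      rw [← havg f (hA f hfA)]
      have h1 : φ f = 0 := ha f hfA
      rw [h1, map_zero, mul_zero]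
  have hcard : (Fintype.card (F ≃ₐ[k] F) : ℂ) ≠ 0 := by exact_mod_cast Fintype.card_ne_zero
  refine fullR_of_full hn hι (full_b' hb) (fun f hf => par_b' hb hf) χ a fun f hfm => ?_
  have h1 := havg f hfm
  have h2 : ∑ v : J n ι χ', (∑ w, if u w = v.1 then
      μ w * (e w : ℂ) * (((χ' (s w) : ℂˣ) : ℂ))⁻¹ else 0) * Sr (ι v) χ' f = 0 := by
    refine Finset.sum_eq_zero fun v _ => ?_
    have h3 := congrFun ha' v
    change (∑ w, if u w = v.1 then
      μ w * (e w : ℂ) * (((χ' (s w) : ℂˣ) : ℂ))⁻¹ else 0) = 0 at h3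
    rw [h3, zero_mul]
  rw [h2] at h1
  have h3 : σ (φ f) = 0 := (mul_eq_zero.1 h1).resolve_left hcard
  exact (map_eq_zero σ).1 h3

theorem span_topC {V : Type} {I : Type} [Fintype I] (v : V → I → ℂ)
    (h : ∀ l : I → ℂ, (∀ x, ∑ w, l w * v x w = 0) → l = 0) :
    Submodule.span ℂ (Set.range v) = ⊤ := by
  classical
  by_contra hn
  obtain ⟨f, hf0, hf⟩ := Submodule.exists_le_ker_of_lt_top _ (lt_top_iff_ne_top.2 hn)
  refine hf0 (LinearMap.pi_ext' fun w => LinearMap.ext_ring ?_)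
  have h1 : ∀ u : I → ℂ, f u = ∑ w, f (Pi.single w 1) * u w := by
    intro u
    rw [LinearMap.pi_apply_eq_sum_univ f u]
    refine Finset.sum_congr rfl fun i _ => ?_
    rw [smul_eq_mul, mul_comm]
    congr 2
    funext j
    rw [Pi.single_apply]
    simp only [eq_comm]
  have h2 := h (fun w => f (Pi.single w 1)) fun x => by
    have h3 : f (v x) = 0 := hf (Submodule.subset_span ⟨x, rfl⟩)
    rw [← h1, h3]
  have h3 := congrFun h2 w
  simpa using h3

/-- the determinant criterion -/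
theorem crit_iff {ι : InfinitePlace k → (F →+* ℂ)} {χ : (F ≃ₐ[k] F) →* ℂˣ} :
    Crit n ι χ ↔ FullR n ι χ (Vals n F) := by
  classical
  constructor
  · rintro ⟨α, hα, hdet⟩ a ha
    refine Matrix.eq_zero_of_mulVec_eq_zero hdet (funext fun i => ?_)
    have h1 := ha _ ⟨α i, hα i, rfl⟩
    rw [Pi.zero_apply, ← h1]
    change ∑ v : J n ι χ, Sr (ι v) χ (fun σ => value n σ (α i)) * a v = _
    exact Finset.sum_congr rfl fun v _ => mul_comm _ _
  · intro h
    let v : kerDelta n F → J n ι χ → ℂ := fun α v => Sr (ι v) χ fun σ => value n σ (α : ZP F)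
    have hv : Submodule.span ℂ (Set.range v) = ⊤ := by
      refine span_topC v fun l hl => h l ?_
      rintro f ⟨α, hα, rfl⟩
      exact hl ⟨α, hα⟩
    obtain ⟨κ, a, ha, hs, hi⟩ := exists_linearIndependent' ℂ v
    rw [hv] at hs
    let B : Module.Basis κ ℂ (J n ι χ → ℂ) := Module.Basis.mk hi (by rw [hs])
    have e : J n ι χ ≃ κ := (Pi.basisFun ℂ (J n ι χ)).indexEquiv B
    have hli : LinearIndependent ℂ (Matrix.of fun i j : J n ι χ =>
        Sr (ι j) χ fun σ => value n σ (a (e i) : ZP F)).row := hi.comp _ e.injective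
    refine ⟨fun i => (a (e i) : ZP F), fun i => (a (e i)).2, ?_⟩
    have h1 := Matrix.linearIndependent_rows_iff_isUnit.1 hli
    exact ((Matrix.isUnit_iff_isUnit_det _).1 h1).ne_zero

/-- **the necessary condition**, for all Galois extensions and linear characters -/
theorem crit_of_nonzero (hn : 0 < n) {ι : InfinitePlace k → (F →+* ℂ)}
    (hι : ∀ v, (InfinitePlace.mk (ι v)).comap (algebraMap k F) = v) (h : Nonzero n F)
    (χ : (F ≃ₐ[k] F) →* ℂˣ) : Crit n ι χ := by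
  refine crit_iff.2 (fullR_of_full hn hι (nonzero_iff.1 h) ?_ χ)
  rintro f ⟨α, -, rfl⟩
  exact fun σ => value_conj hn σ α

/-- **abelian extensions**: the criterion -/
theorem nonzero_abelian [IsGalois k F] (hc : ∀ a b : F ≃ₐ[k] F, a * b = b * a) (hn : 3 ≤ n)
    {ι : InfinitePlace k → (F →+* ℂ)}
    (hι : ∀ v, (InfinitePlace.mk (ι v)).comap (algebraMap k F) = v) :
    Nonzero n F ↔ ∀ χ : (F ≃ₐ[k] F) →* ℂˣ, Crit n ι χ := by
  have hn0 : 0 < n := by omega
  refine ⟨fun h χ => crit_of_nonzero hn0 hι h χ, fun h => nonzero_iff.2 ?_⟩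
  refine full_of_fullR hc hn0 hι ?_ ?_ fun χ => crit_iff.1 (h χ)
  · rintro f ⟨α, -, rfl⟩
    exact fun σ => value_conj hn0 σ α
  · rintro _ ⟨α, hα, rfl⟩ g
    refine ⟨rmM (g : F →+* F) α, kerDelta_rmM hn _ hα, ?_⟩
    funext σ
    rw [value_rmM]

/-- characters with the same kernel -/
theorem crit_transfer [IsGalois k F] (hc : ∀ a b : F ≃ₐ[k] F, a * b = b * a) (hn : 0 < n)
    {ι : InfinitePlace k → (F →+* ℂ)}
    (hι : ∀ v, (InfinitePlace.mk (ι v)).comap (algebraMap k F) = v)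
    (hb : IsRegulator n F b) {χ χ' : (F ≃ₐ[k] F) →* ℂˣ} (hk : χ.ker = χ'.ker)
    (h : Crit n ι χ') : Crit n ι χ := by
  refine crit_iff.2 (fullR_transfer hc hn hι hb ?_ hk (crit_iff.1 h))
  rintro f ⟨α, hα, rfl⟩
  exact hb.mem α hα

end

end Pool.Agent.Q20.ZG
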